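import Pool.Agent.Helper60.PT.St

/-! Project PT (MP_b454d1_nt), module L2 -/

set_option autoImplicit false

namespace Pool.Agent.Helper60.PT

open Finset ArithmeticFunction
open Pool.Agent.Helper60.GP (PP VV rg IsB JJ II Err an T0 Tq SS)
open Pool.Agent.Helper15.AB (Th ee)
open Pool.Agent.Helper23.GK (cR)

namespace PTL2

/-- `e/φ(e)` for `e` coprime to `N` -/
noncomputable def f (N : ℕ) : ArithmeticFunction ℝ :=
  ⟨fun e => if e ≠ 0 ∧ Nat.Coprime e N then (e : ℝ) / (Nat.totient e : ℝ) else 0, by simp⟩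

theorem f_apply (N : ℕ) {e : ℕ} (he : e ≠ 0) :
    f N e = if Nat.Coprime e N then (e : ℝ) / (Nat.totient e : ℝ) else 0 := by
  show (if e ≠ 0 ∧ Nat.Coprime e N then (e : ℝ) / (Nat.totient e : ℝ) else 0) = _
  simp [he]

theorem hh_eq (N r : ℕ) : hh N r = (f N * ((moebius : ArithmeticFunction ℤ) :
    ArithmeticFunction ℝ)) r := by
  unfold hh
  rw [ArithmeticFunction.mul_apply, Nat.sum_divisorsAntidiagonal
    (f := fun e k => f N e * ((moebius : ArithmeticFunction ℤ) : ArithmeticFunction ℝ) k),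
    Finset.sum_filter]
  refine Finset.sum_congr rfl fun e he => ?_
  have he0 : e ≠ 0 := (Nat.pos_of_mem_divisors he).ne'
  rw [f_apply N he0, ArithmeticFunction.intCoe_apply]
  split_ifs
  · ring
  · ring

theorem sum_hh (N d : ℕ) (hd : d ≠ 0) : ∑ r ∈ d.divisors, hh N r =
    if Nat.Coprime d N then (d : ℝ) / (Nat.totient d : ℝ) else 0 := by
  have h1 : ∑ r ∈ d.divisors, hh N r = ((f N * ((moebius : ArithmeticFunction ℤ) :
    ArithmeticFunction ℝ)) * ((zeta : ArithmeticFunction ℕ) : ArithmeticFunction ℝ)) d := by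
    rw [ArithmeticFunction.coe_mul_zeta_apply]
    exact Finset.sum_congr rfl fun r _ => hh_eq N r
  rw [h1, mul_assoc, ArithmeticFunction.coe_moebius_mul_coe_zeta, mul_one, f_apply N hd]

end PTL2

open PTL2 in
theorem hIh : StIh := by
  intro D N ξ
  unfold gg MN
  have h1 : ∑ r ∈ Icc 1 ⌊D⌋₊, (∑ d ∈ (Icc 1 ⌊D⌋₊).filter (fun d => r ∣ d), ξ d / d) * hh N r =
      ∑ d ∈ Icc 1 ⌊D⌋₊, (ξ d / d) * ∑ r ∈ d.divisors, hh N r := by
    simp only [Finset.sum_mul, Finset.mul_sum, Finset.sum_filter]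
    rw [Finset.sum_comm]
    refine Finset.sum_congr rfl fun d hd => ?_
    rw [Finset.mem_Icc] at hd
    simp only [ite_mul, zero_mul]
    rw [← Finset.sum_filter]
    refine Finset.sum_congr ?_ fun r _ => rfl
    ext r
    rw [Finset.mem_filter, Finset.mem_Icc, Nat.mem_divisors]
    constructor
    · rintro ⟨⟨h1, h2⟩, h3⟩
      exact ⟨h3, by omega⟩
    · rintro ⟨h1, h2⟩
      have h3 := Nat.le_of_dvd (by omega) h1
      have h4 := Nat.pos_of_dvd_of_pos h1 (by omega)
      exact ⟨⟨h4, by omega⟩, h1⟩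
  rw [h1, Finset.sum_filter]
  refine Finset.sum_congr rfl fun d hd => ?_
  rw [Finset.mem_Icc] at hd
  have hd0 : (d : ℝ) ≠ 0 := by
    have : d ≠ 0 := by omega
    exact_mod_cast this
  rw [sum_hh N d (by omega)]
  split_ifs
  · field_simp
  · ring

end Pool.Agent.Helper60.PT
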