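import Pool.Agent.Helper60.PT.St

/-! Project PT (MP_b454d1_nt), module L3 -/

set_option autoImplicit false

namespace Pool.Agent.Helper60.PT

open Finset ArithmeticFunction
open Pool.Agent.Helper60.GP (PP VV rg IsB JJ II Err an T0 Tq SS)
open Pool.Agent.Helper15.AB (Th ee)
open Pool.Agent.Helper23.GK (cR)

namespace PTL3

/-- the harmonic sum -/
theorem harm (n : ℕ) : ∑ k ∈ Icc 1 n, 1 / (k : ℝ) ≤ 1 + Real.log n := by
  have h := harmonic_le_one_add_log n
  rw [harmonic_eq_sum_Icc] at h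
  push_cast at h
  simpa [one_div] using h

theorem gg_le {D : ℝ} {ξ : ℕ → ℝ} (hξ : IsXi D ξ) (hD : 1 ≤ D) {r : ℕ} (hr : 1 ≤ r) :
    |gg D ξ r| ≤ (1 + Real.log D) / r := by
  have hr0 : (0 : ℝ) < r := by exact_mod_cast hr
  have hfl : 1 ≤ ⌊D⌋₊ := Nat.floor_pos.2 hD
  have hlog : Real.log (⌊D⌋₊ : ℝ) ≤ Real.log D :=
    Real.log_le_log (by exact_mod_cast hfl) (Nat.floor_le (by linarith))
  calc |gg D ξ r| ≤ ∑ d ∈ (Icc 1 ⌊D⌋₊).filter (fun d => r ∣ d), |ξ d / d| :=
        Finset.abs_sum_le_sum_abs _ _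
    _ ≤ ∑ d ∈ (Icc 1 ⌊D⌋₊).filter (fun d => r ∣ d), (1 / (r : ℝ)) * (1 / ((d / r : ℕ) : ℝ)) := by
        refine Finset.sum_le_sum fun d hd => ?_
        obtain ⟨hd1, hd2⟩ := Finset.mem_filter.1 hd
        have hd1' := Finset.mem_Icc.1 hd1
        have hd0 : (0 : ℝ) < d := by exact_mod_cast hd1'.1
        have he : (1 / (r : ℝ)) * (1 / ((d / r : ℕ) : ℝ)) = 1 / d := by
          rw [Nat.cast_div hd2 hr0.ne']
          field_simp
        rw [he, abs_div, abs_of_pos hd0]
        exact div_le_div_of_nonneg_right (hξ.bound d) hd0.le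
    _ = (1 / (r : ℝ)) * ∑ d ∈ (Icc 1 ⌊D⌋₊).filter (fun d => r ∣ d), (1 / ((d / r : ℕ) : ℝ)) := by
        rw [Finset.mul_sum]
    _ ≤ (1 / (r : ℝ)) * ∑ k ∈ Icc 1 ⌊D⌋₊, 1 / (k : ℝ) := by
        refine mul_le_mul_of_nonneg_left ?_ (by positivity)
        have hinj : Set.InjOn (fun d : ℕ => d / r)
            ((Icc 1 ⌊D⌋₊).filter (fun d => r ∣ d) : Finset ℕ) := by
          intro a ha b hb hab
          have ha2 := (Finset.mem_filter.1 (Finset.mem_coe.1 ha)).2
          have hb2 := (Finset.mem_filter.1 (Finset.mem_coe.1 hb)).2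
          have := congrArg (fun t => t * r) hab
          simpa [Nat.div_mul_cancel ha2, Nat.div_mul_cancel hb2] using this
        rw [← Finset.sum_image (f := fun k : ℕ => 1 / (k : ℝ)) hinj]
        refine Finset.sum_le_sum_of_subset_of_nonneg ?_ fun _ _ _ => by positivity
        intro k hk
        obtain ⟨d, hd, rfl⟩ := Finset.mem_image.1 hk
        obtain ⟨hd1, hd2⟩ := Finset.mem_filter.1 hd
        have hd1' := Finset.mem_Icc.1 hd1
        refine Finset.mem_Icc.2 ⟨?_, (Nat.div_le_self _ _).trans hd1'.2⟩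
        exact Nat.div_pos (Nat.le_of_dvd hd1'.1 hd2) hr
    _ ≤ (1 / (r : ℝ)) * (1 + Real.log D) := by
        refine mul_le_mul_of_nonneg_left ?_ (by positivity)
        exact (harm _).trans (by linarith)
    _ = (1 + Real.log D) / r := by ring

theorem gg_zero {D : ℝ} {ξ : ℕ → ℝ} (hξ : IsXi D ξ) {r : ℕ} (hr : ¬ Squarefree r) :
    gg D ξ r = 0 := by
  refine Finset.sum_eq_zero fun d hd => ?_
  obtain ⟨_, hd2⟩ := Finset.mem_filter.1 hd
  have : ξ d = 0 := by
    by_contra h
    exact hr ((hξ.supp d h).1.squarefree_of_dvd hd2)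
  simp [this]

/-- the function `e / φ(e)` on integers coprime to `N` -/
noncomputable def fN (N : ℕ) : ArithmeticFunction ℝ :=
  ⟨fun e => if Nat.Coprime e N then (e : ℝ) / (Nat.totient e : ℝ) else 0, by simp⟩

theorem fN_apply (N e : ℕ) : fN N e = if Nat.Coprime e N then (e : ℝ) / (Nat.totient e : ℝ) else 0 :=
  rfl

theorem fN_mult (N : ℕ) : (fN N).IsMultiplicative := by
  refine ⟨by simp [fN_apply], ?_⟩
  intro m n hmn
  rw [fN_apply, fN_apply, fN_apply]
  by_cases hm : Nat.Coprime m N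
  · by_cases hn : Nat.Coprime n N
    · rw [if_pos (Nat.Coprime.mul_left hm hn), if_pos hm, if_pos hn, Nat.totient_mul hmn]
      push_cast
      rw [mul_div_mul_comm]
    · rw [if_neg (fun h => hn (Nat.Coprime.coprime_mul_left h)), if_neg hn, mul_zero]
  · rw [if_neg (fun h => hm (Nat.Coprime.coprime_mul_right h)), if_neg hm, zero_mul]

theorem hh_eq (N r : ℕ) : hh N r = (fN N * ((moebius : ArithmeticFunction ℤ) : ArithmeticFunction ℝ)) r := by
  rw [ArithmeticFunction.mul_apply]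
  rw [Nat.sum_divisorsAntidiagonal (f := fun i j => fN N i * ((moebius : ArithmeticFunction ℤ) : ArithmeticFunction ℝ) j)]
  unfold hh
  rw [Finset.sum_filter]
  refine Finset.sum_congr rfl fun e _ => ?_
  rw [fN_apply]
  split_ifs with h
  · rw [ArithmeticFunction.intCoe_apply]; ring
  · simp

theorem hh_mult (N : ℕ) (t : Finset ℕ) (ht : ∀ p ∈ t, p.Prime) :
    hh N (∏ p ∈ t, p) = ∏ p ∈ t, hh N p := by
  have hm : (fN N * ((moebius : ArithmeticFunction ℤ) : ArithmeticFunction ℝ)).IsMultiplicative :=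
    (fN_mult N).mul isMultiplicative_moebius.intCast
  rw [hh_eq, hm.map_prod_of_prime t ht]
  exact Finset.prod_congr rfl fun p _ => (hh_eq N p).symm

theorem hh_prime (N p : ℕ) (hp : p.Prime) :
    |hh N p| = if p ∣ N then 1 else 1 / ((p : ℝ) - 1) := by
  have hp1 : (1 : ℝ) < p := by exact_mod_cast hp.one_lt
  have htot : (Nat.totient p : ℝ) = (p : ℝ) - 1 := by
    rw [Nat.totient_prime hp, Nat.cast_sub hp.one_lt.le]; simp
  unfold hh
  rw [Finset.sum_filter, hp.sum_divisors]
  have h1 : p / p = 1 := Nat.div_self hp.pos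
  have h2 : p / 1 = p := Nat.div_one p
  rw [h1, h2, moebius_apply_prime hp]
  by_cases hd : p ∣ N
  · have hc : ¬ Nat.Coprime p N := fun h => (hp.coprime_iff_not_dvd.1 h) hd
    rw [if_neg hc, if_pos hd]
    simp
  · have hc : Nat.Coprime p N := hp.coprime_iff_not_dvd.2 hd
    rw [if_pos hc, if_neg hd, htot]
    have h3 : (0 : ℝ) < (p : ℝ) - 1 := by linarith
    have : (p : ℝ) * (((moebius 1 : ℤ)) : ℝ) / ((p : ℝ) - 1) + (if Nat.Coprime 1 N then
        ((1 : ℕ) : ℝ) * (((-1 : ℤ)) : ℝ) / (Nat.totient 1 : ℝ) else 0) = 1 / ((p : ℝ) - 1) := by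
      simp
      field_simp
      ring
    rw [this, abs_of_pos (by positivity)]

theorem tot_prod (t : Finset ℕ) (ht : ∀ p ∈ t, p.Prime) :
    (Nat.totient (∏ p ∈ t, p) : ℝ) = ∏ p ∈ t, ((p : ℝ) - 1) := by
  induction t using Finset.induction_on with
  | empty => simp
  | insert a s ha ih =>
    have hs : ∀ p ∈ s, p.Prime := fun p hp => ht p (Finset.mem_insert_of_mem hp)
    have hap : a.Prime := ht a (Finset.mem_insert_self _ _)
    rw [Finset.prod_insert ha, Finset.prod_insert ha, Nat.totient_mul, Nat.cast_mul, ih hs]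
    · rw [Nat.totient_prime hap, Nat.cast_sub hap.one_lt.le]; simp
    · refine Nat.Coprime.prod_right fun p hp => ?_
      rw [Nat.coprime_primes hap (hs p hp)]
      rintro rfl
      exact ha hp

/-- part of `r` dividing `N` -/
def gp (N r : ℕ) : ℕ := ∏ p ∈ r.primeFactors.filter (fun p => p ∣ N), p

/-- the other part -/
def kp (N r : ℕ) : ℕ := ∏ p ∈ r.primeFactors.filter (fun p => ¬ p ∣ N), p

theorem gp_mul_kp {N r : ℕ} (hr : Squarefree r) : gp N r * kp N r = r := by
  unfold gp kp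
  rw [Finset.prod_filter_mul_prod_filter_not]
  exact Nat.prod_primeFactors_of_squarefree hr

theorem hh_abs {N r : ℕ} (hr : Squarefree r) : |hh N r| = 1 / (Nat.totient (kp N r) : ℝ) := by
  have hpr : ∀ p ∈ r.primeFactors, p.Prime := fun p hp => Nat.prime_of_mem_primeFactors hp
  conv_lhs => rw [← Nat.prod_primeFactors_of_squarefree hr]
  rw [hh_mult N _ hpr, Finset.abs_prod]
  rw [Finset.prod_congr rfl fun p hp => hh_prime N p (hpr p hp)]
  unfold kp
  rw [tot_prod _ fun p hp => hpr p (Finset.mem_filter.1 hp).1]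
  rw [Finset.prod_ite]
  simp [Finset.prod_inv_distrib]

end PTL3

open PTL3 in
theorem hTail (h1 : Pool.Agent.Helper15.AB.StPH) : StTail := by
  obtain ⟨C, hC, hPH⟩ := h1
  refine ⟨C, hC, ?_⟩
  intro D R N ξ hξ hN hD hR
  have hfl : 1 ≤ ⌊D⌋₊ := Nat.floor_pos.2 hD
  have hlog0 : 0 ≤ Real.log D := Real.log_nonneg hD
  have hlog : Real.log (⌊D⌋₊ : ℝ) ≤ Real.log D :=
    Real.log_le_log (by exact_mod_cast hfl) (Nat.floor_le (by linarith))
  set T := ((Icc 1 ⌊D⌋₊).filter (fun r : ℕ => R < r)).filter (fun r => Squarefree r) with hT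
  have hP : ∑ k ∈ Icc 1 ⌊D⌋₊, 1 / (Nat.totient k : ℝ) ≤ C * (1 + Real.log D) := by
    have h := hPH ⌊D⌋₊ 1 hfl le_rfl
    simp only [one_dvd, Finset.filter_true, Nat.totient_one, Nat.cast_one, div_one] at h
    refine h.trans ?_
    exact mul_le_mul_of_nonneg_left (by linarith) hC.le
  calc |∑ r ∈ (Icc 1 ⌊D⌋₊).filter (fun r : ℕ => R < r), gg D ξ r * hh N r|
      = |∑ r ∈ T, gg D ξ r * hh N r| := by
        congr 1
        rw [hT, Finset.sum_filter (p := fun r => Squarefree r)]
        refine Finset.sum_congr rfl fun r _ => ?_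
        split_ifs with h
        · rfl
        · rw [gg_zero hξ h, zero_mul]
    _ ≤ ∑ r ∈ T, |gg D ξ r * hh N r| := Finset.abs_sum_le_sum_abs _ _
    _ ≤ ∑ r ∈ T, (1 + Real.log D) / R * (1 / (Nat.totient (kp N r) : ℝ)) := by
        refine Finset.sum_le_sum fun r hr => ?_
        rw [hT, Finset.mem_filter, Finset.mem_filter, Finset.mem_Icc] at hr
        obtain ⟨⟨⟨hr1, hr2⟩, hr3⟩, hr4⟩ := hr
        rw [abs_mul, hh_abs hr4]
        refine mul_le_mul_of_nonneg_right ?_ (by positivity)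
        refine (gg_le hξ hD hr1).trans ?_
        exact div_le_div_of_nonneg_left (by linarith) hR hr3.le
    _ = (1 + Real.log D) / R * ∑ r ∈ T, (1 / (Nat.totient (kp N r) : ℝ)) := by
        rw [Finset.mul_sum]
    _ ≤ (1 + Real.log D) / R * ∑ x ∈ N.divisors ×ˢ Icc 1 ⌊D⌋₊, (1 / (Nat.totient x.2 : ℝ)) := by
        refine mul_le_mul_of_nonneg_left ?_ (by positivity)
        have hinj : Set.InjOn (fun r : ℕ => (gp N r, kp N r)) (T : Set ℕ) := by
          intro a ha b hb hab
          have ha2 := (Finset.mem_filter.1 (Finset.mem_coe.1 ha)).2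
          have hb2 := (Finset.mem_filter.1 (Finset.mem_coe.1 hb)).2
          have h1 := congrArg (fun t : ℕ × ℕ => t.1 * t.2) hab
          simpa [gp_mul_kp ha2, gp_mul_kp hb2] using h1
        rw [← Finset.sum_image (f := fun x : ℕ × ℕ => 1 / (Nat.totient x.2 : ℝ)) hinj]
        refine Finset.sum_le_sum_of_subset_of_nonneg ?_ fun _ _ _ => by positivity
        intro x hx
        obtain ⟨r, hr, rfl⟩ := Finset.mem_image.1 hx
        rw [hT, Finset.mem_filter, Finset.mem_filter, Finset.mem_Icc] at hr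
        obtain ⟨⟨⟨hr1, hr2⟩, hr3⟩, hr4⟩ := hr
        have hmul := gp_mul_kp (N := N) hr4
        have hk0 : kp N r ≠ 0 := by
          intro h
          rw [h, mul_zero] at hmul
          omega
        have hg0 : gp N r ≠ 0 := by
          intro h
          rw [h, zero_mul] at hmul
          omega
        refine Finset.mem_product.2 ⟨?_, Finset.mem_Icc.2 ⟨Nat.one_le_iff_ne_zero.2 hk0, ?_⟩⟩
        · refine Nat.mem_divisors.2 ⟨?_, by omega⟩
          show gp N r ∣ N
          refine Finset.prod_primes_dvd N ?_ ?_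
          · intro p hp
            exact (Nat.prime_of_mem_primeFactors (Finset.mem_filter.1 hp).1).prime
          · intro p hp
            exact (Finset.mem_filter.1 hp).2
        · show kp N r ≤ ⌊D⌋₊
          refine le_trans ?_ hr2
          calc kp N r ≤ gp N r * kp N r := Nat.le_mul_of_pos_left _ (Nat.pos_of_ne_zero hg0)
            _ = r := hmul
    _ = (1 + Real.log D) / R * ((N.divisors.card : ℝ) * ∑ k ∈ Icc 1 ⌊D⌋₊,
          1 / (Nat.totient k : ℝ)) := by
        rw [Finset.sum_product]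
        simp only [Finset.sum_const, nsmul_eq_mul]
    _ ≤ (1 + Real.log D) / R * ((N.divisors.card : ℝ) * (C * (1 + Real.log D))) := by
        gcongr
    _ = C * (1 + Real.log D) ^ 2 * (N.divisors.card : ℝ) / R := by ring

end Pool.Agent.Helper60.PT
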