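import Pool.Agent.Helper60.PT.St

/-! Project PT (MP_b454d1_nt), module L4 -/

set_option autoImplicit false

namespace Pool.Agent.Helper60.PT

open Finset ArithmeticFunction
open Pool.Agent.Helper60.GP (PP VV rg IsB JJ II Err an T0 Tq SS)
open Pool.Agent.Helper15.AB (Th ee)
open Pool.Agent.Helper23.GK (cR)

namespace PTL4

theorem harm_L4 {D : ℝ} (hD : 1 ≤ D) {r : ℕ} (hr : 1 ≤ r) :
    ∑ d ∈ (Icc 1 ⌊D⌋₊).filter (fun d => r ∣ d), 1 / (d : ℝ) ≤ (1 + Real.log D) / r := by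
  have hr0 : (0 : ℝ) < r := by exact_mod_cast hr
  have h1 : ∑ d ∈ (Icc 1 ⌊D⌋₊).filter (fun d => r ∣ d), 1 / (d : ℝ) ≤
      ∑ k ∈ Icc 1 ⌊D⌋₊, 1 / ((r : ℝ) * k) := by
    have h2 : ∑ d ∈ (Icc 1 ⌊D⌋₊).filter (fun d => r ∣ d), 1 / (d : ℝ) =
        ∑ k ∈ ((Icc 1 ⌊D⌋₊).filter (fun d => r ∣ d)).image (fun d => d / r),
          1 / ((r : ℝ) * k) := by
      rw [Finset.sum_image]
      · apply Finset.sum_congr rfl
        intro d hd
        obtain ⟨-, k, rfl⟩ := Finset.mem_filter.1 hd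
        rw [Nat.mul_div_cancel_left k (by omega)]
        push_cast
        rfl
      · intro d hd d' hd' h
        obtain ⟨-, k, rfl⟩ := Finset.mem_filter.1 hd
        obtain ⟨-, k', rfl⟩ := Finset.mem_filter.1 hd'
        simp only [] at h
        rw [Nat.mul_div_cancel_left k (by omega), Nat.mul_div_cancel_left k' (by omega)] at h
        rw [h]
    rw [h2]
    apply Finset.sum_le_sum_of_subset_of_nonneg
    · intro k hk
      obtain ⟨d, hd, rfl⟩ := Finset.mem_image.1 hk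
      obtain ⟨hd1, k, rfl⟩ := Finset.mem_filter.1 hd
      rw [Finset.mem_Icc] at hd1 ⊢
      rw [Nat.mul_div_cancel_left k (by omega)]
      constructor
      · rcases Nat.eq_zero_or_pos k with h | h
        · rw [h, mul_zero] at hd1
          omega
        · exact h
      · calc k = 1 * k := (one_mul k).symm
          _ ≤ r * k := Nat.mul_le_mul_right k hr
          _ ≤ _ := hd1.2
    · intro k _ _
      positivity
  refine h1.trans ?_
  have h3 : ∑ k ∈ Icc 1 ⌊D⌋₊, 1 / ((r : ℝ) * k) = (∑ k ∈ Icc 1 ⌊D⌋₊, (k : ℝ)⁻¹) / r := by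
    rw [Finset.sum_div]
    apply Finset.sum_congr rfl
    intro k _
    rw [one_div, mul_inv, mul_comm]
    rfl
  rw [h3]
  apply div_le_div_of_nonneg_right _ hr0.le
  have h4 := harmonic_floor_le_one_add_log D hD
  rw [harmonic_eq_sum_Icc] at h4
  push_cast at h4
  exact h4

theorem gg_bd_L4 {D : ℝ} (hD : 1 ≤ D) {ξ : ℕ → ℝ} (hξ : IsXi D ξ) {r : ℕ} (hr : 1 ≤ r) :
    |gg D ξ r| ≤ (1 + Real.log D) / r := by
  unfold gg
  refine (Finset.abs_sum_le_sum_abs _ _).trans (le_trans ?_ (harm_L4 hD hr))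
  apply Finset.sum_le_sum
  intro d _
  rw [abs_div, Nat.abs_cast]
  exact div_le_div_of_nonneg_right (hξ.bound d) (Nat.cast_nonneg _)

/-- the sum over an arithmetic progression -/
noncomputable def ps (ω : ℝ → ℝ) (x : ℝ) (N e : ℕ) : ℝ :=
  ∑ n ∈ (II x).filter (fun n : ℕ => (e : ℤ) ∣ (n : ℤ) - (N : ℤ)), wn ω x n

theorem Sr_eq_L4 (ω : ℝ → ℝ) (x : ℝ) (N r : ℕ) : Sr ω x N r =
    ∑ e ∈ r.divisors, (e : ℝ) * ((moebius (r / e) : ℤ) : ℝ) * ps ω x N e := by
  unfold Sr ps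
  have h1 : ∀ n ∈ II x, wn ω x n * ((cR r ((N : ℤ) - n) : ℤ) : ℝ) =
      ∑ e ∈ r.divisors, (e : ℝ) * ((moebius (r / e) : ℤ) : ℝ) *
        (if (e : ℤ) ∣ (n : ℤ) - (N : ℤ) then wn ω x n else 0) := by
    intro n _
    unfold cR
    rw [Finset.sum_filter, Int.cast_sum, Finset.mul_sum]
    apply Finset.sum_congr rfl
    intro e _
    by_cases h : (e : ℤ) ∣ (n : ℤ) - (N : ℤ)
    · rw [if_pos h, if_pos ((dvd_sub_comm).1 h)]
      push_cast
      ring
    · rw [if_neg h, if_neg (fun h' => h ((dvd_sub_comm).1 h'))]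
      simp
  rw [Finset.sum_congr rfl h1, Finset.sum_comm]
  apply Finset.sum_congr rfl
  intro e _
  rw [← Finset.mul_sum, Finset.sum_filter]

/-- the discrepancy -/
noncomputable def dl4 (ω : ℝ → ℝ) (x : ℝ) (N e : ℕ) : ℝ :=
  ps ω x N e - if Nat.Coprime e N then Th ω x / (Nat.totient e : ℝ) else 0

theorem diff_L4 (ω : ℝ → ℝ) (x : ℝ) (N r : ℕ) : Sr ω x N r - Th ω x * hh N r =
    ∑ e ∈ r.divisors, (e : ℝ) * ((moebius (r / e) : ℤ) : ℝ) * dl4 ω x N e := by
  rw [Sr_eq_L4]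
  unfold hh dl4
  rw [Finset.sum_filter, Finset.mul_sum, ← Finset.sum_sub_distrib]
  apply Finset.sum_congr rfl
  intro e _
  by_cases h : Nat.Coprime e N
  · rw [if_pos h, if_pos h]
    ring
  · rw [if_neg h, if_neg h]
    ring

theorem wn_nonneg_L4 {ω : ℝ → ℝ} (hω : IsB ω) (x : ℝ) (n : ℕ) : 0 ≤ wn ω x n := by
  unfold wn
  exact mul_nonneg vonMangoldt_nonneg (hω.nonneg _)

/-- the moduli which are not coprime to `N` -/
theorem noncop_L4 {ω : ℝ → ℝ} (hω : IsB ω) {x : ℝ} {N K : ℕ} (hx : 0 ≤ x) (hN : 3 * x < N) :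
    ∑ e ∈ (Icc 1 K).filter (fun e => ¬ Nat.Coprime e N), ps ω x N e ≤
      ∑ n ∈ (II x).filter (fun n => ¬ Nat.Coprime n N),
        wn ω x n * ((N - n).divisors.card : ℝ) := by
  unfold ps
  have h1 : ∀ e ∈ (Icc 1 K).filter (fun e => ¬ Nat.Coprime e N),
      ∑ n ∈ (II x).filter (fun n : ℕ => (e : ℤ) ∣ (n : ℤ) - (N : ℤ)), wn ω x n =
      ∑ n ∈ II x, if (e : ℤ) ∣ (n : ℤ) - (N : ℤ) then wn ω x n else 0 := by
    intro e _
    rw [Finset.sum_filter]
  rw [Finset.sum_congr rfl h1, Finset.sum_comm, Finset.sum_filter]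
  apply Finset.sum_le_sum
  intro n hn
  have hnN : n < N := by
    unfold II at hn
    have h2 := (Finset.mem_Icc.1 hn).2
    have h3 : (n : ℝ) ≤ 3 * x :=
      (Nat.le_floor_iff (by positivity)).1 h2
    exact_mod_cast lt_of_le_of_lt h3 hN
  rw [← Finset.sum_filter, Finset.sum_const, nsmul_eq_mul, mul_comm]
  have hdvd : ∀ e : ℕ, (e : ℤ) ∣ (n : ℤ) - (N : ℤ) → e ∣ N - n := by
    intro e he
    have h2 : (e : ℤ) ∣ ((N - n : ℕ) : ℤ) := by
      rw [Nat.cast_sub hnN.le]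
      exact (dvd_sub_comm).1 he
    exact Int.natCast_dvd_natCast.1 h2
  by_cases hc : Nat.Coprime n N
  · rw [if_neg (fun h => h hc)]
    have : ((Icc 1 K).filter (fun e => ¬ Nat.Coprime e N)).filter
        (fun e : ℕ => (e : ℤ) ∣ (n : ℤ) - (N : ℤ)) = ∅ := by
      apply Finset.eq_empty_of_forall_notMem
      intro e he
      obtain ⟨he1, he2⟩ := Finset.mem_filter.1 he
      obtain ⟨-, he3⟩ := Finset.mem_filter.1 he1
      apply he3
      have h4 := hdvd e he2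
      have h5 : Nat.gcd e N ∣ n := by
        have h6 : Nat.gcd e N ∣ N - n := (Nat.gcd_dvd_left e N).trans h4
        have h7 : Nat.gcd e N ∣ N := Nat.gcd_dvd_right e N
        exact (Nat.dvd_sub_iff_right hnN.le h7).1 h6
      have h6 : Nat.gcd e N ∣ Nat.gcd n N := Nat.dvd_gcd h5 (Nat.gcd_dvd_right e N)
      rw [Nat.Coprime] at hc
      rw [hc] at h6
      exact Nat.dvd_one.1 h6
    rw [this]
    simp
  · rw [if_pos hc]
    apply mul_le_mul_of_nonneg_left _ (wn_nonneg_L4 hω x n)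
    have hsub : ((Icc 1 K).filter (fun e => ¬ Nat.Coprime e N)).filter
        (fun e : ℕ => (e : ℤ) ∣ (n : ℤ) - (N : ℤ)) ⊆ (N - n).divisors := by
      intro e he
      obtain ⟨-, he2⟩ := Finset.mem_filter.1 he
      exact Nat.mem_divisors.2 ⟨hdvd e he2, by omega⟩
    exact_mod_cast Finset.card_le_card hsub

end PTL4

open PTL4

theorem hMaj : StMaj := by
  intro ω hω x D R N ξ hξ hx hN hD
  set RS : Finset ℕ := (Icc 1 ⌊D⌋₊).filter (fun r : ℕ => (r : ℝ) ≤ R) with hRS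
  set L : ℝ := 1 + Real.log D with hL
  have hL0 : 0 ≤ L := by
    have := Real.log_nonneg hD
    linarith
  have h1 : ∑ r ∈ RS, gg D ξ r * Sr ω x N r - Th ω x * ∑ r ∈ RS, gg D ξ r * hh N r =
      ∑ e ∈ Icc 1 ⌊R⌋₊, (∑ r ∈ RS.filter (fun r => e ∣ r),
        gg D ξ r * ((e : ℝ) * ((moebius (r / e) : ℤ) : ℝ))) * dl4 ω x N e := by
    have h2 : ∑ r ∈ RS, gg D ξ r * Sr ω x N r - Th ω x * ∑ r ∈ RS, gg D ξ r * hh N r =
        ∑ r ∈ RS, ∑ e ∈ Icc 1 ⌊R⌋₊, if e ∣ r then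
          gg D ξ r * ((e : ℝ) * ((moebius (r / e) : ℤ) : ℝ)) * dl4 ω x N e else 0 := by
      rw [Finset.mul_sum, ← Finset.sum_sub_distrib]
      apply Finset.sum_congr rfl
      intro r hr
      have h3 : gg D ξ r * Sr ω x N r - Th ω x * (gg D ξ r * hh N r) =
          gg D ξ r * (Sr ω x N r - Th ω x * hh N r) := by ring
      rw [h3, diff_L4, Finset.mul_sum, ← Finset.sum_filter]
      obtain ⟨hr1, hr2⟩ := Finset.mem_filter.1 hr
      have hr3 := (Finset.mem_Icc.1 hr1).1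
      have h4 : r.divisors = (Icc 1 ⌊R⌋₊).filter (fun e => e ∣ r) := by
        ext e
        rw [Nat.mem_divisors, Finset.mem_filter, Finset.mem_Icc]
        constructor
        · rintro ⟨h5, h6⟩
          refine ⟨⟨Nat.pos_of_dvd_of_pos h5 (by omega), ?_⟩, h5⟩
          exact (Nat.le_of_dvd (by omega) h5).trans (Nat.le_floor hr2)
        · rintro ⟨-, h5⟩
          exact ⟨h5, by omega⟩
      rw [h4]
      apply Finset.sum_congr rfl
      intro e _
      ring
    rw [h2, Finset.sum_comm]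
    apply Finset.sum_congr rfl
    intro e _
    rw [← Finset.sum_filter, Finset.sum_mul]
  rw [h1]
  have hΓ : ∀ e ∈ Icc 1 ⌊R⌋₊, |∑ r ∈ RS.filter (fun r => e ∣ r),
      gg D ξ r * ((e : ℝ) * ((moebius (r / e) : ℤ) : ℝ))| ≤ L ^ 2 := by
    intro e he
    have he1 : 1 ≤ e := (Finset.mem_Icc.1 he).1
    have he0 : (0 : ℝ) < e := by exact_mod_cast he1
    have h2 : |∑ r ∈ RS.filter (fun r => e ∣ r),
        gg D ξ r * ((e : ℝ) * ((moebius (r / e) : ℤ) : ℝ))| ≤
        ∑ r ∈ (Icc 1 ⌊D⌋₊).filter (fun r => e ∣ r), (e : ℝ) * L * (1 / (r : ℝ)) := by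
      refine (Finset.abs_sum_le_sum_abs _ _).trans ?_
      have h3 : ∀ r ∈ RS.filter (fun r => e ∣ r),
          |gg D ξ r * ((e : ℝ) * ((moebius (r / e) : ℤ) : ℝ))| ≤
          (e : ℝ) * L * (1 / (r : ℝ)) := by
        intro r hr
        have hr1 : 1 ≤ r :=
          (Finset.mem_Icc.1 (Finset.mem_filter.1 (Finset.mem_filter.1 hr).1).1).1
        rw [abs_mul, abs_mul, Nat.abs_cast]
        have h4 := gg_bd_L4 hD hξ hr1
        have h5 : |((moebius (r / e) : ℤ) : ℝ)| ≤ 1 := by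
          rw [← Int.cast_abs]
          exact_mod_cast abs_moebius_le_one
        calc |gg D ξ r| * ((e : ℝ) * |((moebius (r / e) : ℤ) : ℝ)|) ≤
            (L / r) * ((e : ℝ) * 1) := by
              apply mul_le_mul h4 _ (by positivity) (by positivity)
              exact mul_le_mul_of_nonneg_left h5 he0.le
          _ = (e : ℝ) * L * (1 / (r : ℝ)) := by ring
      refine (Finset.sum_le_sum h3).trans ?_
      apply Finset.sum_le_sum_of_subset_of_nonneg
      · intro r hr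
        obtain ⟨hr1, hr2⟩ := Finset.mem_filter.1 hr
        exact Finset.mem_filter.2 ⟨(Finset.mem_filter.1 hr1).1, hr2⟩
      · intro r _ _
        positivity
    refine h2.trans ?_
    rw [← Finset.mul_sum]
    have h3 := harm_L4 hD he1
    calc (e : ℝ) * L * ∑ r ∈ (Icc 1 ⌊D⌋₊).filter (fun r => e ∣ r), 1 / (r : ℝ) ≤
        (e : ℝ) * L * (L / e) := mul_le_mul_of_nonneg_left h3 (by positivity)
      _ = L ^ 2 := by
        field_simp
  have h2 : |∑ e ∈ Icc 1 ⌊R⌋₊, (∑ r ∈ RS.filter (fun r => e ∣ r),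
        gg D ξ r * ((e : ℝ) * ((moebius (r / e) : ℤ) : ℝ))) * dl4 ω x N e| ≤
      L ^ 2 * ∑ e ∈ Icc 1 ⌊R⌋₊, |dl4 ω x N e| := by
    refine (Finset.abs_sum_le_sum_abs _ _).trans ?_
    rw [Finset.mul_sum]
    apply Finset.sum_le_sum
    intro e he
    rw [abs_mul]
    exact mul_le_mul_of_nonneg_right (hΓ e he) (abs_nonneg _)
  refine h2.trans ?_
  apply mul_le_mul_of_nonneg_left _ (by positivity)
  rw [← Finset.sum_filter_add_sum_filter_not (Icc 1 ⌊R⌋₊) (fun e => Nat.Coprime e N)]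
  apply add_le_add
  · apply le_of_eq
    apply Finset.sum_congr rfl
    intro e he
    unfold dl4
    rw [if_pos (Finset.mem_filter.1 he).2]
    rfl
  · have h3 : ∑ e ∈ (Icc 1 ⌊R⌋₊).filter (fun e => ¬ Nat.Coprime e N), |dl4 ω x N e| =
        ∑ e ∈ (Icc 1 ⌊R⌋₊).filter (fun e => ¬ Nat.Coprime e N), ps ω x N e := by
      apply Finset.sum_congr rfl
      intro e he
      unfold dl4
      rw [if_neg (Finset.mem_filter.1 he).2, sub_zero, abs_of_nonneg]
      exact Finset.sum_nonneg fun n _ => wn_nonneg_L4 hω x n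
    rw [h3]
    exact noncop_L4 hω hx hN

end Pool.Agent.Helper60.PT
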