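import Pool.Agent.Helper60.PT.St

/-! Project PT (MP_b454d1_nt), module L5 -/

set_option autoImplicit false

namespace Pool.Agent.Helper60.PT

open Finset ArithmeticFunction
open Pool.Agent.Helper60.GP (PP VV rg IsB JJ II Err an T0 Tq SS)
open Pool.Agent.Helper15.AB (Th ee)
open Pool.Agent.Helper23.GK (cR)

theorem hDual (h1 : Pool.Agent.Helper15.AB.StAL) : StDual := by
  obtain ⟨C, hC, h⟩ := h1
  refine ⟨C, hC, fun Q H M c => ?_⟩
  set I : Finset (Σ _ : ℕ, ℕ) :=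
    (Icc 1 Q).sigma (fun r => (range r).filter (fun b => Nat.Coprime b r)) with hI
  set y : ℕ → ℂ := fun n => ∑ i ∈ I, c i.1 i.2 * ee (n * (i.2 / i.1)) with hy
  set A : (Σ _ : ℕ, ℕ) → ℂ := fun i => ∑ n ∈ Ioc M (M + H),
    (starRingEnd ℂ) (y n) * ee (n * (i.2 / i.1)) with hA
  have e1 : ∀ n : ℕ, ∑ r ∈ Icc 1 Q, ∑ b ∈ (range r).filter (fun b => Nat.Coprime b r),
      c r b * ee (n * (b / r)) = y n := by
    intro n
    show _ = ∑ i ∈ I, c i.1 i.2 * ee (n * (i.2 / i.1))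
    rw [hI, Finset.sum_sigma]
  have e2 : ∑ r ∈ Icc 1 Q, ∑ b ∈ (range r).filter (fun b => Nat.Coprime b r),
      ‖c r b‖ ^ 2 = ∑ i ∈ I, ‖c i.1 i.2‖ ^ 2 := by
    rw [hI, Finset.sum_sigma]
  have e3 : ∑ i ∈ I, ‖A i‖ ^ 2 ≤ C * (H + Q ^ 2) * ∑ n ∈ Ioc M (M + H), ‖y n‖ ^ 2 := by
    have h2 := h Q H M (fun n => (starRingEnd ℂ) (y n))
    rw [hI, Finset.sum_sigma]
    simp only [RCLike.norm_conj] at h2
    exact h2
  simp only [e1]
  rw [e2]
  set S : ℝ := ∑ n ∈ Ioc M (M + H), ‖y n‖ ^ 2 with hS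
  have hS0 : 0 ≤ S := Finset.sum_nonneg fun _ _ => by positivity
  have e4 : (S : ℂ) = ∑ i ∈ I, c i.1 i.2 * A i := by
    rw [hS]
    push_cast
    have h3 : ∀ n ∈ Ioc M (M + H), ((‖y n‖ : ℂ)) ^ 2 =
        ∑ i ∈ I, c i.1 i.2 * ((starRingEnd ℂ) (y n) * ee (n * (i.2 / i.1))) := by
      intro n _
      rw [← Complex.mul_conj']
      nth_rewrite 1 [hy]
      simp only
      rw [Finset.sum_mul]
      refine Finset.sum_congr rfl fun i _ => ?_
      ring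
    rw [Finset.sum_congr rfl h3, Finset.sum_comm]
    refine Finset.sum_congr rfl fun i _ => ?_
    rw [hA, Finset.mul_sum]
  have e5 : S ≤ ∑ i ∈ I, ‖c i.1 i.2‖ * ‖A i‖ := by
    have h3 : S = ‖(S : ℂ)‖ := by
      rw [Complex.norm_real, Real.norm_of_nonneg hS0]
    rw [h3, e4]
    refine (norm_sum_le _ _).trans (le_of_eq ?_)
    refine Finset.sum_congr rfl fun i _ => ?_
    rw [norm_mul]
  have e6 : S ^ 2 ≤ (∑ i ∈ I, ‖c i.1 i.2‖ ^ 2) * (C * (H + Q ^ 2) * S) := by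
    refine (pow_le_pow_left₀ hS0 e5 2).trans ?_
    refine (Finset.sum_mul_sq_le_sq_mul_sq _ _ _).trans ?_
    exact mul_le_mul_of_nonneg_left e3 (Finset.sum_nonneg fun _ _ => by positivity)
  rcases hS0.eq_or_lt with h0 | h0
  · rw [← h0]
    have : 0 ≤ ∑ i ∈ I, ‖c i.1 i.2‖ ^ 2 := Finset.sum_nonneg fun _ _ => by positivity
    positivity
  · have h4 : S * S ≤ S * (C * (H + Q ^ 2) * ∑ i ∈ I, ‖c i.1 i.2‖ ^ 2) := by
      nlinarith [e6]
    exact le_of_mul_le_mul_left h4 h0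

end Pool.Agent.Helper60.PT
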