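import Pool.Agent.Helper60.PT.St

/-! Project PT (MP_b454d1_nt), module L6 -/

set_option autoImplicit false

namespace Pool.Agent.Helper60.PT

open Finset ArithmeticFunction
open Pool.Agent.Helper60.GP (PP VV rg IsB JJ II Err an T0 Tq SS)
open Pool.Agent.Helper15.AB (Th ee)
open Pool.Agent.Helper23.GK (cR)

theorem ee_add_L6 (s t : ℝ) : ee (s + t) = ee s * ee t := by
  unfold ee
  rw [← Complex.exp_add]
  congr 1
  push_cast
  ring

theorem conj_ee_L6 (t : ℝ) : (starRingEnd ℂ) (ee t) = ee (-t) := by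
  unfold ee
  rw [← Complex.exp_conj]
  congr 1
  simp only [map_mul, Complex.conj_ofReal, Complex.conj_I, Complex.ofReal_neg, map_ofNat]
  ring

theorem norm_sum_L6 (s : Finset ℕ) (w : ℕ → ℝ) (v : ℕ → ℝ) :
    ‖∑ n ∈ s, (w n : ℂ) * ee (-(v n))‖ = ‖∑ n ∈ s, (w n : ℂ) * ee (v n)‖ := by
  have h : ∑ n ∈ s, (w n : ℂ) * ee (-(v n)) = (starRingEnd ℂ) (∑ n ∈ s, (w n : ℂ) * ee (v n)) := by
    rw [map_sum]
    refine sum_congr rfl fun n _ => ?_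
    rw [map_mul, conj_ee_L6, Complex.conj_ofReal]
  rw [h, RCLike.norm_conj]

theorem ex_eq_L6 (t : ℝ) : Pool.Agent.Helper48.BK.ex t = ee t := rfl

/-- Abel summation -/
theorem abel_L6 (T : ℕ → ℝ) (A B : ℝ) (R : ℕ) (hR : 1 ≤ R) (hB : 0 ≤ B)
    (hS : ∀ k : ℕ, R ≤ k → ∑ r ∈ Ioc R k, T r ≤ A + B * (k : ℝ) ^ 2) (Q : ℕ) (hQ : R ≤ Q) :
    ∑ r ∈ Ioc R Q, T r / (r : ℝ) ^ 2 ≤ (∑ r ∈ Ioc R Q, T r) / (Q : ℝ) ^ 2 +
      A * (1 / (R : ℝ) ^ 2 - 1 / (Q : ℝ) ^ 2) + 2 * B * ∑ k ∈ Icc 1 Q, 1 / (k : ℝ) := by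
  induction Q, hQ using Nat.le_induction with
  | base =>
    simp only [Ioc_self, sum_empty, zero_div, sub_self, mul_zero, add_zero, zero_add]
    apply mul_nonneg (by positivity)
    exact sum_nonneg fun k _ => by positivity
  | succ Q hQ ih =>
    have hQ0 : (0 : ℝ) < Q := by
      have : 0 < Q := by omega
      exact_mod_cast this
    have e1 : Ioc R (Q + 1) = insert (Q + 1) (Ioc R Q) := by
      ext a
      simp only [mem_Ioc, mem_insert]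
      omega
    have e2 : Q + 1 ∉ Ioc R Q := by
      simp only [mem_Ioc]
      omega
    have e3 : Icc 1 (Q + 1) = insert (Q + 1) (Icc 1 Q) := by
      ext a
      simp only [mem_Icc, mem_insert]
      omega
    have e4 : Q + 1 ∉ Icc 1 Q := by
      simp only [mem_Icc]
      omega
    rw [e1, sum_insert e2, sum_insert e2, e3, sum_insert e4]
    have hSQ := hS Q hQ
    set S := ∑ r ∈ Ioc R Q, T r with hSdef
    set S2 := ∑ r ∈ Ioc R Q, T r / (r : ℝ) ^ 2 with hS2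
    set Hm := ∑ k ∈ Icc 1 Q, 1 / (k : ℝ) with hHm
    set t := T (Q + 1) with ht
    have hd : 0 ≤ 1 / (Q : ℝ) ^ 2 - 1 / ((Q : ℝ) + 1) ^ 2 := by
      rw [sub_nonneg]
      apply one_div_le_one_div_of_le (by positivity)
      nlinarith
    have h1 : S * (1 / (Q : ℝ) ^ 2 - 1 / ((Q : ℝ) + 1) ^ 2) ≤
        (A + B * (Q : ℝ) ^ 2) * (1 / (Q : ℝ) ^ 2 - 1 / ((Q : ℝ) + 1) ^ 2) :=
      mul_le_mul_of_nonneg_right hSQ hd
    have h2 : (Q : ℝ) ^ 2 * (1 / (Q : ℝ) ^ 2 - 1 / ((Q : ℝ) + 1) ^ 2) ≤ 2 * (1 / ((Q : ℝ) + 1)) := by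
      have : (Q : ℝ) ^ 2 * (1 / (Q : ℝ) ^ 2 - 1 / ((Q : ℝ) + 1) ^ 2) =
          (2 * Q + 1) / ((Q : ℝ) + 1) ^ 2 := by
        field_simp
        ring
      rw [this, mul_one_div, div_le_div_iff₀ (by positivity) (by positivity)]
      nlinarith
    have h3 := mul_le_mul_of_nonneg_left h2 hB
    push_cast
    have h4 : (t + S) / ((Q : ℝ) + 1) ^ 2 = t / ((Q : ℝ) + 1) ^ 2 + S / (Q : ℝ) ^ 2 -
        S * (1 / (Q : ℝ) ^ 2 - 1 / ((Q : ℝ) + 1) ^ 2) := by ring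
    rw [h4]
    nlinarith [h1, h3, ih]

theorem harm_L6 (Q : ℕ) (D : ℝ) (hQ : (Q : ℝ) ≤ D) (hD : 1 ≤ D) :
    ∑ k ∈ Icc 1 Q, 1 / (k : ℝ) ≤ 1 + Real.log D := by
  have h1 := harmonic_le_one_add_log Q
  rw [harmonic_eq_sum_Icc] at h1
  push_cast at h1
  have h2 : ∑ k ∈ Icc 1 Q, 1 / (k : ℝ) = ∑ k ∈ Icc 1 Q, ((k : ℝ))⁻¹ :=
    sum_congr rfl fun k _ => one_div _
  rw [h2]
  refine h1.trans ?_
  rcases Nat.eq_zero_or_pos Q with h | h
  · subst h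
    simp only [Nat.cast_zero, Real.log_zero, add_zero]
    linarith [Real.log_nonneg hD]
  · have : (0 : ℝ) < Q := by exact_mod_cast h
    linarith [Real.log_le_log this hQ]

theorem gg_le_L6 {D : ℝ} {ξ : ℕ → ℝ} (hξ : IsXi D ξ) (hD : 1 ≤ D) {r : ℕ} (hr : 1 ≤ r) :
    |gg D ξ r| ≤ (1 + Real.log D) / r := by
  have hr0 : (0 : ℝ) < r := by exact_mod_cast hr
  unfold gg
  have h1 : |∑ d ∈ (Icc 1 ⌊D⌋₊).filter (fun d => r ∣ d), ξ d / d| ≤
      ∑ d ∈ (Icc 1 ⌊D⌋₊).filter (fun d => r ∣ d), 1 / (d : ℝ) := by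
    refine (abs_sum_le_sum_abs _ _).trans (sum_le_sum fun d hd => ?_)
    have hd1 : 1 ≤ d := (mem_Icc.1 (mem_filter.1 hd).1).1
    have hd0 : (0 : ℝ) < d := by exact_mod_cast hd1
    rw [abs_div, abs_of_pos hd0]
    exact div_le_div_of_nonneg_right (hξ.bound d) hd0.le
  refine h1.trans ?_
  have h2 : ∑ d ∈ (Icc 1 ⌊D⌋₊).filter (fun d => r ∣ d), 1 / (d : ℝ) ≤
      ∑ k ∈ Icc 1 ⌊D⌋₊, 1 / ((r : ℝ) * k) := by
    have h3 : (Icc 1 ⌊D⌋₊).filter (fun d => r ∣ d) ⊆ (Icc 1 ⌊D⌋₊).image (fun k => r * k) := by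
      intro d hd
      obtain ⟨hd1, k, rfl⟩ := mem_filter.1 hd
      have hd2 := mem_Icc.1 hd1
      refine mem_image.2 ⟨k, mem_Icc.2 ⟨?_, ?_⟩, rfl⟩
      · rcases Nat.eq_zero_or_pos k with h | h
        · subst h
          simp at hd2
        · exact h
      · exact le_trans (Nat.le_mul_of_pos_left k hr) hd2.2
    refine (sum_le_sum_of_subset_of_nonneg h3 fun d _ _ => by positivity).trans ?_
    rw [sum_image]
    · refine sum_le_sum fun k _ => ?_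
      push_cast
      exact le_rfl
    · intro a _ b _ hab
      exact Nat.eq_of_mul_eq_mul_left hr hab
  refine h2.trans ?_
  have h4 : ∑ k ∈ Icc 1 ⌊D⌋₊, 1 / ((r : ℝ) * k) = (∑ k ∈ Icc 1 ⌊D⌋₊, 1 / (k : ℝ)) / r := by
    rw [sum_div]
    refine sum_congr rfl fun k _ => ?_
    rw [div_div, mul_comm]
  rw [h4]
  apply div_le_div_of_nonneg_right _ hr0.le
  exact harm_L6 _ _ (Nat.floor_le (by linarith)) hD

theorem wn_sq_L6 {ω : ℝ → ℝ} (hω : IsB ω) {x : ℝ} (hx : 1 ≤ x) :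
    ∑ n ∈ II x, (wn ω x n) ^ 2 ≤ 3 * x * (1 + Real.log x) ^ 2 := by
  have hlx : 0 ≤ Real.log x := Real.log_nonneg hx
  have h1 : ∀ n ∈ II x, (wn ω x n) ^ 2 ≤ (1 + Real.log x) ^ 2 := by
    intro n hn
    have hn' := mem_Icc.1 hn
    have hn0 : (0 : ℝ) < n := by exact_mod_cast hn'.1
    have hn1 : (n : ℝ) ≤ 3 * x := (Nat.le_floor_iff (by positivity)).1 hn'.2
    have hΛ : Λ n ≤ Real.log n := vonMangoldt_le_log
    have hlog : Real.log n ≤ Real.log 3 + Real.log x := by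
      rw [← Real.log_mul (by norm_num) (by linarith)]
      exact Real.log_le_log hn0 hn1
    have h3 : Real.log 3 ≤ 2 := by
      have := Real.log_le_sub_one_of_pos (show (0 : ℝ) < 3 by norm_num)
      linarith
    have hw0 : 0 ≤ wn ω x n := mul_nonneg vonMangoldt_nonneg (hω.nonneg _)
    have hw1 : wn ω x n ≤ 1 + Real.log x := by
      have : wn ω x n ≤ Λ n * (1 / 2) :=
        mul_le_mul_of_nonneg_left (hω.le_half _) vonMangoldt_nonneg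
      linarith
    exact pow_le_pow_left₀ hw0 hw1 2
  refine (sum_le_sum h1).trans ?_
  rw [sum_const, nsmul_eq_mul]
  apply mul_le_mul_of_nonneg_right _ (by positivity)
  unfold II
  rw [Nat.card_Icc, Nat.add_sub_cancel]
  exact Nat.floor_le (by positivity)

theorem II_eq_L6 (x : ℝ) : II x = Ioc 0 (0 + ⌊3 * x⌋₊) := by
  unfold II
  ext a
  simp only [mem_Icc, mem_Ioc]
  omega

/-- the coefficients -/
noncomputable def cc_L6 (ω : ℝ → ℝ) (x D R : ℝ) (ξ : ℕ → ℝ) (r b : ℕ) : ℂ :=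
  if R < r then (gg D ξ r : ℂ) * ∑ n ∈ II x, (wn ω x n : ℂ) * ee (-(n * ((b : ℝ) / r))) else 0

theorem Sr_eq_L6 (h3 : Pool.Agent.Helper23.GK.StRam) (ω : ℝ → ℝ) (x : ℝ) (N r : ℕ) (hr : 1 ≤ r) :
    ((Sr ω x N r : ℝ) : ℂ) = ∑ b ∈ (range r).filter (fun b => Nat.Coprime b r),
      (∑ n ∈ II x, (wn ω x n : ℂ) * ee (-(n * ((b : ℝ) / r)))) * ee (N * (b / r)) := by
  unfold Sr
  push_cast
  simp_rw [sum_mul]
  rw [sum_comm]
  refine sum_congr rfl fun n _ => ?_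
  have h := h3.1 r ((N : ℤ) - n) hr
  rw [h, mul_sum]
  refine sum_congr rfl fun b _ => ?_
  rw [ex_eq_L6, mul_assoc, ← ee_add_L6]
  congr 2
  push_cast
  ring

theorem sum_eq_L6 (h3 : Pool.Agent.Helper23.GK.StRam) (ω : ℝ → ℝ) (x D R : ℝ) (ξ : ℕ → ℝ)
    (N : ℕ) :
    (((∑ r ∈ (Icc 1 ⌊D⌋₊).filter (fun r : ℕ => R < r), gg D ξ r * Sr ω x N r : ℝ)) : ℂ) =
      ∑ r ∈ Icc 1 ⌊D⌋₊, ∑ b ∈ (range r).filter (fun b => Nat.Coprime b r),
        cc_L6 ω x D R ξ r b * ee (N * (b / r)) := by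
  rw [sum_filter]
  push_cast
  refine sum_congr rfl fun r hr => ?_
  have hr1 := (mem_Icc.1 hr).1
  unfold cc_L6
  by_cases h : R < (r : ℝ)
  · simp only [h, if_true]
    push_cast
    rw [Sr_eq_L6 h3 ω x N r hr1, mul_sum]
    exact sum_congr rfl fun b _ => by ring
  · simp only [h, if_false]
    simp

theorem cc_sum_L6 (h2 : Pool.Agent.Helper15.AB.StAL) : ∃ C : ℝ, 0 < C ∧ ∀ ω : ℝ → ℝ, IsB ω →
    ∀ (x D R : ℝ) (ξ : ℕ → ℝ), IsXi D ξ → 1 ≤ x → 1 ≤ R → 1 ≤ D →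
    ∑ r ∈ Icc 1 ⌊D⌋₊, ∑ b ∈ (range r).filter (fun b => Nat.Coprime b r),
      ‖cc_L6 ω x D R ξ r b‖ ^ 2 ≤
    C * (1 + Real.log D) ^ 3 * (x / R ^ 2 + 1) * (x * (1 + Real.log x) ^ 2) := by
  obtain ⟨C, hC, hAL⟩ := h2
  refine ⟨36 * C, by positivity, fun ω hω x D R ξ hξ hx hR hD => ?_⟩
  have hlD : 0 ≤ Real.log D := Real.log_nonneg hD
  have hlx : 0 ≤ Real.log x := Real.log_nonneg hx
  set L : ℝ := 1 + Real.log D with hL
  have hL1 : 1 ≤ L := by linarith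
  set T : ℕ → ℝ := fun r => ∑ b ∈ (range r).filter (fun b => Nat.Coprime b r),
    ‖∑ n ∈ II x, (wn ω x n : ℂ) * ee (n * ((b : ℝ) / r))‖ ^ 2 with hT
  set W : ℝ := ∑ n ∈ II x, (wn ω x n) ^ 2 with hW
  have hW0 : 0 ≤ W := sum_nonneg fun n _ => sq_nonneg _
  have hT0 : ∀ r, 0 ≤ T r := fun r => sum_nonneg fun b _ => by positivity
  set R' : ℕ := ⌊R⌋₊ with hR'
  have hR'1 : 1 ≤ R' := Nat.le_floor (by simpa using hR)
  have hR'R : (R' : ℝ) ≤ R := Nat.floor_le (by linarith)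
  have hRR' : R < R' + 1 := Nat.lt_floor_add_one R
  have hR'0 : (1 : ℝ) ≤ R' := by exact_mod_cast hR'1
  -- the large sieve
  have hS : ∀ k : ℕ, R' ≤ k → ∑ r ∈ Ioc R' k, T r ≤ C * W * (3 * x) + C * W * (k : ℝ) ^ 2 := by
    intro k _
    have h1 : ∑ r ∈ Ioc R' k, T r ≤ ∑ r ∈ Icc 1 k, T r := by
      apply sum_le_sum_of_subset_of_nonneg
      · intro a ha
        rw [mem_Ioc] at ha
        rw [mem_Icc]
        omega
      · exact fun r _ _ => hT0 r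
    have h2 := hAL k ⌊3 * x⌋₊ 0 (fun n => (wn ω x n : ℂ))
    rw [← II_eq_L6] at h2
    have h3 : ∑ n ∈ II x, ‖((wn ω x n : ℝ) : ℂ)‖ ^ 2 = W := by
      refine sum_congr rfl fun n _ => ?_
      rw [Complex.norm_real, Real.norm_eq_abs, sq_abs]
    rw [h3] at h2
    have h4 : ((⌊3 * x⌋₊ : ℕ) : ℝ) ≤ 3 * x := Nat.floor_le (by positivity)
    calc ∑ r ∈ Ioc R' k, T r ≤ ∑ r ∈ Icc 1 k, T r := h1
      _ ≤ C * ((⌊3 * x⌋₊ : ℕ) + (k : ℝ) ^ 2) * W := h2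
      _ ≤ C * (3 * x + (k : ℝ) ^ 2) * W := by gcongr
      _ = _ := by ring
  -- bound by the sum over r > R
  have hb : ∑ r ∈ Icc 1 ⌊D⌋₊, ∑ b ∈ (range r).filter (fun b => Nat.Coprime b r),
      ‖cc_L6 ω x D R ξ r b‖ ^ 2 ≤ L ^ 2 * ∑ r ∈ Ioc R' ⌊D⌋₊, T r / (r : ℝ) ^ 2 := by
    have h1 : ∀ r ∈ Icc 1 ⌊D⌋₊, ∑ b ∈ (range r).filter (fun b => Nat.Coprime b r),
        ‖cc_L6 ω x D R ξ r b‖ ^ 2 ≤ if R' < r then L ^ 2 * (T r / (r : ℝ) ^ 2) else 0 := by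
      intro r hr
      have hr1 := (mem_Icc.1 hr).1
      have hr0 : (0 : ℝ) < r := by exact_mod_cast hr1
      by_cases h : R < (r : ℝ)
      · have h' : R' < r := by
          have : (R' : ℝ) < r := lt_of_le_of_lt hR'R h
          exact_mod_cast this
        rw [if_pos h']
        have e1 : ∀ b ∈ (range r).filter (fun b => Nat.Coprime b r),
            ‖cc_L6 ω x D R ξ r b‖ ^ 2 = (gg D ξ r) ^ 2 *
              ‖∑ n ∈ II x, (wn ω x n : ℂ) * ee (n * ((b : ℝ) / r))‖ ^ 2 := by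
          intro b _
          unfold cc_L6
          rw [if_pos h, norm_mul, mul_pow, Complex.norm_real, Real.norm_eq_abs, sq_abs]
          rw [norm_sum_L6 (II x) (wn ω x) (fun n => (n : ℝ) * ((b : ℝ) / r))]
        rw [sum_congr rfl e1, ← mul_sum]
        have hg := gg_le_L6 hξ hD hr1
        have hg2 : (gg D ξ r) ^ 2 ≤ (L / r) ^ 2 := by
          rw [← sq_abs]
          exact pow_le_pow_left₀ (abs_nonneg _) hg 2
        calc (gg D ξ r) ^ 2 * T r ≤ (L / r) ^ 2 * T r := mul_le_mul_of_nonneg_right hg2 (hT0 r)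
          _ = L ^ 2 * (T r / (r : ℝ) ^ 2) := by
            rw [div_pow]
            ring
      · have e1 : ∀ b ∈ (range r).filter (fun b => Nat.Coprime b r),
            ‖cc_L6 ω x D R ξ r b‖ ^ 2 = 0 := by
          intro b _
          unfold cc_L6
          rw [if_neg h]
          simp
        rw [sum_congr rfl e1, sum_const_zero]
        split_ifs
        · have := hT0 r
          positivity
        · exact le_rfl
    refine (sum_le_sum h1).trans ?_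
    rw [← sum_filter, mul_sum]
    apply le_of_eq
    refine sum_congr ?_ fun r _ => rfl
    ext a
    simp only [mem_filter, mem_Icc, mem_Ioc]
    omega
  refine hb.trans ?_
  rcases Nat.lt_or_ge ⌊D⌋₊ R' with hlt | hge
  · rw [Ioc_eq_empty_of_le hlt.le, sum_empty, mul_zero]
    positivity
  · have h5 := abel_L6 T (C * W * (3 * x)) (C * W) R' hR'1 (by positivity) hS ⌊D⌋₊ hge
    have h6 := hS ⌊D⌋₊ hge
    have hQ0 : (0 : ℝ) < (⌊D⌋₊ : ℕ) := by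
      have : 0 < ⌊D⌋₊ := by omega
      exact_mod_cast this
    have h7 : (∑ r ∈ Ioc R' ⌊D⌋₊, T r) / ((⌊D⌋₊ : ℕ) : ℝ) ^ 2 ≤
        C * W * (3 * x) * (1 / ((⌊D⌋₊ : ℕ) : ℝ) ^ 2) + C * W := by
      rw [div_le_iff₀ (by positivity)]
      refine h6.trans (le_of_eq ?_)
      field_simp
    have h8 := harm_L6 ⌊D⌋₊ D (Nat.floor_le (by linarith)) hD
    have h9 : ∑ r ∈ Ioc R' ⌊D⌋₊, T r / (r : ℝ) ^ 2 ≤
        C * W * (3 * x) * (1 / (R' : ℝ) ^ 2) + C * W + 2 * (C * W) * L := by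
      have h10 := mul_le_mul_of_nonneg_left h8 (show 0 ≤ 2 * (C * W) by positivity)
      linarith
    have h11 : 1 / (R' : ℝ) ^ 2 ≤ 4 * (1 / R ^ 2) := by
      rw [mul_one_div, div_le_div_iff₀ (by positivity) (by positivity)]
      nlinarith
    have h12 : W ≤ 3 * (x * (1 + Real.log x) ^ 2) := by
      have := wn_sq_L6 hω hx
      linarith
    have h13 : ∑ r ∈ Ioc R' ⌊D⌋₊, T r / (r : ℝ) ^ 2 ≤ C * W * (12 * (L * (x / R ^ 2 + 1))) := by
      have e : C * W * (3 * x) * (1 / (R' : ℝ) ^ 2) ≤ C * W * (12 * (x / R ^ 2)) := by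
        calc C * W * (3 * x) * (1 / (R' : ℝ) ^ 2) ≤ C * W * (3 * x) * (4 * (1 / R ^ 2)) := by
              gcongr
          _ = _ := by ring
      have e2 : C * W * (12 * (x / R ^ 2)) + C * W + 2 * (C * W) * L ≤
          C * W * (12 * (L * (x / R ^ 2 + 1))) := by
        have e3 : 12 * (x / R ^ 2) + 1 + 2 * L ≤ 12 * (L * (x / R ^ 2 + 1)) := by
          have : 0 ≤ x / R ^ 2 := by positivity
          nlinarith
        have e4 := mul_le_mul_of_nonneg_left e3 (show 0 ≤ C * W by positivity)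
        linarith
      linarith
    calc L ^ 2 * ∑ r ∈ Ioc R' ⌊D⌋₊, T r / (r : ℝ) ^ 2
        ≤ L ^ 2 * (C * W * (12 * (L * (x / R ^ 2 + 1)))) := by gcongr
      _ ≤ L ^ 2 * (C * (3 * (x * (1 + Real.log x) ^ 2)) * (12 * (L * (x / R ^ 2 + 1)))) := by
          gcongr
      _ = _ := by ring

theorem hMin (h1 : StDual) (h2 : Pool.Agent.Helper15.AB.StAL)
    (h3 : Pool.Agent.Helper23.GK.StRam) : StMin := by
  obtain ⟨C₁, hC₁, hD1⟩ := h1
  obtain ⟨C₂, hC₂, hcs⟩ := cc_sum_L6 h2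
  refine ⟨C₁ * C₂, by positivity, fun ω hω x D R ξ M H hξ hx hR hD => ?_⟩
  have hlD : 0 ≤ Real.log D := Real.log_nonneg hD
  have hlx : 0 ≤ Real.log x := Real.log_nonneg hx
  have a1 := hD1 ⌊D⌋₊ H M (cc_L6 ω x D R ξ)
  have a2 := hcs ω hω x D R ξ hξ hx hR hD
  have a3 : ∑ N ∈ Ioc M (M + H), (∑ r ∈ (Icc 1 ⌊D⌋₊).filter (fun r : ℕ => R < r),
      gg D ξ r * Sr ω x N r) ^ 2 =
      ∑ n ∈ Ioc M (M + H), ‖∑ r ∈ Icc 1 ⌊D⌋₊, ∑ b ∈ (range r).filter (fun b => Nat.Coprime b r),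
        cc_L6 ω x D R ξ r b * ee (n * (b / r))‖ ^ 2 := by
    refine sum_congr rfl fun N _ => ?_
    rw [← sum_eq_L6 h3, Complex.norm_real, Real.norm_eq_abs, sq_abs]
  rw [a3]
  refine a1.trans ?_
  have h4 : ((⌊D⌋₊ : ℕ) : ℝ) ≤ D := Nat.floor_le (by linarith)
  have h5 : ((⌊D⌋₊ : ℕ) : ℝ) ^ 2 ≤ D ^ 2 := pow_le_pow_left₀ (Nat.cast_nonneg _) h4 2
  have h6 : C₁ * ((H : ℝ) + ((⌊D⌋₊ : ℕ) : ℝ) ^ 2) ≤ C₁ * (H + D ^ 2) :=
    mul_le_mul_of_nonneg_left (by linarith) hC₁.le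
  have h7 := mul_le_mul h6 a2 (sum_nonneg fun r _ => sum_nonneg fun b _ => by positivity)
    (by positivity)
  refine h7.trans (le_of_eq ?_)
  ring

end Pool.Agent.Helper60.PT
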