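import Pool.Agent.Helper60.PT.St

/-! Project PT (MP_b454d1_nt), module L7 -/

set_option autoImplicit false

namespace Pool.Agent.Helper60.PT

open Finset ArithmeticFunction
open Pool.Agent.Helper60.GP (PP VV rg IsB JJ II Err an T0 Tq SS)
open Pool.Agent.Helper15.AB (Th ee)
open Pool.Agent.Helper23.GK (cR)

theorem ev_L7 (K s : ℝ) (k : ℕ) (hs : 0 < s) :
    ∀ᶠ Y : ℝ in Filter.atTop, K * Real.log Y ^ k ≤ Y ^ s := by
  have h := isLittleO_log_rpow_rpow_atTop (k : ℝ) hs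
  have h2 := h.bound (show (0 : ℝ) < 1 / (|K| + 1) by positivity)
  filter_upwards [h2, Filter.eventually_ge_atTop (1 : ℝ)] with Y hY hY1
  have hl : 0 ≤ Real.log Y := Real.log_nonneg hY1
  have hY0 : 0 < Y := by linarith
  rw [Real.rpow_natCast, Real.norm_of_nonneg (by positivity), Real.norm_of_nonneg (by positivity),
    div_mul_eq_mul_div, one_mul, le_div_iff₀ (by positivity)] at hY
  have hk : 0 ≤ Real.log Y ^ k := by positivity
  have : K ≤ |K| := le_abs_self K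
  nlinarith

theorem evs_L7 (a : ℝ) (ha : 0 < a) (K s : ℝ) (k : ℕ) (hs : 0 < s) : ∃ Y₀ : ℝ, ∀ Y : ℝ, Y₀ ≤ Y →
    1 ≤ Y ∧ 1 ≤ Real.log Y ∧ 1 ≤ a * √Y ∧ a ≤ √Y ∧ K * Real.log Y ^ k ≤ Y ^ s := by
  have h1 := ev_L7 K s k hs
  have h2 : ∀ᶠ Y : ℝ in Filter.atTop, 1 ≤ Real.log Y := Real.tendsto_log_atTop.eventually_ge_atTop 1
  have h3 : ∀ᶠ Y : ℝ in Filter.atTop, 1 / a ≤ √Y := Real.tendsto_sqrt_atTop.eventually_ge_atTop _
  have h4 : ∀ᶠ Y : ℝ in Filter.atTop, a ≤ √Y := Real.tendsto_sqrt_atTop.eventually_ge_atTop _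
  have h5 := ((h1.and h2).and (h3.and h4)).and (Filter.eventually_ge_atTop (1 : ℝ))
  obtain ⟨Y₀, hY₀⟩ := Filter.eventually_atTop.1 h5
  refine ⟨Y₀, fun Y hY => ?_⟩
  obtain ⟨⟨⟨a1, a2⟩, a3, a4⟩, a5⟩ := hY₀ Y hY
  refine ⟨a5, a2, ?_, a4, a1⟩
  rw [div_le_iff₀ ha] at a3
  linarith

/-- the size of the bound from `StMin` -/
theorem size_L7 {a lev δ' μ Y : ℝ} (ha : 0 < a) (hlev : 0 < lev) (hδ' : 0 < δ')
    (hμ1 : 1 ≤ μ) (hμ2 : 2 * lev ≤ μ) (hY : 1 ≤ Y) (hL : 1 ≤ Real.log Y) (hx : 1 ≤ a * √Y)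
    (haY : a ≤ √Y) {C H : ℝ} (hC : 0 < C) (hH0 : 0 ≤ H) (hH : H ≤ 2 * Y) :
    C * (H + (Y ^ lev) ^ 2) * (1 + Real.log (Y ^ lev)) ^ 3 *
      (a * √Y / ((a * √Y) ^ (1 / 2 - δ')) ^ 2 + 1) * (a * √Y * (1 + Real.log (a * √Y)) ^ 2) ≤
    (24 * C * (1 + lev) ^ 3 * a ^ (2 * δ') * a) * (Y ^ (μ + δ' + 1 / 2) * Real.log Y ^ 5) := by
  have hY0 : 0 < Y := by linarith
  have hx0 : 0 < a * √Y := by linarith
  set x : ℝ := a * √Y with hxdef
  set L : ℝ := Real.log Y with hLdef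
  have b1 : H + (Y ^ lev) ^ 2 ≤ 3 * Y ^ μ := by
    have e1 : (Y ^ lev) ^ 2 = Y ^ (2 * lev) := by
      rw [← Real.rpow_natCast, ← Real.rpow_mul hY0.le]
      congr 1
      push_cast
      ring
    have e2 : Y ^ (2 * lev) ≤ Y ^ μ := Real.rpow_le_rpow_of_exponent_le hY hμ2
    have e3 : Y ≤ Y ^ μ := by
      have := Real.rpow_le_rpow_of_exponent_le hY hμ1
      rwa [Real.rpow_one] at this
    rw [e1]
    linarith
  have b2 : 1 + Real.log (Y ^ lev) ≤ (1 + lev) * L := by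
    rw [Real.log_rpow hY0]
    nlinarith
  have b2' : 0 ≤ 1 + Real.log (Y ^ lev) := by
    rw [Real.log_rpow hY0]
    have : 0 ≤ lev * Real.log Y := mul_nonneg hlev.le (by linarith)
    linarith
  have b3 : x / (x ^ (1 / 2 - δ')) ^ 2 + 1 ≤ 2 * (a ^ (2 * δ') * Y ^ δ') := by
    have e1 : x / (x ^ (1 / 2 - δ')) ^ 2 = x ^ (2 * δ') := by
      rw [← Real.rpow_natCast, ← Real.rpow_mul hx0.le]
      have e : (1 / 2 - δ') * ((2 : ℕ) : ℝ) = 1 - 2 * δ' := by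
        push_cast
        ring
      rw [e, Real.rpow_sub hx0, Real.rpow_one]
      field_simp
    have e2 : x ^ (2 * δ') = a ^ (2 * δ') * Y ^ δ' := by
      rw [hxdef, Real.mul_rpow ha.le (Real.sqrt_nonneg _), Real.sqrt_eq_rpow,
        ← Real.rpow_mul hY0.le]
      congr 2
      ring
    have e3 : 1 ≤ x ^ (2 * δ') := Real.one_le_rpow hx (by positivity)
    rw [e1]
    rw [← e2]
    linarith
  have b4 : 1 + Real.log x ≤ 2 * L := by
    have : x ≤ Y := by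
      calc x = a * √Y := hxdef
        _ ≤ √Y * √Y := mul_le_mul_of_nonneg_right haY (Real.sqrt_nonneg _)
        _ = Y := Real.mul_self_sqrt hY0.le
    have := Real.log_le_log hx0 this
    linarith
  have b4' : 0 ≤ 1 + Real.log x := by
    have := Real.log_nonneg hx
    linarith
  have b5 : x = a * Y ^ ((1 : ℝ) / 2) := by
    rw [hxdef, Real.sqrt_eq_rpow]
  have b6 : x * (1 + Real.log x) ^ 2 ≤ a * Y ^ ((1 : ℝ) / 2) * (2 * L) ^ 2 := by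
    rw [← b5]
    exact mul_le_mul_of_nonneg_left (pow_le_pow_left₀ b4' b4 2) hx0.le
  have b7 : Y ^ (μ + δ' + 1 / 2) = Y ^ μ * Y ^ δ' * Y ^ ((1 : ℝ) / 2) := by
    rw [Real.rpow_add hY0, Real.rpow_add hY0]
  have c1 : C * (H + (Y ^ lev) ^ 2) ≤ C * (3 * Y ^ μ) := mul_le_mul_of_nonneg_left b1 hC.le
  have c2 : C * (H + (Y ^ lev) ^ 2) * (1 + Real.log (Y ^ lev)) ^ 3 ≤
      C * (3 * Y ^ μ) * ((1 + lev) * L) ^ 3 :=
    mul_le_mul c1 (pow_le_pow_left₀ b2' b2 3) (by positivity) (by positivity)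
  have c3 : C * (H + (Y ^ lev) ^ 2) * (1 + Real.log (Y ^ lev)) ^ 3 *
      (x / (x ^ (1 / 2 - δ')) ^ 2 + 1) ≤
      C * (3 * Y ^ μ) * ((1 + lev) * L) ^ 3 * (2 * (a ^ (2 * δ') * Y ^ δ')) :=
    mul_le_mul c2 b3 (by positivity) (by positivity)
  have c4 : C * (H + (Y ^ lev) ^ 2) * (1 + Real.log (Y ^ lev)) ^ 3 *
      (x / (x ^ (1 / 2 - δ')) ^ 2 + 1) * (x * (1 + Real.log x) ^ 2) ≤
      C * (3 * Y ^ μ) * ((1 + lev) * L) ^ 3 * (2 * (a ^ (2 * δ') * Y ^ δ')) *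
        (a * Y ^ ((1 : ℝ) / 2) * (2 * L) ^ 2) :=
    mul_le_mul c3 b6 (by positivity) (by positivity)
  refine c4.trans (le_of_eq ?_)
  rw [b7]
  ring

/-- Chebyshev's inequality -/
theorem cheb_L7 (f : ℕ → ℝ) (t : ℝ) (ht : 0 < t) (H : ℕ) (B : ℝ)
    (h : ∑ N ∈ Ioc 0 (0 + H), f N ^ 2 ≤ B) :
    (((Ioc 0 (0 + H)).filter (fun N => t < |f N|)).card : ℝ) * t ^ 2 ≤ B := by
  refine le_trans ?_ h
  refine le_trans ?_ (sum_le_sum_of_subset_of_nonneg (filter_subset (fun N => t < |f N|) _)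
    fun N _ _ => sq_nonneg _)
  rw [← nsmul_eq_mul, ← sum_const]
  refine sum_le_sum fun N hN => ?_
  have := (mem_filter.1 hN).2
  rw [← sq_abs (f N)]
  exact pow_le_pow_left₀ ht.le this.le 2

theorem hExc (h1 : StMin) : StExc := by
  intro ω hω a lev η ha hlev hη1 hη2
  obtain ⟨C, hC, hm⟩ := h1
  set μ : ℝ := max 1 (2 * lev) with hμ
  have hμ1 : 1 ≤ μ := le_max_left _ _
  have hμ2 : 2 * lev ≤ μ := le_max_right _ _
  set δ : ℝ := η - (μ - 1 / 2) with hδ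
  have hδ0 : 0 < δ := by
    rw [hδ, hμ]
    rcases le_total 1 (2 * lev) with h | h
    · rw [max_eq_right h]
      linarith
    · rw [max_eq_left h]
      linarith
  set δ' : ℝ := min (δ / 2) (1 / 4) with hδ'
  have hδ'0 : 0 < δ' := by
    rw [hδ']
    exact lt_min (by linarith) (by norm_num)
  have hδ'1 : δ' ≤ 1 / 4 := min_le_right _ _
  have hδ'2 : δ' ≤ δ / 2 := min_le_left _ _
  refine ⟨1 / 2 - δ', by linarith, by linarith, fun A => ?_⟩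
  obtain ⟨Y₀, hY₀⟩ := evs_L7 a ha (24 * C * (1 + lev) ^ 3 * a ^ (2 * δ') * a) (δ / 2) (5 + 2 * A)
    (by linarith)
  refine ⟨Y₀, fun Y hY ξ hξ => ?_⟩
  obtain ⟨hY1, hL, hx, haY, hK⟩ := hY₀ Y hY
  have hY0 : 0 < Y := by linarith
  have hx0 : 0 < a * √Y := by linarith
  set f : ℕ → ℝ := fun N => ∑ r ∈ (Icc 1 ⌊Y ^ lev⌋₊).filter
    (fun r : ℕ => (a * √Y) ^ (1 / 2 - δ') < r), gg (Y ^ lev) ξ r * Sr ω (a * √Y) N r with hf
  have hmin := hm ω hω (a * √Y) (Y ^ lev) ((a * √Y) ^ (1 / 2 - δ')) ξ 0 ⌊2 * Y⌋₊ hξ hx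
    (Real.one_le_rpow hx (by linarith)) (Real.one_le_rpow hY1 hlev.le)
  have hfl : ((⌊2 * Y⌋₊ : ℕ) : ℝ) ≤ 2 * Y := Nat.floor_le (by positivity)
  have hsize := size_L7 ha hlev hδ'0 hμ1 hμ2 hY1 hL hx haY hC (Nat.cast_nonneg ⌊2 * Y⌋₊) hfl
  have hL0 : 0 < Real.log Y := by linarith
  have hsY : 0 < √Y := Real.sqrt_pos.2 hY0
  have ht : 0 < √Y / Real.log Y ^ A := by positivity
  have hch := cheb_L7 f _ ht ⌊2 * Y⌋₊ _ (hmin.trans hsize)
  refine ⟨(Ioc 0 (0 + ⌊2 * Y⌋₊)).filter (fun N => √Y / Real.log Y ^ A < |f N|), ?_, ?_⟩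
  · set c : ℝ := (((Ioc 0 (0 + ⌊2 * Y⌋₊)).filter (fun N => √Y / Real.log Y ^ A < |f N|)).card : ℝ)
      with hc
    have e1 : (√Y / Real.log Y ^ A) ^ 2 = Y / Real.log Y ^ (2 * A) := by
      rw [div_pow, Real.sq_sqrt hY0.le, ← pow_mul, mul_comm A 2]
    rw [e1] at hch
    set K : ℝ := 24 * C * (1 + lev) ^ 3 * a ^ (2 * δ') * a with hKdef
    have e2 : c ≤ K * (Y ^ (μ + δ' + 1 / 2) * Real.log Y ^ 5) * Real.log Y ^ (2 * A) / Y := by
      rw [le_div_iff₀ hY0]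
      have hp : 0 < Real.log Y ^ (2 * A) := by positivity
      have := mul_le_mul_of_nonneg_right hch hp.le
      have e : c * (Y / Real.log Y ^ (2 * A)) * Real.log Y ^ (2 * A) = c * Y := by
        field_simp
      rwa [e] at this
    have e3 : Y ^ (μ + δ' + 1 / 2) = Y ^ (μ + δ' - 1 / 2) * Y := by
      rw [← Real.rpow_add_one hY0.ne']
      congr 1
      ring
    have e4 : K * (Y ^ (μ + δ' + 1 / 2) * Real.log Y ^ 5) * Real.log Y ^ (2 * A) / Y =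
        Y ^ (μ + δ' - 1 / 2) * (K * Real.log Y ^ (5 + 2 * A)) := by
      rw [e3, pow_add]
      field_simp
    rw [e4] at e2
    refine e2.trans ?_
    have e5 : Y ^ (μ + δ' - 1 / 2) * (K * Real.log Y ^ (5 + 2 * A)) ≤
        Y ^ (μ + δ' - 1 / 2) * Y ^ (δ / 2) := mul_le_mul_of_nonneg_left hK (by positivity)
    refine e5.trans ?_
    rw [← Real.rpow_add hY0]
    apply Real.rpow_le_rpow_of_exponent_le hY1
    linarith
  · intro N hN1 hN2 hNE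
    by_contra hcon
    push Not at hcon
    apply hNE
    rw [mem_filter, mem_Ioc]
    refine ⟨⟨?_, ?_⟩, hcon⟩
    · have : (0 : ℝ) < N := by linarith
      exact_mod_cast this
    · rw [zero_add]
      exact Nat.le_floor hN2

end Pool.Agent.Helper60.PT
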