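import Pool.Agent.Helper60.PT.St
import Pool.Agent.Helper60.GP.M_E03

/-! Project PT (MP_b454d1_nt), module L8 -/

set_option autoImplicit false

namespace Pool.Agent.Helper60.PT

open Finset ArithmeticFunction
open Pool.Agent.Helper60.GP (PP VV rg IsB JJ II Err an T0 Tq SS)
open Pool.Agent.Helper15.AB (Th ee)
open Pool.Agent.Helper23.GK (cR)
open Pool.Agent.Helper60.GP.GPE03

theorem hNPY : StNPY := by
  intro ω hω α hα
  set K : ℝ := 10 * (3 * α) ^ (7 / 10 : ℝ) + 10 with hK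
  have hK0 : 0 < K := by positivity
  refine ⟨K ^ 10 + 1, fun Y hY N hN hN2 => ?_⟩
  have hKp : 0 < K ^ 10 := by positivity
  have hY1 : (1 : ℝ) ≤ Y := by linarith
  have hY0 : (0 : ℝ) < Y := by linarith
  have hNr1 : (1 : ℝ) ≤ N := by linarith
  have hN1 : 1 ≤ N := by exact_mod_cast hNr1
  have hNr : (0 : ℝ) < N := by exact_mod_cast hN1
  have hKN : K ^ 10 ≤ Y := by linarith
  set x : ℝ := α * √Y with hx
  have hx0 : 0 < x := by positivity
  have hle : ∀ n ∈ II x, wn ω x n - an ω x N n ≤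
      (if ¬ n.Prime then Λ n else 0) + (if n.Prime ∧ n ∣ N then Real.log n else 0) := by
    intro n _
    have hw1 : ω (Real.log (n / x)) ≤ 1 := (hω.le_half _).trans (by norm_num)
    have hΛ : 0 ≤ Λ n := vonMangoldt_nonneg
    have h1 : Λ n * ω (Real.log (n / x)) ≤ Λ n := mul_le_of_le_one_right hΛ hw1
    unfold wn an
    by_cases hp : n.Prime
    · by_cases hd : n ∣ N
      · rw [if_neg (fun h => h.2 hd), if_neg (not_not.2 hp), if_pos ⟨hp, hd⟩, sub_zero, zero_add]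
        rwa [vonMangoldt_apply_prime hp] at h1 ⊢
      · rw [if_pos ⟨hp, hd⟩, if_neg (not_not.2 hp), if_neg (fun h => hd h.2), sub_self, add_zero]
    · rw [if_neg (fun h => hp h.1), if_pos hp, if_neg (fun h => hp h.1), sub_zero, add_zero]
      exact h1
  refine (sum_le_sum hle).trans ?_
  rw [sum_add_distrib]
  have h1 : ∑ n ∈ II x, (if ¬ n.Prime then Λ n else 0) ≤ 10 * (3 * x) ^ (7 / 10 : ℝ) :=
    powers (3 * x) (by positivity)
  have h2 := primes_dvd N hN1 (II x)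
  have h3 := log_le N hNr
  have h3' : (N : ℝ) ^ (1 / 5 : ℝ) ≤ 2 * Y ^ (1 / 5 : ℝ) := by
    refine (Real.rpow_le_rpow hNr.le hN2 (by norm_num)).trans ?_
    rw [Real.mul_rpow (by norm_num) hY0.le]
    refine mul_le_mul_of_nonneg_right ?_ (Real.rpow_nonneg hY0.le _)
    calc (2 : ℝ) ^ (1 / 5 : ℝ) ≤ (2 : ℝ) ^ (1 : ℝ) :=
          Real.rpow_le_rpow_of_exponent_le (by norm_num) (by norm_num)
      _ = 2 := Real.rpow_one 2
  have e1 : (3 * x) ^ (7 / 10 : ℝ) = (3 * α) ^ (7 / 10 : ℝ) * Y ^ (7 / 20 : ℝ) := by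
    rw [hx, Real.sqrt_eq_rpow, ← mul_assoc, Real.mul_rpow (by positivity) (by positivity),
      ← Real.rpow_mul hY0.le]
    norm_num
  have h4 : Y ^ (1 / 5 : ℝ) ≤ Y ^ (7 / 20 : ℝ) :=
    Real.rpow_le_rpow_of_exponent_le hY1 (by norm_num)
  have h5 : K ≤ Y ^ (1 / 10 : ℝ) := by
    calc K = (K ^ 10) ^ (1 / 10 : ℝ) := by
          rw [← Real.rpow_natCast, ← Real.rpow_mul hK0.le]
          norm_num
      _ ≤ _ := Real.rpow_le_rpow (by positivity) hKN (by norm_num)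
  have h6 : Y ^ ((9 : ℝ) / 20) = Y ^ (1 / 10 : ℝ) * Y ^ (7 / 20 : ℝ) := by
    rw [← Real.rpow_add hY0]
    norm_num
  have h7 : 0 < Y ^ (7 / 20 : ℝ) := Real.rpow_pos_of_pos hY0 _
  rw [e1] at h1
  have h8 : K * Y ^ (7 / 20 : ℝ) ≤ Y ^ ((9 : ℝ) / 20) := by
    rw [h6]
    exact mul_le_mul_of_nonneg_right h5 h7.le
  have h9 : K * Y ^ (7 / 20 : ℝ) = 10 * ((3 * α) ^ (7 / 10 : ℝ) * Y ^ (7 / 20 : ℝ)) +
      10 * Y ^ (7 / 20 : ℝ) := by
    rw [hK]; ring
  linarith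

end Pool.Agent.Helper60.PT
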