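import Pool.Agent.Helper60.PT.St

/-! Project PT (MP_b454d1_nt), module L9 -/

set_option autoImplicit false

namespace Pool.Agent.Helper60.PT

open Finset ArithmeticFunction
open Pool.Agent.Helper60.GP (PP VV rg IsB JJ II Err an T0 Tq SS)
open Pool.Agent.Helper15.AB (Th ee)
open Pool.Agent.Helper23.GK (cR)

private theorem evlog_L9 (K : ℝ) : ∀ᶠ Y : ℝ in Filter.atTop, K ≤ Real.log Y :=
  Real.tendsto_log_atTop.eventually_ge_atTop K

private theorem evpow_L9 (C : ℝ) (k : ℕ) (c : ℝ) (hc : 0 < c) :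
    ∀ᶠ Y : ℝ in Filter.atTop, C * Real.log Y ^ k ≤ Y ^ c := by
  have h1 := (isLittleO_log_rpow_rpow_atTop (k : ℝ) hc).bound
    (show (0 : ℝ) < (|C| + 1)⁻¹ by positivity)
  filter_upwards [h1, evlog_L9 0, Filter.eventually_ge_atTop 0] with Y hY hl hY0
  rw [Real.rpow_natCast, Real.norm_of_nonneg (by positivity),
    Real.norm_of_nonneg (Real.rpow_nonneg hY0 _)] at hY
  have h2 : 0 < |C| + 1 := by positivity
  calc C * Real.log Y ^ k ≤ (|C| + 1) * Real.log Y ^ k := by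
        refine mul_le_mul_of_nonneg_right ?_ (by positivity)
        linarith [le_abs_self C]
    _ ≤ (|C| + 1) * ((|C| + 1)⁻¹ * Y ^ c) := mul_le_mul_of_nonneg_left hY h2.le
    _ = Y ^ c := by rw [← mul_assoc, mul_inv_cancel₀ h2.ne', one_mul]

private theorem wn_nonneg_L9 {ω : ℝ → ℝ} (hω : IsB ω) (x : ℝ) (n : ℕ) : 0 ≤ wn ω x n :=
  mul_nonneg vonMangoldt_nonneg (hω.nonneg _)

private theorem an_le_L9 {ω : ℝ → ℝ} (hω : IsB ω) (x : ℝ) (N n : ℕ) : an ω x N n ≤ wn ω x n := by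
  unfold an
  split_ifs
  · exact le_rfl
  · exact wn_nonneg_L9 hω x n

private theorem an_zero_L9 (ω : ℝ → ℝ) (x : ℝ) (N n : ℕ) (h : ¬ Nat.Coprime n N) :
    an ω x N n = 0 := by
  unfold an
  rw [if_neg]
  rintro ⟨h1, h2⟩
  exact h ((Nat.Prime.coprime_iff_not_dvd h1).2 h2)

private theorem Th_le_L9 {ω : ℝ → ℝ} (hω : IsB ω) (x : ℝ) (hx : 1 ≤ 3 * x) :
    |Th ω x| ≤ 3 * x * Real.log (3 * x) := by
  unfold Pool.Agent.Helper15.AB.Th
  have hl : 0 ≤ Real.log (3 * x) := Real.log_nonneg hx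
  rw [abs_of_nonneg (Finset.sum_nonneg fun n _ => mul_nonneg vonMangoldt_nonneg (hω.nonneg _))]
  calc ∑ n ∈ Icc 1 ⌊3 * x⌋₊, Λ n * ω (Real.log (n / x))
      ≤ ∑ n ∈ Icc 1 ⌊3 * x⌋₊, Real.log (3 * x) := by
        refine Finset.sum_le_sum fun n hn => ?_
        obtain ⟨hn1, hn2⟩ := Finset.mem_Icc.1 hn
        have h1 : (n : ℝ) ≤ 3 * x := (Nat.le_floor_iff (by linarith)).1 hn2
        have h2 : Λ n ≤ Real.log (3 * x) :=
          vonMangoldt_le_log.trans (Real.log_le_log (by exact_mod_cast hn1) h1)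
        have h3 := hω.le_half (Real.log (n / x))
        have h4 := hω.nonneg (Real.log (n / x))
        calc Λ n * ω (Real.log (n / x)) ≤ Real.log (3 * x) * 1 :=
              mul_le_mul h2 (by linarith) h4 hl
          _ = Real.log (3 * x) := mul_one _
    _ = (⌊3 * x⌋₊ : ℝ) * Real.log (3 * x) := by
        rw [Finset.sum_const, nsmul_eq_mul, Nat.card_Icc, Nat.add_sub_cancel]
    _ ≤ 3 * x * Real.log (3 * x) :=
        mul_le_mul_of_nonneg_right (Nat.floor_le (by linarith)) hl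

private theorem alg1_L9 (l a s f L : ℝ) (A : ℕ) (hL : 0 < L) :
    ((1 + l) ^ 2 * L ^ 2) * (a * s * f / L ^ (A + 3)) =
      (s / L ^ A) * (((1 + l) ^ 2 * a * f) / L) := by
  field_simp
  ring

private theorem alg2_L9 (l c t y z L : ℝ) (A : ℕ) (hL : 0 < L) :
    ((1 + l) ^ 2 * L ^ 2) * (c * (t * y) * z) =
      (y * z) * (4 * ((1 + l) ^ 2 * (c * t)) * L ^ (A + 2)) / (4 * L ^ A) := by
  field_simp
  ring

private theorem alg3_L9 (a s L c l c9 t y b w : ℝ) (A : ℕ) (hL : 0 < L) (hb : 0 < b)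
    (hy : 0 < y) (hw : 0 < w) :
    (3 * (a * s) * L) * (c * ((1 + l) ^ 2 * L ^ 2) * (c9 * (t * y)) / (b * (y * w))) =
      s * ((4 * (3 * a * (c * (1 + l) ^ 2) * (c9 * t) / b)) * L ^ (A + 3)) /
        (4 * L ^ A * w) := by
  field_simp
  ring

theorem hLD (h1 : StId) (h2 : StIh) (h3 : StTail) (h4 : StMaj) (h5 : StExc) (h6 : StNPY)
    (h7 : Pool.Agent.Helper60.GP.StBVc) (h8 : Pool.Agent.Helper15.AB.StDB) : StLD := by
  intro ω hω a lev η ha hlev hη hη2 A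
  obtain ⟨θ, hθ0, hθ1, hE⟩ := h5 ω hω a lev η ha hlev hη hη2
  obtain ⟨Y5, hY5⟩ := hE (A + 1)
  obtain ⟨C3, hC3, hT⟩ := h3
  obtain ⟨Y6, hY6⟩ := h6 ω hω a ha
  obtain ⟨x7, hx7⟩ := h7 ω hω (A + 3) θ hθ1
  obtain ⟨C8, hC8, hD8⟩ := h8 (1 / 80) (by norm_num)
  obtain ⟨C9, hC9, hD9⟩ := h8 (θ / 100) (by positivity)
  have htx : Filter.Tendsto (fun Y : ℝ => a * √Y) Filter.atTop Filter.atTop :=
    Filter.Tendsto.const_mul_atTop ha Real.tendsto_sqrt_atTop
  have e0 := Filter.eventually_ge_atTop (max (max Y5 Y6) 1)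
  have e1 := htx.eventually (Filter.eventually_ge_atTop (max x7 1))
  have e2 := Real.tendsto_sqrt_atTop.eventually (Filter.eventually_ge_atTop (3 * a + 1))
  have e3 := evlog_L9 (max (max 4 (4 * |Real.log a|)) (max (2 * Real.log (3 * a))
    (4 * ((1 + lev) ^ 2 * a * 4 ^ (A + 3)))))
  have e4 := evpow_L9 (4 * ((1 + lev) ^ 2 * (C8 * (2 : ℝ) ^ ((1 : ℝ) / 80)))) (A + 2) (3 / 80)
    (by norm_num)
  have e5 := evpow_L9 (4 * (3 * a * (C3 * (1 + lev) ^ 2) * (C9 * (2 : ℝ) ^ (θ / 100)) / a ^ θ))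
    (A + 3) (49 * θ / 100) (by positivity)
  obtain ⟨Y₀, hY₀⟩ := Filter.eventually_atTop.1 (e0.and (e1.and (e2.and (e3.and (e4.and e5)))))
  refine ⟨Y₀, fun Y hY ξ hξ => ?_⟩
  obtain ⟨f0, f1, f2, f3, f4, f5⟩ := hY₀ Y hY
  have g1 : Y5 ≤ Y := (le_max_left _ _).trans ((le_max_left _ _).trans f0)
  have g2 : Y6 ≤ Y := (le_max_right _ _).trans ((le_max_left _ _).trans f0)
  have g3 : 1 ≤ Y := (le_max_right _ _).trans f0
  have hY0 : 0 < Y := by linarith
  obtain ⟨E, hEc, hEN⟩ := hY5 Y g1 ξ hξ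
  refine ⟨E, hEc, fun N hN1 hN2 hNE => ?_⟩
  set x := a * √Y with hx
  set L := Real.log Y with hL
  have hsq : √Y * √Y = Y := Real.mul_self_sqrt hY0.le
  have hsq0 : 0 < √Y := Real.sqrt_pos.2 hY0
  have hx7' : x7 ≤ x := (le_max_left _ _).trans f1
  have hx1 : 1 ≤ x := (le_max_right _ _).trans f1
  have hx0 : 0 ≤ x := by linarith
  have hxN : 3 * x < N := by
    have : 3 * x < Y := by
      rw [hx]
      nlinarith
    linarith
  have hL4 : 4 ≤ L := (le_max_left _ _).trans ((le_max_left _ _).trans f3)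
  have hLa : 4 * |Real.log a| ≤ L := (le_max_right _ _).trans ((le_max_left _ _).trans f3)
  have hL3 : 2 * Real.log (3 * a) ≤ L := (le_max_left _ _).trans ((le_max_right _ _).trans f3)
  have hL5 : 4 * ((1 + lev) ^ 2 * a * 4 ^ (A + 3)) ≤ L :=
    (le_max_right _ _).trans ((le_max_right _ _).trans f3)
  have hL0 : 0 < L := by linarith
  have hlogs : Real.log √Y = L / 2 := Real.log_sqrt hY0.le
  have hlogx : Real.log x = Real.log a + L / 2 := by
    rw [hx, Real.log_mul ha.ne' hsq0.ne', hlogs]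
  have hlogx4 : L / 4 ≤ Real.log x := by
    have := neg_abs_le (Real.log a)
    rw [hlogx]
    linarith
  have hlog3x : Real.log (3 * x) ≤ L := by
    rw [hx, ← mul_assoc, Real.log_mul (by positivity) hsq0.ne', hlogs]
    linarith
  have hD1 : (1 : ℝ) ≤ Y ^ lev := Real.one_le_rpow g3 hlev.le
  have hlogD : 1 + Real.log (Y ^ lev) ≤ (1 + lev) * L := by
    rw [Real.log_rpow hY0]
    nlinarith
  have hlogD0 : 0 ≤ 1 + Real.log (Y ^ lev) := by
    have := Real.log_nonneg hD1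
    linarith
  have hlogD2 : (1 + Real.log (Y ^ lev)) ^ 2 ≤ (1 + lev) ^ 2 * L ^ 2 := by
    rw [← mul_pow]
    exact pow_le_pow_left₀ hlogD0 hlogD 2
  have hN1' : 1 ≤ N := by
    have : (1 : ℝ) ≤ N := g3.trans hN1
    exact_mod_cast this
  have hLA : 0 < L ^ A := by positivity
  -- the identity
  rw [h1 ω x (Y ^ lev) N ξ hξ hx0 hxN, ← h2 (Y ^ lev) N ξ]
  have hsplit : ∀ F : ℕ → ℝ, ∑ r ∈ Icc 1 ⌊Y ^ lev⌋₊, F r =
      ∑ r ∈ (Icc 1 ⌊Y ^ lev⌋₊).filter (fun r : ℕ => (r : ℝ) ≤ x ^ θ), F r +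
      ∑ r ∈ (Icc 1 ⌊Y ^ lev⌋₊).filter (fun r : ℕ => x ^ θ < r), F r := by
    intro F
    rw [← Finset.sum_filter_add_sum_filter_not (Icc 1 ⌊Y ^ lev⌋₊)
      (fun r : ℕ => (r : ℝ) ≤ x ^ θ)]
    congr 1
    refine Finset.sum_congr (Finset.filter_congr fun r _ => not_le) fun _ _ => rfl
  rw [hsplit, hsplit (fun r => gg (Y ^ lev) ξ r * hh N r)]
  -- first term
  have t1a : ∑ e ∈ (Icc 1 ⌊x ^ θ⌋₊).filter (fun e => Nat.Coprime e N), Err ω x e N ≤
      x / Real.log x ^ (A + 3) := by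
    have hb := hx7 x hx7' (fun q => if Nat.Coprime q N then (N : ℤ) else 1) (by
      intro q _
      show IsCoprime (if Nat.Coprime q N then (N : ℤ) else 1) (q : ℤ)
      by_cases hq : Nat.Coprime q N
      · rw [if_pos hq]
        exact (Nat.isCoprime_iff_coprime.2 hq).symm
      · rw [if_neg hq]
        exact isCoprime_one_left)
    refine le_trans ?_ hb
    refine le_trans (le_of_eq ?_) (Finset.sum_le_sum_of_subset_of_nonneg
      (Finset.filter_subset (fun e => Nat.Coprime e N) _) fun e _ _ => abs_nonneg _)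
    refine Finset.sum_congr rfl fun e he => ?_
    have he' := (Finset.mem_filter.1 he).2
    show Err ω x e N = Err ω x e (if Nat.Coprime e N then (N : ℤ) else 1)
    rw [if_pos he']
  have t1b : ∑ n ∈ (II x).filter (fun n => ¬ Nat.Coprime n N),
      wn ω x n * ((N - n).divisors.card : ℝ) ≤
      C8 * (2 * Y) ^ ((1 : ℝ) / 80) * Y ^ ((9 : ℝ) / 20) := by
    have hq0 : 0 ≤ C8 * (2 * Y) ^ ((1 : ℝ) / 80) := by positivity
    calc ∑ n ∈ (II x).filter (fun n => ¬ Nat.Coprime n N),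
          wn ω x n * ((N - n).divisors.card : ℝ)
        ≤ ∑ n ∈ (II x).filter (fun n => ¬ Nat.Coprime n N),
          C8 * (2 * Y) ^ ((1 : ℝ) / 80) * (wn ω x n - an ω x N n) := by
          refine Finset.sum_le_sum fun n hn => ?_
          obtain ⟨hn1, hn2⟩ := Finset.mem_filter.1 hn
          obtain ⟨hn3, hn4⟩ := Finset.mem_Icc.1 hn1
          have hn5 : (n : ℝ) ≤ 3 * x := (Nat.le_floor_iff (by linarith)).1 hn4
          have hn6 : n < N := by
            have : (n : ℝ) < N := by linarith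
            exact_mod_cast this
          rw [an_zero_L9 ω x N n hn2, sub_zero, mul_comm]
          refine mul_le_mul_of_nonneg_right ?_ (wn_nonneg_L9 hω x n)
          refine (hD8 (N - n) (by omega)).trans ?_
          refine mul_le_mul_of_nonneg_left ?_ (by linarith)
          refine Real.rpow_le_rpow (Nat.cast_nonneg _) ?_ (by norm_num)
          have : ((N - n : ℕ) : ℝ) ≤ N := by exact_mod_cast Nat.sub_le N n
          linarith
      _ ≤ ∑ n ∈ II x, C8 * (2 * Y) ^ ((1 : ℝ) / 80) * (wn ω x n - an ω x N n) := by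
          refine Finset.sum_le_sum_of_subset_of_nonneg (Finset.filter_subset _ _) fun n _ _ => ?_
          exact mul_nonneg hq0 (by linarith [an_le_L9 hω x N n])
      _ = C8 * (2 * Y) ^ ((1 : ℝ) / 80) * ∑ n ∈ II x, (wn ω x n - an ω x N n) := by
          rw [Finset.mul_sum]
      _ ≤ _ := mul_le_mul_of_nonneg_left (hY6 Y g2 N hN1 hN2) hq0
  have t1 := h4 ω hω x (Y ^ lev) (x ^ θ) N ξ hξ hx0 hxN hD1
  have t1' : (1 + Real.log (Y ^ lev)) ^ 2 *
      (∑ e ∈ (Icc 1 ⌊x ^ θ⌋₊).filter (fun e => Nat.Coprime e N), Err ω x e N +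
      ∑ n ∈ (II x).filter (fun n => ¬ Nat.Coprime n N), wn ω x n * ((N - n).divisors.card : ℝ)) ≤
      √Y / L ^ A / 4 + √Y / L ^ A / 4 := by
    rw [mul_add]
    refine add_le_add ?_ ?_
    · have q1 : x / Real.log x ^ (A + 3) ≤ a * √Y * 4 ^ (A + 3) / L ^ (A + 3) := by
        have q2 : (L / 4) ^ (A + 3) ≤ Real.log x ^ (A + 3) :=
          pow_le_pow_left₀ (by positivity) hlogx4 _
        calc x / Real.log x ^ (A + 3) ≤ x / (L / 4) ^ (A + 3) :=
              div_le_div_of_nonneg_left hx0 (by positivity) q2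
          _ = a * √Y * 4 ^ (A + 3) / L ^ (A + 3) := by
              rw [div_pow, hx]
              field_simp
      calc (1 + Real.log (Y ^ lev)) ^ 2 *
          ∑ e ∈ (Icc 1 ⌊x ^ θ⌋₊).filter (fun e => Nat.Coprime e N), Err ω x e N
          ≤ ((1 + lev) ^ 2 * L ^ 2) * (a * √Y * 4 ^ (A + 3) / L ^ (A + 3)) :=
            mul_le_mul hlogD2 (t1a.trans q1) (Finset.sum_nonneg fun _ _ => abs_nonneg _)
              (by positivity)
        _ = (√Y / L ^ A) * (((1 + lev) ^ 2 * a * 4 ^ (A + 3)) / L) :=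
            alg1_L9 _ _ _ _ _ _ hL0
        _ ≤ (√Y / L ^ A) * (1 / 4) := by
            refine mul_le_mul_of_nonneg_left ?_ (by positivity)
            rw [div_le_div_iff₀ hL0 (by norm_num)]
            linarith
        _ = √Y / L ^ A / 4 := by ring
    · have q1 : (2 * Y) ^ ((1 : ℝ) / 80) = (2 : ℝ) ^ ((1 : ℝ) / 80) * Y ^ ((1 : ℝ) / 80) :=
        Real.mul_rpow (by norm_num) hY0.le
      have q2 : Y ^ ((1 : ℝ) / 80) * Y ^ ((9 : ℝ) / 20) * Y ^ ((3 : ℝ) / 80) = √Y := by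
        rw [← Real.rpow_add hY0, ← Real.rpow_add hY0, Real.sqrt_eq_rpow]
        norm_num
      have q3 : 0 < Y ^ ((1 : ℝ) / 80) * Y ^ ((9 : ℝ) / 20) := by positivity
      calc (1 + Real.log (Y ^ lev)) ^ 2 *
          ∑ n ∈ (II x).filter (fun n => ¬ Nat.Coprime n N), wn ω x n *
            ((N - n).divisors.card : ℝ)
          ≤ ((1 + lev) ^ 2 * L ^ 2) * (C8 * (2 * Y) ^ ((1 : ℝ) / 80) * Y ^ ((9 : ℝ) / 20)) :=
            mul_le_mul hlogD2 t1b (Finset.sum_nonneg fun n _ =>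
              mul_nonneg (wn_nonneg_L9 hω x n) (Nat.cast_nonneg _)) (by positivity)
        _ = (Y ^ ((1 : ℝ) / 80) * Y ^ ((9 : ℝ) / 20)) *
            (4 * ((1 + lev) ^ 2 * (C8 * (2 : ℝ) ^ ((1 : ℝ) / 80))) * L ^ (A + 2)) / (4 * L ^ A)
            := by
            rw [q1]
            exact alg2_L9 _ _ _ _ _ _ _ hL0
        _ ≤ (Y ^ ((1 : ℝ) / 80) * Y ^ ((9 : ℝ) / 20)) * Y ^ ((3 : ℝ) / 80) / (4 * L ^ A) := by
            gcongr
        _ = √Y / L ^ A / 4 := by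
            rw [q2, mul_comm (4 : ℝ), ← div_div]
  have t2 := hEN N hN1 hN2 hNE
  have t2' : √Y / L ^ (A + 1) ≤ √Y / L ^ A / 4 := by
    rw [pow_succ, ← div_div]
    exact div_le_div_of_nonneg_left (by positivity) (by norm_num) hL4
  have t3 := hT (Y ^ lev) (x ^ θ) N ξ hξ hN1' hD1 (by positivity)
  have t3' : |Th ω x| * |∑ r ∈ (Icc 1 ⌊Y ^ lev⌋₊).filter (fun r : ℕ => x ^ θ < r),
      gg (Y ^ lev) ξ r * hh N r| ≤ √Y / L ^ A / 4 := by
    have q0 := Th_le_L9 hω x (by linarith)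
    have q1 : |Th ω x| ≤ 3 * (a * √Y) * L :=
      q0.trans (mul_le_mul_of_nonneg_left hlog3x (by positivity))
    have q2 : (N.divisors.card : ℝ) ≤ C9 * ((2 : ℝ) ^ (θ / 100) * Y ^ (θ / 100)) := by
      refine (hD9 N hN1').trans ?_
      refine mul_le_mul_of_nonneg_left ?_ (by linarith)
      rw [← Real.mul_rpow (by norm_num) hY0.le]
      exact Real.rpow_le_rpow (Nat.cast_nonneg _) hN2 (by positivity)
    have q3 : x ^ θ = a ^ θ * Y ^ (θ / 2) := by
      rw [hx, Real.mul_rpow ha.le hsq0.le, Real.sqrt_eq_rpow, ← Real.rpow_mul hY0.le]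
      congr 2
      ring
    have q4 : C3 * (1 + Real.log (Y ^ lev)) ^ 2 * (N.divisors.card : ℝ) / x ^ θ ≤
        C3 * ((1 + lev) ^ 2 * L ^ 2) * (C9 * ((2 : ℝ) ^ (θ / 100) * Y ^ (θ / 100))) /
          (a ^ θ * Y ^ (θ / 2)) := by
      rw [q3]
      gcongr
    have q5 : Y ^ (θ / 2) = Y ^ (θ / 100) * Y ^ (49 * θ / 100) := by
      rw [← Real.rpow_add hY0]
      congr 1
      ring
    have haθ : 0 < a ^ θ := by positivity
    have hY1 : 0 < Y ^ (θ / 100) := by positivity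
    have hY2 : 0 < Y ^ (49 * θ / 100) := by positivity
    calc |Th ω x| * |∑ r ∈ (Icc 1 ⌊Y ^ lev⌋₊).filter (fun r : ℕ => x ^ θ < r),
          gg (Y ^ lev) ξ r * hh N r|
        ≤ (3 * (a * √Y) * L) * (C3 * ((1 + lev) ^ 2 * L ^ 2) *
          (C9 * ((2 : ℝ) ^ (θ / 100) * Y ^ (θ / 100))) / (a ^ θ * Y ^ (θ / 2))) :=
          mul_le_mul q1 (t3.trans q4) (abs_nonneg _) (by positivity)
      _ = √Y * ((4 * (3 * a * (C3 * (1 + lev) ^ 2) * (C9 * (2 : ℝ) ^ (θ / 100)) / a ^ θ)) *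
          L ^ (A + 3)) / (4 * L ^ A * Y ^ (49 * θ / 100)) := by
          rw [q5]
          exact alg3_L9 _ _ _ _ _ _ _ _ _ _ _ hL0 haθ hY1 hY2
      _ ≤ √Y * Y ^ (49 * θ / 100) / (4 * L ^ A * Y ^ (49 * θ / 100)) := by
          gcongr
      _ = √Y / L ^ A / 4 := by
          rw [mul_div_mul_right _ _ hY2.ne', mul_comm (4 : ℝ), ← div_div]
  have key : ∀ s1 s2 m1 m2 T : ℝ, |s1 - T * m1| ≤ √Y / L ^ A / 4 + √Y / L ^ A / 4 →
      |s2| ≤ √Y / L ^ A / 4 → |T| * |m2| ≤ √Y / L ^ A / 4 →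
      |s1 + s2 - T * (m1 + m2)| ≤ √Y / L ^ A := by
    intro s1 s2 m1 m2 T k1 k2 k3
    rw [← abs_mul] at k3
    have k4 : s1 + s2 - T * (m1 + m2) = (s1 - T * m1) + s2 - T * m2 := by ring
    rw [k4]
    calc |(s1 - T * m1) + s2 - T * m2| ≤ |(s1 - T * m1) + s2| + |T * m2| := abs_sub _ _
      _ ≤ |s1 - T * m1| + |s2| + |T * m2| := add_le_add (abs_add_le _ _) le_rfl
      _ ≤ √Y / L ^ A := by linarith
  exact key _ _ _ _ _ (t1.trans t1') (t2.trans t2') t3'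

end Pool.Agent.Helper60.PT
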