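import Pool.Agent.Helper60.PT.St
import Pool.Agent.Helper60.GP.M_F4

/-! Project PT (MP_b454d1_nt), module O1 -/

set_option autoImplicit false

namespace Pool.Agent.Helper60.PT

open Finset ArithmeticFunction
open Pool.Agent.Helper60.GP (PP VV rg IsB JJ II Err an T0 Tq SS)
open Pool.Agent.Helper15.AB (Th ee)
open Pool.Agent.Helper23.GK (cR)
open Pool.Agent.Helper18.TR (fam0 fam1 Qi)
open Pool.Agent.Helper60.GP.F4 (lamF sumT sum_div tot_prod memF)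

namespace PTO1

theorem prime_PO {z : ℝ} {p : ℕ} (hp : p ∈ PO z) : p.Prime := by
  rw [PO, Finset.mem_filter] at hp
  exact hp.2.1

theorem mem_PP {N : ℕ} {z : ℝ} (hN : Even N) (p : ℕ) : p ∈ PP N z ↔ p ∈ PO z ∧ ¬ p ∣ N := by
  rw [PP, PO, Finset.mem_filter, Finset.mem_filter]
  constructor
  · rintro ⟨h1, h2, h3⟩
    refine ⟨⟨h1, h2, ?_⟩, h3⟩
    rintro rfl
    exact h3 hN.two_dvd
  · rintro ⟨⟨h1, h2, _⟩, h3⟩
    exact ⟨h1, h2, h3⟩

theorem PP_sub {N : ℕ} {z : ℝ} (hN : Even N) : PP N z ⊆ PO z := fun p hp =>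
  ((mem_PP hN p).1 hp).1

theorem mn (N : ℕ) (z D : ℝ) (hN : Even N) (F G : Finset (Finset ℕ)) (hF : ∀ T ∈ F, T ⊆ PO z)
    (hG : ∀ T, T ∈ G ↔ T ∈ F ∧ T ⊆ PP N z)
    (hD : ∀ T ∈ F, ((∏ p ∈ T, p : ℕ) : ℝ) ≤ D) :
    MN N D (lamF F) = ∑ T ∈ G, (-1 : ℝ) ^ T.card * ∏ p ∈ T, 1 / ((p : ℝ) - 1) := by
  have hFp : ∀ T ∈ F, ∀ p ∈ T, p.Prime := fun T hT p hp => prime_PO (hF T hT hp)
  have h1 := sumT F hFp (Icc 1 ⌊D⌋₊)
    (fun m => if Nat.Coprime m N then 1 / (Nat.totient m : ℝ) else 0) (by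
    intro T hT _
    rw [Finset.mem_Icc]
    exact ⟨Finset.prod_pos (fun p hp => (hFp T hT p hp).pos), Nat.le_floor (hD T hT)⟩)
  have h3 : MN N D (lamF F) = ∑ m ∈ Icc 1 ⌊D⌋₊, lamF F m *
      (fun m => if Nat.Coprime m N then 1 / (Nat.totient m : ℝ) else 0) m := by
    unfold MN
    rw [Finset.sum_filter]
    apply Finset.sum_congr rfl
    intro m hm
    simp only
    split_ifs
    · rw [mul_one_div]
    · rw [mul_zero]
  rw [h3, h1]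
  have h4 : G ⊆ F := fun T hT => ((hG T).1 hT).1
  symm
  have h5 : ∀ T ∈ G, (-1 : ℝ) ^ T.card * ∏ p ∈ T, 1 / ((p : ℝ) - 1) = (-1 : ℝ) ^ T.card *
      (if Nat.Coprime (∏ p ∈ T, p) N then 1 / (Nat.totient (∏ p ∈ T, p) : ℝ) else 0) := by
    intro T hT
    obtain ⟨h6, h7⟩ := (hG T).1 hT
    have h8 : Nat.Coprime (∏ p ∈ T, p) N := by
      apply Nat.Coprime.prod_left
      intro p hp
      have h9 := (mem_PP hN p).1 (h7 hp)
      exact ((prime_PO h9.1).coprime_iff_not_dvd).2 h9.2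
    rw [if_pos h8, tot_prod T (hFp T h6), one_div (∏ p ∈ T, ((p : ℝ) - 1)), ← Finset.prod_inv_distrib]
    congr 1
    exact Finset.prod_congr rfl (fun p _ => one_div _)
  rw [Finset.sum_congr rfl h5]
  apply Finset.sum_subset h4
  intro T hT hTG
  have h6 : ¬ Nat.Coprime (∏ p ∈ T, p) N := by
    intro h6
    apply hTG
    rw [hG]
    refine ⟨hT, fun p hp => ?_⟩
    rw [mem_PP hN]
    refine ⟨hF T hT hp, ?_⟩
    have h7 : Nat.Coprime p N := Nat.Coprime.coprime_dvd_left (Finset.dvd_prod_of_mem _ hp) h6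
    exact ((hFp T hT p hp).coprime_iff_not_dvd).1 h7
  rw [if_neg h6, mul_zero]

theorem ro_eq (z : ℝ) (n : ℕ) :
    ro z n = ∏ p ∈ PO z, (1 - (if p ∣ n then (1 : ℝ) else 0)) := by
  unfold ro
  by_cases h : ∀ p ∈ PO z, ¬ p ∣ n
  · rw [if_pos h]
    symm
    apply Finset.prod_eq_one
    intro p hp
    rw [if_neg (h p hp), sub_zero]
  · rw [if_neg h]
    push Not at h
    obtain ⟨p, hp, hpn⟩ := h
    symm
    apply Finset.prod_eq_zero hp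
    rw [if_pos hpn, sub_self]

theorem isWo (z D : ℝ) (F : Finset (Finset ℕ)) (hF : ∀ T ∈ F, T ⊆ PO z)
    (hD : ∀ T ∈ F, ((∏ p ∈ T, p : ℕ) : ℝ) ≤ D) : IsWo z D (lamF F) := by
  constructor
  · intro m
    unfold lamF
    split_ifs
    · rw [abs_pow, abs_neg, abs_one, one_pow]
    · rw [abs_zero]; exact zero_le_one
  · intro m hm
    have h4 : Squarefree m ∧ m.primeFactors ∈ F := by
      by_contra h4
      exact hm (by rw [lamF, if_neg h4])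
    have h5 : ∏ p ∈ m.primeFactors, p = m := Nat.prod_primeFactors_of_squarefree h4.1
    refine ⟨h4.1, ?_, ?_⟩
    · have := hD _ h4.2
      rw [h5] at this
      exact this
    · intro p hp hpm
      exact hF _ h4.2 (Nat.mem_primeFactors.2 ⟨hp, hpm, h4.1.ne_zero⟩)

theorem memFi {α : Type} {P : α → Prop} {i : DecidablePred P} {s : Finset α} {a : α} :
    a ∈ @Finset.filter α P i s ↔ a ∈ s ∧ P a := Finset.mem_filter

theorem mem0 (w : ℕ) (Q Q' : Finset ℕ) (hQ : Q' ⊆ Q) (T : Finset ℕ) :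
    T ∈ fam0 w 6 Q' ↔ T ∈ fam0 w 6 Q ∧ T ⊆ Q' := by
  unfold fam0
  rw [memFi, memFi, Finset.mem_powerset, Finset.mem_powerset]
  exact ⟨fun h => ⟨⟨h.1.trans hQ, h.2⟩, h.1⟩, fun h => ⟨h.2, h.1.2⟩⟩

theorem mem1 (w : ℕ) (Q Q' : Finset ℕ) (hQ : Q' ⊆ Q) (T : Finset ℕ) :
    T ∈ fam0 w 6 Q' ∪ fam1 w 6 Q' ↔ T ∈ fam0 w 6 Q ∪ fam1 w 6 Q ∧ T ⊆ Q' := by
  rw [Finset.mem_union, Finset.mem_union, mem0 w Q Q' hQ]
  unfold fam1
  rw [memFi, memFi, Finset.mem_powerset, Finset.mem_powerset]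
  constructor
  · rintro (h | h)
    · exact ⟨Or.inl h.1, h.2⟩
    · exact ⟨Or.inr ⟨h.1.trans hQ, h.2⟩, h.1⟩
  · rintro ⟨h | h, h'⟩
    · exact Or.inl ⟨h, h'⟩
    · exact Or.inr ⟨h', h.2⟩

end PTO1

open PTO1

theorem hBase (h1 : Pool.Agent.Helper60.GP.StLev) (h2 : Pool.Agent.Helper60.GP.StFLm) : StBase := by
  have bonf : Pool.Agent.Helper18.TR.StBonf :=
    Pool.Agent.Helper18.TR.pf_Bonf Pool.Agent.Helper18.TR.pf_Fact0 Pool.Agent.Helper18.TR.pf_Fact1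
      Pool.Agent.Helper18.TR.pf_Sym Pool.Agent.Helper18.TR.pf_Esymm
  have key : ∀ z : ℝ, 2 ≤ z → ∃ w : ℕ, 1 ≤ w ∧ z ≤ w + 1 ∧ (w : ℝ) ≤ z ∧
      ∀ p ∈ PO z, p.Prime ∧ 3 ≤ p ∧ p ≤ w := by
    intro z hz
    have hc : 2 ≤ ⌈z⌉₊ := by
      have : (2 : ℝ) ≤ ⌈z⌉₊ := hz.trans (Nat.le_ceil z)
      exact_mod_cast this
    refine ⟨⌈z⌉₊ - 1, by omega, ?_, ?_, ?_⟩
    · have := Nat.le_ceil z
      rw [Nat.cast_sub (by omega)]
      push_cast
      linarith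
    · have := Nat.ceil_lt_add_one (show (0 : ℝ) ≤ z by linarith)
      rw [Nat.cast_sub (by omega)]
      push_cast
      linarith
    · intro p hp
      rw [PO, Finset.mem_filter, Finset.mem_range] at hp
      obtain ⟨hp1, hp2, hp3⟩ := hp
      refine ⟨hp2, ?_, by omega⟩
      have h3 := hp2.two_le
      omega
  have lev : ∀ (z D : ℝ) (w : ℕ), 1 ≤ w → (w : ℝ) ≤ z → z ^ (17 : ℝ) ≤ D →
      (∀ p ∈ PO z, p.Prime ∧ 3 ≤ p ∧ p ≤ w) →
      ∀ T ∈ fam0 w 6 (PO z) ∪ fam1 w 6 (PO z), ((∏ p ∈ T, p : ℕ) : ℝ) ≤ D := by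
    intro z D w hw hwz hD hP T hT
    have h3 := h1 w (PO z) T hw (fun p hp => ⟨(hP p hp).1, (hP p hp).2.2⟩) hT
    have h4 : ((∏ p ∈ T, p : ℕ) : ℝ) ≤ (w : ℝ) ^ 17 := by exact_mod_cast h3
    have h5 : (w : ℝ) ^ 17 ≤ z ^ 17 := pow_le_pow_left₀ (Nat.cast_nonneg w) hwz 17
    have h6 : z ^ (17 : ℝ) = z ^ 17 := by
      rw [← Real.rpow_natCast]
      norm_num
    rw [h6] at hD
    exact h4.trans (h5.trans hD)
  have sub0 : ∀ (z : ℝ) (w : ℕ), ∀ T ∈ fam0 w 6 (PO z), T ⊆ PO z := by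
    intro z w T hT
    exact Finset.mem_powerset.1 (memF hT)
  have sub1 : ∀ (z : ℝ) (w : ℕ), ∀ T ∈ fam0 w 6 (PO z) ∪ fam1 w 6 (PO z), T ⊆ PO z := by
    intro z w T hT
    rcases Finset.mem_union.1 hT with hT | hT
    · exact sub0 z w T hT
    · exact Finset.mem_powerset.1 (memF hT)
  have g01 : ∀ (z : ℝ) (n : ℕ), ∀ p ∈ PO z,
      0 ≤ (fun p : ℕ => if p ∣ n then (1 : ℝ) else 0) p ∧
      (fun p : ℕ => if p ∣ n then (1 : ℝ) else 0) p ≤ 1 := by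
    intro z n p _
    simp only
    split_ifs <;> norm_num
  constructor
  · intro ε hε M
    obtain ⟨w₀, hw₀⟩ := h2 ε hε
    refine ⟨w₀ + 2, fun z hz D hD => ?_⟩
    obtain ⟨w, hw1, hwz1, hwz2, hP⟩ := key z (by
      have : (0 : ℝ) ≤ w₀ := Nat.cast_nonneg _
      linarith)
    have hww : w₀ ≤ w := by
      have : (w₀ : ℝ) ≤ w := by linarith
      exact_mod_cast this
    have hL := lev z D w hw1 hwz2 hD hP
    have hL0 : ∀ T ∈ fam0 w 6 (PO z), ((∏ p ∈ T, p : ℕ) : ℝ) ≤ D :=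
      fun T hT => hL T (Finset.mem_union_left _ hT)
    have hS := sub0 z w
    have hSp : ∀ T ∈ fam0 w 6 (PO z), ∀ p ∈ T, p.Prime :=
      fun T hT p hp => prime_PO (hS T hT hp)
    refine ⟨lamF (fam0 w 6 (PO z)), isWo z D _ hS hL0, ?_, ?_⟩
    · intro n hn
      rw [ro_eq, sum_div _ hSp n hn]
      exact (bonf w 6 (PO z)
        (fun p : ℕ => if p ∣ n then (1 : ℝ) else 0) (by decide) (g01 z n)).2
    · intro N hN _ _
      rw [mn N z D hN _ (fam0 w 6 (PP N z)) hS (mem0 w _ _ (PP_sub hN)) hL0]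
      exact (hw₀ w hww (PP N z) (fun p hp => hP p (PP_sub hN hp))).1
  · intro ε hε M
    obtain ⟨w₀, hw₀⟩ := h2 ε hε
    refine ⟨w₀ + 2, fun z hz D hD => ?_⟩
    obtain ⟨w, hw1, hwz1, hwz2, hP⟩ := key z (by
      have : (0 : ℝ) ≤ w₀ := Nat.cast_nonneg _
      linarith)
    have hww : w₀ ≤ w := by
      have : (w₀ : ℝ) ≤ w := by linarith
      exact_mod_cast this
    have hL := lev z D w hw1 hwz2 hD hP
    have hS := sub1 z w
    have hSp : ∀ T ∈ fam0 w 6 (PO z) ∪ fam1 w 6 (PO z), ∀ p ∈ T, p.Prime :=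
      fun T hT p hp => prime_PO (hS T hT hp)
    refine ⟨lamF (fam0 w 6 (PO z) ∪ fam1 w 6 (PO z)), isWo z D _ hS hL, ?_, ?_⟩
    · intro n hn
      rw [ro_eq, sum_div _ hSp n hn]
      exact (bonf w 6 (PO z)
        (fun p : ℕ => if p ∣ n then (1 : ℝ) else 0) (by decide) (g01 z n)).1
    · intro N hN _ _
      rw [mn N z D hN _ (fam0 w 6 (PP N z) ∪ fam1 w 6 (PP N z)) hS (mem1 w _ _ (PP_sub hN)) hL]
      exact (hw₀ w hww (PP N z) (fun p hp => hP p (PP_sub hN hp))).2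

end Pool.Agent.Helper60.PT
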