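import Pool.Agent.Helper60.PT.St
import Pool.Agent.Helper60.GP.M_R3

/-! Project PT (MP_b454d1_nt), module O3 -/

set_option autoImplicit false

namespace Pool.Agent.Helper60.PT

open Finset ArithmeticFunction
open Pool.Agent.Helper60.GP (PP VV rg IsB JJ II Err an T0 Tq SS)
open Pool.Agent.Helper15.AB (Th ee)
open Pool.Agent.Helper23.GK (cR)

theorem PO_eq_O3 (z : ℝ) : PO z = PP 2 z := by
  unfold PO PP
  refine filter_congr fun p _ => ?_
  refine and_congr_right fun hp => ?_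
  rw [not_iff_not]
  exact ((Nat.prime_dvd_prime_iff_eq hp Nat.prime_two)).symm

theorem ro_eq_O3 (z : ℝ) (n : ℕ) : ro z n = rg 2 z n := by
  unfold ro rg
  rw [PO_eq_O3]

theorem split_O3 (h2 : Pool.Agent.Helper60.GP.StBu) {z₁ z : ℝ} (hz : z₁ ≤ z) (n : ℕ) :
    ro z n = ro z₁ n - ∑ l ∈ (PO z \ PO z₁).filter (fun l => l ∣ n), ro l n := by
  simp only [ro_eq_O3, PO_eq_O3]
  exact Pool.Agent.Helper60.GP.split_R3 h2 hz n

theorem mem_PO_O3 {z : ℝ} {p : ℕ} : p ∈ PO z ↔ (p : ℝ) < z ∧ p.Prime ∧ p ≠ 2 := by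
  unfold PO
  rw [mem_filter, mem_range, Nat.lt_ceil]

theorem sub_O3 {N : ℕ} (hN : Even N) {z z₁ : ℝ} {l : ℕ} (hl : l ∈ PP N z \ PP N z₁) :
    l ∈ PO z \ PO z₁ := by
  rw [mem_sdiff, Pool.Agent.Helper60.GP.mem_PP_R1, Pool.Agent.Helper60.GP.mem_PP_R1] at hl
  rw [mem_sdiff, mem_PO_O3, mem_PO_O3]
  obtain ⟨⟨a1, a2, a3⟩, a4⟩ := hl
  refine ⟨⟨a1, a2, ?_⟩, fun h => a4 ⟨h.1, a2, a3⟩⟩
  rintro rfl
  exact a3 hN.two_dvd

/-- the set up for the two recursions: `P` and `Q` are families of properties indexed by the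
exponent `M` -/
theorem setup_O3 (h3 : Pool.Agent.Helper60.GP.StRatio) {s s' : ℝ} (hs : 0 < s) (hs' : s ≤ s')
    {M ε : ℝ} (hε : 0 < ε) {P Q : ℝ → ℝ → ℝ → Prop}
    (hP : ∀ M : ℝ, ∃ z₀ : ℝ, ∀ z : ℝ, z₀ ≤ z → ∀ D : ℝ, z ^ s' ≤ D → P M z D)
    (hQ : ∀ M : ℝ, ∃ z₀ : ℝ, ∀ z : ℝ, z₀ ≤ z → ∀ D : ℝ, z ^ (s - 1) ≤ D → Q M z D) :
    ∃ M₁ z₀ : ℝ, ∀ z : ℝ, z₀ ≤ z → ∀ D : ℝ, z ^ s ≤ D → ∃ z₁ : ℝ, z₁ ≤ z ∧ P M₁ z₁ D ∧
      (∀ N : ℕ, 1 ≤ N → (N : ℝ) ≤ z ^ M → (N : ℝ) ≤ z₁ ^ M₁) ∧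
      (∀ l ∈ PO z \ PO z₁, Q M₁ l (D / l) ∧ z₁ ≤ (l : ℝ) ∧
        ∀ N : ℕ, 1 ≤ N → (N : ℝ) ≤ z ^ M → (N : ℝ) ≤ (l : ℝ) ^ M₁) ∧
      (∀ N : ℕ, Even N → 1 ≤ N → (N : ℝ) ≤ z ^ M → |VV N z₁ / VV N z - s' / s| ≤ ε) := by
  have hs0' : 0 < s' := hs.trans_le hs'
  set r : ℝ := s / s' with hr
  have hr0 : 0 < r := by positivity
  have hr1 : r ≤ 1 := by
    rw [hr, div_le_one hs0']
    exact hs'
  set M' : ℝ := max M 0 with hM'
  have hM0 : 0 ≤ M' := le_max_right _ _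
  obtain ⟨za, ha⟩ := hP (M' / r)
  obtain ⟨zb, hb⟩ := hQ (M' / r)
  obtain ⟨zc, hc⟩ := h3 r hr0 hr1 ε hε M'
  set T : ℝ := max (max za zb) 1 with hT
  have hT1 : 1 ≤ T := le_max_right _ _
  refine ⟨M' / r, max (max (T ^ (1 / r)) zc) 1, fun z hz D hD => ?_⟩
  have hz1 : 1 ≤ z := (le_max_right _ _).trans hz
  have hzc : zc ≤ z := ((le_max_right _ _).trans (le_max_left _ _)).trans hz
  have hzT : T ^ (1 / r) ≤ z := ((le_max_left _ _).trans (le_max_left _ _)).trans hz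
  have hz0 : 0 ≤ z := by linarith
  have hTz : T ≤ z ^ r := by
    have h := Real.rpow_le_rpow (by positivity) hzT hr0.le
    rwa [← Real.rpow_mul (by positivity), one_div_mul_cancel hr0.ne', Real.rpow_one] at h
  have hza : za ≤ z ^ r := ((le_max_left _ _).trans (le_max_left _ _)).trans hTz
  have hzb : zb ≤ z ^ r := ((le_max_right _ _).trans (le_max_left _ _)).trans hTz
  have hzr1 : 1 ≤ z ^ r := hT1.trans hTz
  have hNM' : ∀ N : ℕ, (N : ℝ) ≤ z ^ M → (N : ℝ) ≤ z ^ M' := fun N hNM =>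
    hNM.trans (Real.rpow_le_rpow_of_exponent_le hz1 (le_max_left _ _))
  have hNr : ∀ N : ℕ, (N : ℝ) ≤ z ^ M → (N : ℝ) ≤ (z ^ r) ^ (M' / r) := by
    intro N hNM
    rw [← Real.rpow_mul hz0, mul_div_cancel₀ _ hr0.ne']
    exact hNM' N hNM
  have hzz : z ^ r ≤ z := by
    have := Real.rpow_le_rpow_of_exponent_le hz1 hr1
    rwa [Real.rpow_one] at this
  refine ⟨z ^ r, hzz, ?_, fun N _ h => hNr N h, ?_, ?_⟩
  · apply ha _ hza
    rw [← Real.rpow_mul hz0]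
    have e : r * s' = s := by
      rw [hr]
      field_simp
    rw [e]
    exact hD
  · intro l hl
    rw [mem_sdiff, mem_PO_O3, mem_PO_O3] at hl
    obtain ⟨⟨a1, a2, a3⟩, a4⟩ := hl
    have a5 : z ^ r ≤ l := by
      by_contra h
      push Not at h
      exact a4 ⟨h, a2, a3⟩
    have hl0 : (0 : ℝ) < l := by exact_mod_cast a2.pos
    refine ⟨?_, a5, fun N _ h => ?_⟩
    · apply hb _ (hzb.trans a5)
      rw [Real.rpow_sub_one hl0.ne']
      apply div_le_div_of_nonneg_right _ hl0.le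
      exact (Real.rpow_le_rpow hl0.le a1.le hs.le).trans hD
    · exact (hNr N h).trans (Real.rpow_le_rpow (by positivity) a5 (by positivity))
  · intro N hN hN1 hNM
    have h := hc z hzc N hN hN1 (hNM' N hNM)
    have e : 1 / r = s' / s := by
      rw [hr, one_div_div]
    rwa [e] at h

/-- the final computation -/
theorem fin_O3 {s s' : ℝ} (hs : 0 < s) (hs' : s ≤ s') {a b ε R : ℝ} (hε : 0 < ε)
    (hR : |R - s' / s| ≤ min 1 (ε / (2 * (|a - b| + 1)))) :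
    |(a - b) * R + b - (s' * a - (s' - s) * b) / s| ≤ ε / 2 ∧ 0 ≤ R ∧ R ≤ s' / s + 1 := by
  have h1 := hR.trans (min_le_left _ _)
  have h2 := hR.trans (min_le_right _ _)
  have hρ1 : 1 ≤ s' / s := by
    rw [le_div_iff₀ hs]
    linarith
  rw [abs_le] at h1
  refine ⟨?_, by linarith, by linarith⟩
  have e : (a - b) * R + b - (s' * a - (s' - s) * b) / s = (a - b) * (R - s' / s) := by
    field_simp
    ring
  rw [e, abs_mul]
  have h3 : 0 ≤ |a - b| := abs_nonneg _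
  have h4 : |a - b| * |R - s' / s| ≤ |a - b| * (ε / (2 * (|a - b| + 1))) :=
    mul_le_mul_of_nonneg_left h2 h3
  refine h4.trans ?_
  rw [mul_div_assoc', div_le_div_iff₀ (by positivity) (by norm_num)]
  nlinarith

theorem hRecU (h1 : StComp) (h2 : Pool.Agent.Helper60.GP.StBu) (h3 : Pool.Agent.Helper60.GP.StRatio) : StRecU := by
  intro s s' c l hs hs' hU hL ε hε M
  have hs0' : 0 < s' := hs.trans_le hs'
  set η : ℝ := ε / (4 * (s' / s + 1)) with hη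
  have hη0 : 0 < η := by positivity
  obtain ⟨M₁, z₀, h⟩ := setup_O3 (M := M) (ε := min 1 (ε / (2 * (|c - l| + 1)))) h3 hs hs'
    (by positivity)
    (P := fun M z D => UpO M z D (c + η)) (Q := fun M z D => LoO M z D (l - η))
    (hU η hη0) (hL η hη0)
  refine ⟨z₀, fun z hz D hD => ?_⟩
  obtain ⟨z₁, hz1, ⟨lam₀, w0, p0, m0⟩, hM1, hQ, hr⟩ := h z hz D hD
  have hQ1 : ∀ l' ∈ PO z \ PO z₁, LoO M₁ l' (D / l') (l - η) := fun l' hl' => (hQ l' hl').1
  unfold LoO at hQ1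
  choose! laml wl pl ml using hQ1
  obtain ⟨lam, w, e1, e2⟩ := h1 z₁ z D lam₀ laml hz1 w0 wl
  refine ⟨lam, w, ?_, ?_⟩
  · intro n hn
    rw [split_O3 h2 hz1, e1 n hn]
    have a1 := p0 n hn
    have a2 : ∑ l ∈ (PO z \ PO z₁).filter (fun l => l ∣ n), ∑ m ∈ n.divisors, laml l m ≤
        ∑ l ∈ (PO z \ PO z₁).filter (fun l => l ∣ n), ro l n :=
      sum_le_sum fun l hl => pl l (mem_filter.1 hl).1 n hn
    linarith
  · intro N hN hN1 hNM
    have hV := Pool.Agent.Helper60.GP.VV_pos_R3 hN z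
    have m0' := m0 N hN hN1 (hM1 N hN1 hNM)
    have a1 : ∑ j ∈ PP N z \ PP N z₁, 1 / ((j : ℝ) - 1) * ((l - η) * VV N j) ≤
        ∑ j ∈ PP N z \ PP N z₁, 1 / ((j : ℝ) - 1) * MN N (D / j) (laml j) := by
      refine sum_le_sum fun j hj => mul_le_mul_of_nonneg_left ?_
        (Pool.Agent.Helper60.GP.inv_nonneg_R3 hj)
      have hj' := sub_O3 hN hj
      exact ml j hj' N hN hN1 ((hQ j hj').2.2 N hN1 hNM)
    have a2 : ∑ j ∈ PP N z \ PP N z₁, 1 / ((j : ℝ) - 1) * ((l - η) * VV N j) =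
        (l - η) * (VV N z₁ - VV N z) := by
      rw [← Pool.Agent.Helper60.GP.VV_split_R3 h2 hz1, mul_sum]
      exact sum_congr rfl fun j _ => by ring
    rw [a2] at a1
    obtain ⟨b1, b2, b3⟩ := fin_O3 hs hs' hε (hr N hN hN1 hNM)
    set R := VV N z₁ / VV N z with hR
    have e3 : VV N z₁ = R * VV N z := by
      rw [hR, div_mul_cancel₀ _ hV.ne']
    rw [e3] at a1 m0'
    rw [e2 N hN]
    have b4 := (abs_le.1 b1).2
    have b7 : η * R ≤ ε / 4 := by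
      have : η * (s' / s + 1) = ε / 4 := by
        rw [hη]
        field_simp
      rw [← this]
      exact mul_le_mul_of_nonneg_left b3 hη0.le
    have b5 : (c + η) * R - (l - η) * (R - 1) ≤ (s' * c - (s' - s) * l) / s + ε := by
      have : (c + η) * R - (l - η) * (R - 1) = (c - l) * R + l + 2 * (η * R) - η := by ring
      rw [this]
      linarith
    have b6 := mul_le_mul_of_nonneg_right b5 hV.le
    have b8 : ((c + η) * R - (l - η) * (R - 1)) * VV N z =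
        (c + η) * (R * VV N z) - (l - η) * (R * VV N z - VV N z) := by ring
    rw [b8] at b6
    linarith

end Pool.Agent.Helper60.PT
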