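import Pool.Agent.Helper60.PT.St
import Pool.Agent.Helper60.GP.M_R3

/-! Project PT (MP_b454d1_nt), module O4 -/

set_option autoImplicit false

namespace Pool.Agent.Helper60.PT

open Finset ArithmeticFunction
open Pool.Agent.Helper60.GP (PP VV rg IsB JJ II Err an T0 Tq SS)
open Pool.Agent.Helper15.AB (Th ee)
open Pool.Agent.Helper23.GK (cR)

theorem mem_PO_O4 {z : ℝ} {p : ℕ} : p ∈ PO z ↔ (p : ℝ) < z ∧ p.Prime ∧ p ≠ 2 := by
  unfold PO
  rw [mem_filter, mem_range, Nat.lt_ceil]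

theorem PO_eq_O4 (z : ℝ) : PO z = PP 2 z := by
  ext p
  rw [mem_PO_O4, Pool.Agent.Helper60.GP.mem_PP_R1]
  constructor
  · rintro ⟨a, b, c⟩
    refine ⟨a, b, fun h => c ?_⟩
    exact (Nat.prime_dvd_prime_iff_eq b Nat.prime_two).1 h
  · rintro ⟨a, b, c⟩
    refine ⟨a, b, fun h => c ?_⟩
    rw [h]

theorem ro_eq_O4 (z : ℝ) (n : ℕ) : ro z n = rg 2 z n := by
  unfold ro rg
  rw [PO_eq_O4]

theorem split_O4 (h2 : Pool.Agent.Helper60.GP.StBu) {z₁ z : ℝ} (hz : z₁ ≤ z) (n : ℕ) :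
    ro z n = ro z₁ n - ∑ l ∈ (PO z \ PO z₁).filter (fun l => l ∣ n), ro l n := by
  simp only [ro_eq_O4, PO_eq_O4]
  exact Pool.Agent.Helper60.GP.split_R3 h2 hz n

theorem sub_O4 {N : ℕ} (hN : Even N) {z z₁ : ℝ} {l : ℕ} (hl : l ∈ PP N z \ PP N z₁) :
    l ∈ PO z \ PO z₁ := by
  rw [mem_sdiff, Pool.Agent.Helper60.GP.mem_PP_R1, Pool.Agent.Helper60.GP.mem_PP_R1] at hl
  rw [mem_sdiff, mem_PO_O4, mem_PO_O4]
  obtain ⟨⟨a, b, c⟩, d⟩ := hl
  refine ⟨⟨a, b, ?_⟩, fun h => d ⟨h.1, b, c⟩⟩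
  rintro rfl
  exact c hN.two_dvd

/-- the set up for the recursions -/
theorem setup_O4 (h3 : Pool.Agent.Helper60.GP.StRatio) {s s' : ℝ} (hs : 0 < s) (hs' : s ≤ s')
    {M ε : ℝ} (hε : 0 < ε) {P Q : ℝ → ℝ → ℝ → Prop}
    (hP : ∀ M : ℝ, ∃ z₀ : ℝ, ∀ z : ℝ, z₀ ≤ z → ∀ D : ℝ, z ^ s' ≤ D → P M z D)
    (hQ : ∀ M : ℝ, ∃ z₀ : ℝ, ∀ z : ℝ, z₀ ≤ z → ∀ D : ℝ, z ^ (s - 1) ≤ D → Q M z D) :
    ∃ M₁ z₀ : ℝ, ∀ z : ℝ, z₀ ≤ z → ∀ D : ℝ, z ^ s ≤ D → ∃ z₁ : ℝ, z₁ ≤ z ∧ P M₁ z₁ D ∧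
      (∀ l ∈ PO z \ PO z₁, Q M₁ l (D / l)) ∧
      ∀ N : ℕ, Even N → 1 ≤ N → (N : ℝ) ≤ z ^ M → (N : ℝ) ≤ z₁ ^ M₁ ∧
        (∀ l ∈ PO z \ PO z₁, (N : ℝ) ≤ (l : ℝ) ^ M₁) ∧
        |VV N z₁ / VV N z - s' / s| ≤ ε := by
  have hs0 : 0 < s' := hs.trans_le hs'
  set r : ℝ := s / s' with hr
  have hr0 : 0 < r := by positivity
  have hr1 : r ≤ 1 := by
    rw [hr, div_le_one hs0]
    exact hs'
  set M' : ℝ := max M 0 with hM'
  have hM0 : 0 ≤ M' := le_max_right _ _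
  obtain ⟨za, ha⟩ := hP (M' / r)
  obtain ⟨zb, hb⟩ := hQ (M' / r)
  obtain ⟨zc, hc⟩ := h3 r hr0 hr1 ε hε M'
  set T : ℝ := max (max za zb) 1 with hT
  have hT1 : 1 ≤ T := le_max_right _ _
  refine ⟨M' / r, max (max (T ^ (1 / r)) zc) 1, fun z hz D hD => ?_⟩
  have hz1 : 1 ≤ z := (le_max_right _ _).trans hz
  have hzc : zc ≤ z := ((le_max_right _ _).trans (le_max_left _ _)).trans hz
  have hzT : T ^ (1 / r) ≤ z := ((le_max_left _ _).trans (le_max_left _ _)).trans hz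
  have hz0 : 0 ≤ z := by linarith
  have hTz : T ≤ z ^ r := by
    have h := Real.rpow_le_rpow (by positivity) hzT hr0.le
    rwa [← Real.rpow_mul (by positivity), one_div_mul_cancel hr0.ne', Real.rpow_one] at h
  have hza : za ≤ z ^ r := ((le_max_left _ _).trans (le_max_left _ _)).trans hTz
  have hzb : zb ≤ z ^ r := ((le_max_right _ _).trans (le_max_left _ _)).trans hTz
  have hzr1 : 1 ≤ z ^ r := hT1.trans hTz
  have hzz : z ^ r ≤ z := by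
    have := Real.rpow_le_rpow_of_exponent_le hz1 hr1
    rwa [Real.rpow_one] at this
  have key : ∀ l ∈ PO z \ PO (z ^ r), (0 : ℝ) < l ∧ (l : ℝ) < z ∧ z ^ r ≤ l := by
    intro l hl
    rw [mem_sdiff, mem_PO_O4, mem_PO_O4] at hl
    obtain ⟨⟨a1, a2, a3⟩, a4⟩ := hl
    refine ⟨by exact_mod_cast a2.pos, a1, ?_⟩
    by_contra h
    push Not at h
    exact a4 ⟨h, a2, a3⟩
  refine ⟨z ^ r, hzz, ?_, ?_, ?_⟩
  · apply ha _ hza
    rw [← Real.rpow_mul hz0]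
    have e : r * s' = s := by
      rw [hr]
      field_simp
    rw [e]
    exact hD
  · intro l hl
    obtain ⟨hl0, a1, a5⟩ := key l hl
    apply hb _ (hzb.trans a5)
    rw [Real.rpow_sub_one hl0.ne']
    apply div_le_div_of_nonneg_right _ hl0.le
    exact (Real.rpow_le_rpow hl0.le a1.le hs.le).trans hD
  · intro N hN hN1 hNM
    have hNM' : (N : ℝ) ≤ z ^ M' :=
      hNM.trans (Real.rpow_le_rpow_of_exponent_le hz1 (le_max_left _ _))
    have hNr : (N : ℝ) ≤ (z ^ r) ^ (M' / r) := by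
      rw [← Real.rpow_mul hz0, mul_div_cancel₀ _ hr0.ne']
      exact hNM'
    refine ⟨hNr, fun l hl => ?_, ?_⟩
    · obtain ⟨hl0, a1, a5⟩ := key l hl
      exact hNr.trans (Real.rpow_le_rpow (by positivity) a5 (by positivity))
    · have h := hc z hzc N hN hN1 hNM'
      have e : 1 / r = s' / s := by
        rw [hr, one_div_div]
      rwa [e] at h

/-- the final computation -/
theorem fin_O4 {s s' : ℝ} (hs : 0 < s) {a b ε R : ℝ} (hε : 0 < ε)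
    (hR : |R - s' / s| ≤ min 1 (ε / (2 * (|a - b| + 1)))) :
    |(a - b) * R + b - (s' * a - (s' - s) * b) / s| ≤ ε / 2 ∧ R ≤ s' / s + 1 := by
  have h1 := hR.trans (min_le_left _ _)
  have h2 := hR.trans (min_le_right _ _)
  rw [abs_le] at h1
  refine ⟨?_, by linarith⟩
  have e : (a - b) * R + b - (s' * a - (s' - s) * b) / s = (a - b) * (R - s' / s) := by
    field_simp
    ring
  rw [e, abs_mul]
  have h3 : 0 ≤ |a - b| := abs_nonneg _
  have h4 : |a - b| * |R - s' / s| ≤ |a - b| * (ε / (2 * (|a - b| + 1))) :=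
    mul_le_mul_of_nonneg_left h2 h3
  refine h4.trans ?_
  rw [mul_div_assoc', div_le_div_iff₀ (by positivity) (by norm_num)]
  nlinarith

theorem hRecL (h1 : StComp) (h2 : Pool.Agent.Helper60.GP.StBu) (h3 : Pool.Agent.Helper60.GP.StRatio) : StRecL := by
  intro s s' c u hs hs' hL hU ε hε M
  have hs0 : 0 < s' := hs.trans_le hs'
  have hρ : 0 < s' / s := by positivity
  set δ : ℝ := ε / (4 * (s' / s + 1)) with hδ
  have hδ0 : 0 < δ := by positivity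
  obtain ⟨M₁, z₀, h⟩ := setup_O4 (M := M)
    (ε := min 1 (ε / (2 * (|c - u| + 1)))) h3 hs hs' (by positivity)
    (P := fun M z D => LoO M z D (c - δ)) (Q := fun M z D => UpO M z D (u + δ))
    (hL δ hδ0) (hU δ hδ0)
  refine ⟨z₀, fun z hz D hD => ?_⟩
  obtain ⟨z₁, hz1, ⟨lam₀, w0, p0, m0⟩, hQ, hr⟩ := h z hz D hD
  choose! laml wl pl ml using hQ
  obtain ⟨lam, w, e1, e2⟩ := h1 z₁ z D lam₀ laml hz1 w0 wl
  refine ⟨lam, w, ?_, ?_⟩
  · intro n hn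
    rw [split_O4 h2 hz1, e1 n hn]
    have a1 := p0 n hn
    have a2 : ∑ l ∈ (PO z \ PO z₁).filter (fun l => l ∣ n), ro l n ≤
        ∑ l ∈ (PO z \ PO z₁).filter (fun l => l ∣ n), ∑ m ∈ n.divisors, laml l m :=
      sum_le_sum fun l hl => pl l (mem_filter.1 hl).1 n hn
    linarith
  · intro N hN hN1 hNM
    obtain ⟨c1, c2, c3⟩ := hr N hN hN1 hNM
    have hV := Pool.Agent.Helper60.GP.VV_pos_R3 hN z
    have m0 := m0 N hN hN1 c1
    have a1 : ∑ j ∈ PP N z \ PP N z₁, 1 / ((j : ℝ) - 1) * MN N (D / j) (laml j) ≤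
        ∑ j ∈ PP N z \ PP N z₁, 1 / ((j : ℝ) - 1) * ((u + δ) * VV N j) :=
      sum_le_sum fun j hj => mul_le_mul_of_nonneg_left
        (ml j (sub_O4 hN hj) N hN hN1 (c2 j (sub_O4 hN hj)))
        (Pool.Agent.Helper60.GP.inv_nonneg_R3 hj)
    have a2 : ∑ j ∈ PP N z \ PP N z₁, 1 / ((j : ℝ) - 1) * ((u + δ) * VV N j) =
        (u + δ) * (VV N z₁ - VV N z) := by
      rw [← Pool.Agent.Helper60.GP.VV_split_R3 h2 hz1, mul_sum]
      exact sum_congr rfl fun j _ => by ring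
    rw [a2] at a1
    obtain ⟨b1, b2⟩ := fin_O4 hs hε c3
    set R := VV N z₁ / VV N z with hR
    have e3 : VV N z₁ = R * VV N z := by
      rw [hR, div_mul_cancel₀ _ hV.ne']
    rw [e3] at a1 m0
    rw [e2 N hN]
    have b4 := (abs_le.1 b1).1
    have b7 : δ * (2 * (s' / s + 1)) = ε / 2 := by
      rw [hδ]
      field_simp
      ring
    have b8 : δ * R ≤ δ * (s' / s + 1) := mul_le_mul_of_nonneg_left b2 hδ0.le
    have b5 : (s' * c - (s' - s) * u) / s - ε ≤ (c - δ) * R - (u + δ) * (R - 1) := by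
      nlinarith
    have b6 := mul_le_mul_of_nonneg_right b5 hV.le
    nlinarith

end Pool.Agent.Helper60.PT
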