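import Pool.Agent.Helper60.PT.St
import Pool.Agent.Helper60.GP.M_E1

/-! Project PT (MP_b454d1_nt), module P1 -/

set_option autoImplicit false

namespace Pool.Agent.Helper60.PT

open Finset ArithmeticFunction
open Pool.Agent.Helper60.GP (PP VV rg IsB JJ II Err an T0 Tq SS)
open Pool.Agent.Helper15.AB (Th ee)
open Pool.Agent.Helper23.GK (cR)

namespace PTP1

theorem VV_anti {N : ℕ} (hN : Even N) {z z' : ℝ} (h : z ≤ z') : VV N z' ≤ VV N z := by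
  have hsub : PP N z ⊆ PP N z' := by
    intro p hp
    unfold PP at hp ⊢
    rw [mem_filter, mem_range] at hp ⊢
    exact ⟨hp.1.trans_le (Nat.ceil_le_ceil h), hp.2⟩
  have hfac : ∀ p ∈ PP N z', 0 ≤ 1 - 1 / ((p : ℝ) - 1) ∧ 1 - 1 / ((p : ℝ) - 1) ≤ 1 := by
    intro p hp
    unfold PP at hp
    rw [mem_filter] at hp
    have h2 : p ≠ 2 := by
      rintro rfl
      exact hp.2.2 hN.two_dvd
    have h3 : 3 ≤ p := by
      have := hp.2.1.two_le
      omega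
    have h4 : (3 : ℝ) ≤ p := by exact_mod_cast h3
    constructor
    · rw [sub_nonneg, div_le_one (by linarith)]
      linarith
    · have : 0 ≤ 1 / ((p : ℝ) - 1) := div_nonneg zero_le_one (by linarith)
      linarith
  unfold VV
  rw [← prod_sdiff hsub]
  refine mul_le_of_le_one_left (prod_nonneg fun p hp => (hfac p (hsub hp)).1) ?_
  exact prod_le_one (fun p hp => (hfac p (mem_sdiff.1 hp).1).1)
    fun p hp => (hfac p (mem_sdiff.1 hp).1).2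

theorem ro_le {N : ℕ} (hN : Even N) (z : ℝ) (n : ℕ) : ro z n ≤ rg N z n := by
  classical
  unfold ro rg
  by_cases h : ∀ p ∈ PO z, ¬ p ∣ n
  · have h2 : ∀ p ∈ PP N z, ¬ p ∣ n := by
      intro p hp
      refine h p ?_
      unfold PP at hp
      unfold PO
      rw [mem_filter] at hp ⊢
      refine ⟨hp.1, hp.2.1, ?_⟩
      rintro rfl
      exact hp.2.2 hN.two_dvd
    rw [if_pos h, if_pos h2]
  · rw [if_neg h]
    split_ifs <;> norm_num

theorem low {ω : ℝ → ℝ} (hω : IsB ω) {x z E : ℝ} {N : ℕ} {lam : ℕ → ℝ} (hx : 0 < x)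
    (h3 : 3 * x < N) (hlam : ∀ n : ℕ, 1 ≤ n → ∑ m ∈ n.divisors, lam m ≤ rg N z n)
    (hE : ∑ n ∈ II x, (wn ω x n - an ω x N n) ≤ E) :
    (∑ n ∈ II x, wn ω x n * ∑ m ∈ (N - n).divisors, lam m) - E ≤ T0 ω x N z :=
  GP.GPE1.low hω hx h3 hlam hE

theorem asym {a u c₁ J ε z₀ x₀ : ℝ} (ha : 0 < a) (hu : 0 < u) (hc : 0 < c₁) (hJ : 0 < J)
    (hε : 0 < ε) :
    ∀ᶠ Y : ℝ in Filter.atTop, 3 * (a * √Y) < Y ∧ x₀ ≤ a * √Y ∧ z₀ ≤ Y ^ u ∧
      √Y / Real.log Y ^ 2 ≤ ε / 6 * (c₁ / Real.log Y) * (J * (a * √Y)) ∧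
      Y ^ ((9 : ℝ) / 20) ≤ ε / 6 * (c₁ / Real.log Y) * (J * (a * √Y)) := by
  have e1 : Filter.Tendsto (fun Y : ℝ => √Y) Filter.atTop Filter.atTop := Real.tendsto_sqrt_atTop
  have e2 : Filter.Tendsto (fun Y : ℝ => Y ^ u) Filter.atTop Filter.atTop :=
    tendsto_rpow_atTop hu
  have hδ : 0 < ε / 6 * c₁ * J * a := by positivity
  have e3 := (isLittleO_log_rpow_atTop (r := (1 / 20 : ℝ)) (by norm_num)).bound
    (c := ε / 6 * c₁ * J * a) hδ
  filter_upwards [e1.eventually_gt_atTop (3 * a), e1.eventually_ge_atTop (x₀ / a),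
    e2.eventually_ge_atTop z₀, e3, Filter.eventually_gt_atTop (1 : ℝ),
    Real.tendsto_log_atTop.eventually_ge_atTop (1 / (ε / 6 * c₁ * J * a))]
    with Y h1 h2 h3 h4 h5 h6
  have hY0 : 0 < Y := by linarith
  have hs : √Y * √Y = Y := Real.mul_self_sqrt hY0.le
  have hs0 : 0 < √Y := Real.sqrt_pos.2 hY0
  have hl0 : 0 < Real.log Y := Real.log_pos h5
  refine ⟨?_, ?_, h3, ?_, ?_⟩
  · calc 3 * (a * √Y) = (3 * a) * √Y := by ring
      _ < √Y * √Y := mul_lt_mul_of_pos_right h1 hs0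
      _ = Y := hs
  · rw [div_le_iff₀ ha] at h2
    linarith
  · rw [div_le_iff₀ (by positivity)]
    have h7 : 1 ≤ ε / 6 * c₁ * J * a * Real.log Y := by
      rw [div_le_iff₀ hδ] at h6
      linarith
    have h8 : ε / 6 * (c₁ / Real.log Y) * (J * (a * √Y)) * Real.log Y ^ 2 =
        (ε / 6 * c₁ * J * a * Real.log Y) * √Y := by
      field_simp
    rw [h8]
    exact le_mul_of_one_le_left hs0.le h7
  · rw [Real.norm_eq_abs, Real.norm_eq_abs, abs_of_nonneg (Real.rpow_nonneg hY0.le _)] at h4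
    have h9 : √Y = Y ^ ((9 : ℝ) / 20) * Y ^ (1 / 20 : ℝ) := by
      rw [← Real.rpow_add hY0, Real.sqrt_eq_rpow]
      congr 1
      norm_num
    have h8 : ε / 6 * (c₁ / Real.log Y) * (J * (a * √Y)) =
        (ε / 6 * c₁ * J * a * Y ^ (1 / 20 : ℝ) / Real.log Y) * Y ^ ((9 : ℝ) / 20) := by
      rw [h9]
      ring
    rw [h8]
    refine le_mul_of_one_le_left (Real.rpow_nonneg hY0.le _) ?_
    rw [le_div_iff₀ hl0, one_mul]
    exact (le_abs_self _).trans h4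

end PTP1

theorem hLow (h1 : StLD) (h2 : StNPY) (h3 : Pool.Agent.Helper60.GP.StPNT) (h4 : Pool.Agent.Helper60.GP.StVlow)
    (h5 : Pool.Agent.Helper15.AB.StDB) : StLow := by
  intro s c hVL ω hω hJ a u lev η ha hu hs hus hη hη2 ε hε
  obtain ⟨c₁, hc₁, N₁, hV⟩ := h4 u hu
  obtain ⟨z₀, hz₀⟩ := hVL (ε / 3) (by positivity) (2 / u)
  obtain ⟨Y₁, hNP⟩ := h2 ω hω a ha
  have hlev : 0 < lev := lt_of_lt_of_le (by positivity) hus
  obtain ⟨Y₂, hLD⟩ := h1 ω hω a lev η ha hlev hη hη2 2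
  obtain ⟨ε₂, hε₂⟩ : ∃ e : ℝ, e = ε / 3 * JJ ω / (|c - ε / 3| + 1) := ⟨_, rfl⟩
  have hε₂0 : 0 < ε₂ := by rw [hε₂]; positivity
  have hε₂' : |c - ε / 3| * ε₂ ≤ ε / 3 * JJ ω := by
    rw [hε₂, mul_div_assoc', div_le_iff₀ (by positivity)]
    have : 0 < ε / 3 * JJ ω := by positivity
    linarith
  obtain ⟨x₂, hPNT⟩ := h3 ω hω ε₂ hε₂0
  have hc2 : 0 < c₁ / 2 := by positivity
  have hev := PTP1.asym (z₀ := z₀) (x₀ := x₂) ha hu hc2 hJ hε
  obtain ⟨Y₃, hY₃⟩ := Filter.eventually_atTop.1 (hev.and ((Filter.eventually_ge_atTop Y₁).and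
    ((Filter.eventually_ge_atTop Y₂).and ((Filter.eventually_ge_atTop (N₁ : ℝ)).and
      (Filter.eventually_ge_atTop (2 : ℝ))))))
  refine ⟨Y₃, fun Y hY => ?_⟩
  obtain ⟨⟨a1, a2, a3, a4, a5⟩, g1, g2, g3, g4⟩ := hY₃ Y hY
  have hY0 : 0 < Y := by linarith
  have hD : (Y ^ u) ^ s ≤ Y ^ lev := by
    rw [← Real.rpow_mul hY0.le]
    exact Real.rpow_le_rpow_of_exponent_le (by linarith) hus
  obtain ⟨lam, hw, hl, hm⟩ := hz₀ (Y ^ u) a3 (Y ^ lev) hD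
  have hxi : IsXi (Y ^ lev) lam :=
    ⟨hw.bound, fun d hd => ⟨(hw.supp d hd).1, (hw.supp d hd).2.1⟩⟩
  obtain ⟨E, hEc, hE⟩ := hLD Y g2 lam hxi
  refine ⟨E, hEc, fun N hNe hN1 hN2 hNE => ?_⟩
  have hdist := hE N hN1 hN2 hNE
  have hnp := hNP Y g1 N hN1 hN2
  have hNpos : (0 : ℝ) < N := by linarith
  have hN1' : 1 ≤ N := by
    have : (1 : ℝ) ≤ N := by linarith
    exact_mod_cast this
  have hNN : N₁ ≤ N := by
    have : (N₁ : ℝ) ≤ N := g3.trans hN1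
    exact_mod_cast this
  have hzM : (N : ℝ) ≤ (Y ^ u) ^ (2 / u) := by
    rw [← Real.rpow_mul hY0.le, mul_div_cancel₀ _ hu.ne']
    have : Y ^ (2 : ℝ) = Y * Y := by
      rw [Real.rpow_two]
      ring
    rw [this]
    nlinarith
  have hmN := hm N hNe hN1' hzM
  obtain ⟨x, hx⟩ : ∃ x : ℝ, x = a * √Y := ⟨_, rfl⟩
  rw [← hx] at a1 a2 a4 a5 hdist hnp ⊢
  have hx0 : 0 < x := by
    rw [hx]
    have := Real.sqrt_pos.2 hY0
    positivity
  have hlY : 0 < Real.log Y := Real.log_pos (by linarith)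
  have hlN : 0 < Real.log N := Real.log_pos (by linarith)
  have hlog : Real.log N ≤ 2 * Real.log Y := by
    have h6 : (N : ℝ) ≤ Y ^ 2 := by nlinarith
    calc Real.log N ≤ Real.log (Y ^ 2) := Real.log_le_log hNpos h6
      _ = 2 * Real.log Y := by rw [Real.log_pow]; norm_num
  have hVV : c₁ / 2 / Real.log Y ≤ VV N (Y ^ u) := by
    have h7 := hV N hNN hNe
    have h8 : VV N ((N : ℝ) ^ u) ≤ VV N (Y ^ u) :=
      PTP1.VV_anti hNe (Real.rpow_le_rpow hY0.le hN1 hu.le)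
    refine le_trans ?_ (h7.trans h8)
    rw [div_div]
    have hSS := GP.GPS7.SS_ge N
    rw [div_le_div_iff₀ (by positivity) hlN]
    nlinarith [mul_le_mul_of_nonneg_left hlog hc₁.le, mul_nonneg hc₁.le hlY.le,
      mul_le_mul_of_nonneg_left hSS (mul_nonneg hc₁.le hlY.le)]
  have hlow := PTP1.low (z := Y ^ u) hω hx0 (by linarith)
    (fun n hn => (hl n hn).trans (PTP1.ro_le hNe _ n)) hnp
  have hTH0 : 0 ≤ Th ω x :=
    Finset.sum_nonneg fun n _ => mul_nonneg vonMangoldt_nonneg (hω.nonneg _)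
  have hfin := GP.GPE1.fin (E := √Y / Real.log Y ^ 2) (F := Y ^ ((9 : ℝ) / 20)) hx0 hJ hε hc2 hlY
    hVV hTH0 (hPNT x a2) hmN hε₂' a4 a5
  have hd := (abs_le.1 hdist).1
  linarith

end Pool.Agent.Helper60.PT
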