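import Pool.Agent.Helper60.PT.St

/-! Project PT (MP_b454d1_nt), module P3 -/

set_option autoImplicit false

namespace Pool.Agent.Helper60.PT

open Finset ArithmeticFunction
open Pool.Agent.Helper60.GP (PP VV rg IsB JJ II Err an T0 Tq SS)
open Pool.Agent.Helper15.AB (Th ee)
open Pool.Agent.Helper23.GK (cR)

/-- the sum of `log p / p` over a window -/
theorem win_P3 {C : ℝ} (hC : ∀ x : ℝ, 1 ≤ x →
    |∑ p ∈ (Icc 1 ⌊x⌋₊).filter Nat.Prime, Real.log p / p - Real.log x| ≤ C) {x y : ℝ}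
    (hx : 1 ≤ x) (hy : 1 ≤ y) :
    Real.log y - Real.log x - (2 * C + 1) ≤
      ∑ p ∈ (range ⌈y⌉₊).filter (fun p : ℕ => p.Prime ∧ x ≤ p), Real.log p / p := by
  have hnn : ∀ p : ℕ, 0 ≤ Real.log p / p := fun p =>
    div_nonneg (Real.log_natCast_nonneg p) (Nat.cast_nonneg p)
  have hsub : (Icc 1 ⌊y⌋₊).filter Nat.Prime ⊆ ((Icc 1 ⌊x⌋₊).filter Nat.Prime ∪
      (range ⌈y⌉₊).filter (fun p : ℕ => p.Prime ∧ x ≤ p)) ∪ {⌊y⌋₊} := by
    intro p hp
    rw [mem_filter, mem_Icc] at hp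
    obtain ⟨⟨h1, h2⟩, h3⟩ := hp
    rw [mem_union, mem_union, mem_filter, mem_filter, mem_Icc, mem_range, mem_singleton]
    rcases h2.lt_or_eq with h4 | h4
    · left
      rcases le_or_gt x p with h5 | h5
      · right
        exact ⟨h4.trans_le (Nat.floor_le_ceil y), h3, h5⟩
      · left
        exact ⟨⟨h1, Nat.le_floor h5.le⟩, h3⟩
    · right
      exact h4
  have hle : ∀ A B : Finset ℕ, ∑ p ∈ A ∪ B, Real.log p / p ≤
      ∑ p ∈ A, Real.log p / p + ∑ p ∈ B, Real.log (p : ℝ) / p := by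
    intro A B
    rw [← sum_union_inter]
    exact le_add_of_nonneg_right (sum_nonneg fun p _ => hnn p)
  have h1 := sum_le_sum_of_subset_of_nonneg hsub (f := fun p : ℕ => Real.log p / p)
    (fun p _ _ => hnn p)
  have h2 := hle ((Icc 1 ⌊x⌋₊).filter Nat.Prime ∪
      (range ⌈y⌉₊).filter (fun p : ℕ => p.Prime ∧ x ≤ p)) {⌊y⌋₊}
  have h3 := hle ((Icc 1 ⌊x⌋₊).filter Nat.Prime)
    ((range ⌈y⌉₊).filter (fun p : ℕ => p.Prime ∧ x ≤ p))
  have h4 : ∑ p ∈ ({⌊y⌋₊} : Finset ℕ), Real.log (p : ℝ) / p ≤ 1 := by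
    rw [sum_singleton]
    have hpos : (0 : ℝ) < (⌊y⌋₊ : ℝ) := by
      have : 1 ≤ ⌊y⌋₊ := Nat.le_floor (by exact_mod_cast hy)
      exact_mod_cast this
    rw [div_le_one hpos]
    have := Real.log_le_sub_one_of_pos hpos
    linarith
  have h5 := (abs_le.1 (hC x hx)).2
  have h6 := (abs_le.1 (hC y hy)).1
  linarith

theorem hSumY (h1 : Pool.Agent.Helper60.GP.StM1) (h2 : Pool.Agent.Helper60.GP.StM2) : StSumY := by
  intro s t v hs hst htv ε hε
  obtain ⟨C, hC⟩ := h1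
  obtain ⟨z₀, hz₀⟩ := h2 s t hs hst.le (ε / 3) (by positivity)
  have ht : 0 < t := hs.trans hst
  have hv : 0 < v := ht.trans_le htv
  obtain ⟨L, hL⟩ : ∃ L, L = Real.log (t / s) := ⟨_, rfl⟩
  have hlog : Filter.Tendsto (fun N : ℝ => v * Real.log N) Filter.atTop Filter.atTop :=
    Real.tendsto_log_atTop.const_mul_atTop hv
  have hpow : Filter.Tendsto (fun N : ℝ => (N : ℝ) ^ s) Filter.atTop Filter.atTop :=
    tendsto_rpow_atTop hs
  have ev1 : ∀ᶠ N : ℝ in Filter.atTop, (2 * C + 1) / (v * Real.log N) ≤ ε / 3 :=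
    (Filter.Tendsto.div_atTop tendsto_const_nhds hlog).eventually_le_const (by positivity)
  have ev2 : ∀ᶠ N : ℝ in Filter.atTop, (L + ε / 3) / ((N : ℝ) ^ s - 1) ≤ ε / 3 :=
    (Filter.Tendsto.div_atTop tendsto_const_nhds
      (Filter.tendsto_atTop_add_const_right _ (-1 : ℝ) hpow)).eventually_le_const (by positivity)
  have ev3 : ∀ᶠ N : ℝ in Filter.atTop, z₀ ≤ (N : ℝ) :=
    Filter.eventually_ge_atTop z₀
  have ev4 : ∀ᶠ N : ℝ in Filter.atTop, (2 : ℝ) ≤ (N : ℝ) ^ s := hpow.eventually_ge_atTop 2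
  obtain ⟨N₀, hN₀⟩ := Filter.eventually_atTop.1
    (ev1.and (ev2.and (ev3.and (ev4.and (Filter.eventually_ge_atTop 3)))))
  refine ⟨N₀, fun N hN => ?_⟩
  obtain ⟨a1, a2, a3, a4, a5⟩ := hN₀ N hN
  have hN1 : (1 : ℝ) < N := by linarith
  have hN0 : (0 : ℝ) < N := by linarith
  have hlN : 0 < Real.log N := Real.log_pos hN1
  obtain ⟨W, hW⟩ : ∃ W, W = (range ⌈(N : ℝ) ^ t⌉₊).filter
      (fun p : ℕ => p.Prime ∧ (N : ℝ) ^ s ≤ p) := ⟨_, rfl⟩
  have hz := hz₀ N a3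
  rw [← hW, ← hL] at hz
  have hz2 := (abs_le.1 hz).2
  have hwin := win_P3 hC (x := (N : ℝ) ^ s) (y := (N : ℝ) ^ t) (by linarith)
    (Real.one_le_rpow hN1.le ht.le)
  rw [← hW, Real.log_rpow hN0, Real.log_rpow hN0] at hwin
  have hmem : ∀ q ∈ W, (N : ℝ) ^ s ≤ q ∧ Real.log q ≤ v * Real.log N := by
    intro q hq
    rw [hW, mem_filter, mem_range] at hq
    obtain ⟨b1, b2, b3⟩ := hq
    refine ⟨b3, ?_⟩
    have b4 : (q : ℝ) < (N : ℝ) ^ t := Nat.lt_ceil.1 b1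
    have hq0 : (0 : ℝ) < q := by linarith
    have b5 := Real.log_le_log hq0 b4.le
    rw [Real.log_rpow hN0] at b5
    exact b5.trans (mul_le_mul_of_nonneg_right htv hlN.le)
  have hf : ∀ q ∈ W, 0 ≤ 1 - Real.log q / (v * Real.log N) ∧
      1 - Real.log q / (v * Real.log N) ≤ 1 := by
    intro q hq
    have hpos : 0 < v * Real.log N := by positivity
    refine ⟨?_, ?_⟩
    · rw [sub_nonneg, div_le_one hpos]
      exact (hmem q hq).2
    · have : 0 ≤ Real.log q / (v * Real.log N) :=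
        div_nonneg (Real.log_natCast_nonneg q) hpos.le
      linarith
  have hsub : PY N s t = W := by
    rw [hW]
    rfl
  have hNs : 0 < (N : ℝ) ^ s - 1 := by linarith
  have e2 : ∑ q ∈ W, (1 - Real.log q / (v * Real.log N)) / ((q : ℝ) - 1) ≤
      ∑ q ∈ W, ((1 : ℝ) / q - 1 / (v * Real.log N) * (Real.log q / q) +
        1 / ((N : ℝ) ^ s - 1) * (1 / q)) := by
    refine sum_le_sum fun q hq => ?_
    obtain ⟨b1, -⟩ := hmem q hq
    obtain ⟨c1, c2⟩ := hf q hq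
    have hq1 : (0 : ℝ) < (q : ℝ) - 1 := by linarith
    have hq0 : (0 : ℝ) < q := by linarith
    have d1 : (1 : ℝ) / ((q : ℝ) - 1) ≤ 1 / ((N : ℝ) ^ s - 1) :=
      one_div_le_one_div_of_le hNs (by linarith)
    have d2 : (1 - Real.log q / (v * Real.log N)) / ((q : ℝ) - 1) =
        (1 - Real.log q / (v * Real.log N)) * (1 / q) +
          (1 - Real.log q / (v * Real.log N)) * (1 / ((q : ℝ) - 1)) * (1 / q) := by
      field_simp
      ring
    have d3 : (1 - Real.log q / (v * Real.log N)) * (1 / ((q : ℝ) - 1)) ≤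
        1 * (1 / ((N : ℝ) ^ s - 1)) := mul_le_mul c2 d1 (by positivity) (by norm_num)
    have d4 : (1 - Real.log q / (v * Real.log N)) * (1 / ((q : ℝ) - 1)) * (1 / q) ≤
        1 * (1 / ((N : ℝ) ^ s - 1)) * (1 / q) := mul_le_mul_of_nonneg_right d3 (by positivity)
    have d5 : (1 - Real.log q / (v * Real.log N)) * (1 / (q : ℝ)) =
        1 / q - 1 / (v * Real.log N) * (Real.log q / q) := by ring
    rw [d2, d5]
    linarith
  rw [sum_add_distrib, sum_sub_distrib, ← mul_sum, ← mul_sum] at e2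
  have e3 : 1 / (v * Real.log N) * (t * Real.log N - s * Real.log N - (2 * C + 1)) ≤
      1 / (v * Real.log N) * ∑ q ∈ W, Real.log q / q :=
    mul_le_mul_of_nonneg_left hwin (by positivity)
  have e4 : 1 / (v * Real.log N) * (t * Real.log N - s * Real.log N - (2 * C + 1)) =
      (t - s) / v - (2 * C + 1) / (v * Real.log N) := by
    field_simp
  have e5 : 1 / ((N : ℝ) ^ s - 1) * ∑ q ∈ W, (1 : ℝ) / q ≤
      1 / ((N : ℝ) ^ s - 1) * (L + ε / 3) :=
    mul_le_mul_of_nonneg_left (by linarith) (by positivity)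
  have e6 : 1 / ((N : ℝ) ^ s - 1) * (L + ε / 3) = (L + ε / 3) / ((N : ℝ) ^ s - 1) := by ring
  rw [← hL, hsub]
  linarith

end Pool.Agent.Helper60.PT
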