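import Pool.Agent.Helper60.PT.St

/-! Project PT (MP_b454d1_nt), module P5 -/

set_option autoImplicit false

namespace Pool.Agent.Helper60.PT

open Finset ArithmeticFunction
open Pool.Agent.Helper60.GP (PP VV rg IsB JJ II Err an T0 Tq SS)
open Pool.Agent.Helper15.AB (Th ee)
open Pool.Agent.Helper23.GK (cR)

namespace PTP5

/-- rational upper bound for `cc v e` -/
def qq (v : ℕ) (e : ℕ × ℕ × ℕ × ℕ) : ℚ :=
  let y : ℚ := ((e.2.1 : ℚ) - e.1) / e.1
  (e.2.2.2 : ℚ) / 10 ^ 8 * (y - y ^ 2 / 2 + y ^ 3 / 3 - ((e.2.1 : ℚ) - e.1) / v)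

theorem log_le (y : ℝ) (hy : 0 ≤ y) : Real.log (1 + y) ≤ y - y ^ 2 / 2 + y ^ 3 / 3 := by
  have h : MonotoneOn (fun y : ℝ => y - y ^ 2 / 2 + y ^ 3 / 3 - Real.log (1 + y)) (Set.Ici 0) := by
    refine monotoneOn_of_deriv_nonneg (convex_Ici 0) ?_ ?_ ?_
    · refine ContinuousOn.sub (by fun_prop) (ContinuousOn.log (by fun_prop) ?_)
      intro x hx
      have := Set.mem_Ici.1 hx
      linarith
    · intro x hx
      rw [interior_Ici] at hx
      have hx' := Set.mem_Ioi.1 hx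
      have : (1 : ℝ) + x ≠ 0 := by linarith
      refine DifferentiableAt.differentiableWithinAt ?_
      exact DifferentiableAt.sub (by fun_prop) (DifferentiableAt.log (by fun_prop) this)
    · intro x hx
      rw [interior_Ici] at hx
      have hx' := Set.mem_Ioi.1 hx
      have h1 : (1 : ℝ) + x ≠ 0 := by linarith
      have h2 : HasDerivAt (fun y : ℝ => y - y ^ 2 / 2 + y ^ 3 / 3 - Real.log (1 + y))
          (1 - (2 : ℕ) * x ^ (2 - 1) / 2 + (3 : ℕ) * x ^ (3 - 1) / 3 - 1 / (1 + x)) x := by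
        exact (((hasDerivAt_id x).sub ((hasDerivAt_pow 2 x).div_const 2)).add
          ((hasDerivAt_pow 3 x).div_const 3)).sub (((hasDerivAt_id x).const_add 1).log h1)
      rw [h2.deriv]
      have h3 : (1 : ℝ) - (2 : ℕ) * x ^ (2 - 1) / 2 + (3 : ℕ) * x ^ (3 - 1) / 3 - 1 / (1 + x) =
          x ^ 3 / (1 + x) := by
        field_simp
        push_cast
        ring
      rw [h3]
      positivity
  have h1 := h (Set.mem_Ici.2 le_rfl) (Set.mem_Ici.2 hy) hy
  simp only [add_zero, Real.log_one] at h1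
  linarith

theorem cc_le (v : ℕ) (e : ℕ × ℕ × ℕ × ℕ) (hs : 0 < e.1) (hst : e.1 ≤ e.2.1) :
    cc v e ≤ (qq v e : ℝ) := by
  have hs0 : (0 : ℝ) < e.1 := by exact_mod_cast hs
  have hst' : (e.1 : ℝ) ≤ e.2.1 := by exact_mod_cast hst
  unfold cc qq
  push_cast
  have h1 : (e.2.1 : ℝ) / e.1 = 1 + ((e.2.1 : ℝ) - e.1) / e.1 := by
    field_simp
    ring
  have h2 := log_le (((e.2.1 : ℝ) - e.1) / e.1) (div_nonneg (by linarith) hs0.le)
  rw [h1]
  refine mul_le_mul_of_nonneg_left ?_ (by positivity)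
  linarith

theorem sum_le (v : ℕ) (cs : List (ℕ × ℕ × ℕ × ℕ)) (B : ℚ)
    (h : ∀ e ∈ cs, 0 < e.1 ∧ e.1 ≤ e.2.1) (hB : (cs.map (qq v)).sum ≤ B) :
    (cs.map (cc v)).sum ≤ (B : ℝ) := by
  have h1 : (cs.map (cc v)).sum ≤ (cs.map (fun e => ((qq v e : ℚ) : ℝ))).sum :=
    List.sum_le_sum fun e he => cc_le v e (h e he).1 (h e he).2
  have h2 : (cs.map (fun e => ((qq v e : ℚ) : ℝ))).sum = (((cs.map (qq v)).sum : ℚ) : ℝ) := by
    rw [Rat.cast_list_sum, List.map_map]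
    rfl
  rw [h2] at h1
  exact h1.trans (by exact_mod_cast hB)

/-- decision procedure for `Ch` -/
def chb (lv v : ℕ) : ℕ → List (ℕ × ℕ × ℕ × ℕ) → Bool
  | s, [] => Nat.beq s v
  | s, e :: es => Nat.beq e.1 s && Nat.blt s e.2.1 && Nat.ble e.2.1 v &&
      Nat.ble (e.2.1 + 35 * e.2.2.1) lv && Nat.blt 0 e.2.2.1 && chb lv v e.2.1 es

theorem chb_ok (lv v : ℕ) : ∀ (cs : List (ℕ × ℕ × ℕ × ℕ)) (s : ℕ), chb lv v s cs = true →
    Ch lv v s cs := by
  intro cs
  induction cs with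
  | nil =>
    intro s h
    rw [chb] at h
    exact Nat.eq_of_beq_eq_true h
  | cons e es ih =>
    intro s h
    rw [chb, Bool.and_eq_true, Bool.and_eq_true, Bool.and_eq_true, Bool.and_eq_true,
      Bool.and_eq_true] at h
    obtain ⟨⟨⟨⟨⟨h1, h2⟩, h3⟩, h4⟩, h5⟩, h6⟩ := h
    refine ⟨Nat.eq_of_beq_eq_true h1, ?_, Nat.le_of_ble_eq_true h3, Nat.le_of_ble_eq_true h4, ?_,
      ih _ h6⟩
    · exact Nat.le_of_ble_eq_true h2
    · exact Nat.le_of_ble_eq_true h5

end PTP5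

open PTP5 in
theorem hNum : StNum := by
  refine ⟨chb_ok _ _ _ _ (by decide +kernel), chb_ok _ _ _ _ (by decide +kernel), ?_, ?_⟩
  · have h := sum_le 5080 cells2 (1006 / 1000) (by decide +kernel) (by decide +kernel)
    refine h.trans (le_of_eq ?_)
    norm_num
  · have h := sum_le 4000 cells3 (81 / 100) (by decide +kernel) (by decide +kernel)
    refine h.trans (le_of_eq ?_)
    norm_num

end Pool.Agent.Helper60.PT
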