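import Pool.Agent.Helper60.PT.St

/-! Project PT (MP_b454d1_nt), module P6 -/

set_option autoImplicit false

namespace Pool.Agent.Helper60.PT

open Finset ArithmeticFunction
open Pool.Agent.Helper60.GP (PP VV rg IsB JJ II Err an T0 Tq SS)
open Pool.Agent.Helper15.AB (Th ee)
open Pool.Agent.Helper23.GK (cR)

theorem hRich : StRich := by
  intro r v lam hv hlam hr
  -- choose `Y₀` so that `log 2 / (v log Y)` is smaller than the margin
  set δ : ℝ := r + 1 - (1 / lam + 1 / v) with hδ
  have hδ0 : 0 < δ := by rw [hδ]; linarith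
  refine ⟨Real.exp (1 + Real.log 2 / (v * δ)), fun Y hY m S hm hmY hsq hS1 hS2 hpos => ?_⟩
  have hl2 : 0 < Real.log 2 := Real.log_pos one_lt_two
  have hYpos : 0 < Y := (Real.exp_pos _).trans_le hY
  have hlY : 1 + Real.log 2 / (v * δ) ≤ Real.log Y := by
    rw [Real.le_log_iff_exp_le hYpos]; exact hY
  have hq0 : 0 < Real.log 2 / (v * δ) := by positivity
  have hlY0 : 0 < Real.log Y := by linarith
  have h20 : Real.log 2 / (v * Real.log Y) < δ := by
    rw [div_lt_iff₀ (by positivity)]
    have h1 : Real.log 2 / (v * δ) < Real.log Y := by linarith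
    rw [div_lt_iff₀ (by positivity)] at h1
    calc Real.log 2 < Real.log Y * (v * δ) := h1
      _ = δ * (v * Real.log Y) := by ring
  by_contra hcard
  have h5 : r + 1 ≤ m.primeFactors.card := by omega
  have hm0 : (0 : ℝ) < m := by exact_mod_cast hm
  have hlm : Real.log m = ∑ q ∈ m.primeFactors, Real.log q := by
    conv_lhs => rw [← Nat.prod_primeFactors_of_squarefree hsq]
    push_cast
    rw [Real.log_prod]
    intro q hq
    exact_mod_cast (Nat.prime_of_mem_primeFactors hq).ne_zero
  have hlmN : Real.log m ≤ Real.log 2 + Real.log Y := by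
    rw [← Real.log_mul (by norm_num) hYpos.ne']
    exact Real.log_le_log hm0 hmY
  have hSsub : S ⊆ m.primeFactors := by
    intro q hq
    obtain ⟨h1, h2, -⟩ := hS2 q hq
    exact Nat.mem_primeFactors.2 ⟨h1, h2, by omega⟩
  have h1 : ∑ q ∈ m.primeFactors, (1 - Real.log q / (v * Real.log Y)) ≤
      ∑ q ∈ S, (1 - Real.log q / (v * Real.log Y)) := by
    rw [← Finset.sum_sdiff hSsub]
    have h2 : ∑ q ∈ m.primeFactors \ S, (1 - Real.log q / (v * Real.log Y)) ≤ 0 := by
      refine Finset.sum_nonpos fun q hq => ?_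
      obtain ⟨hq1, hq2⟩ := mem_sdiff.1 hq
      have hqp := Nat.prime_of_mem_primeFactors hq1
      have hqm := Nat.dvd_of_mem_primeFactors hq1
      have h3 : Y ^ v ≤ q := by
        by_contra h4
        exact hq2 (hS1 q hqp hqm (not_le.1 h4))
      have h4 : v * Real.log Y ≤ Real.log q := by
        rw [← Real.log_rpow hYpos]
        exact Real.log_le_log (Real.rpow_pos_of_pos hYpos _) h3
      rw [sub_nonpos, le_div_iff₀ (by positivity), one_mul]
      exact h4
    linarith
  have h2 : ∑ q ∈ m.primeFactors, (1 - Real.log q / (v * Real.log Y)) =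
      m.primeFactors.card - Real.log m / (v * Real.log Y) := by
    rw [Finset.sum_sub_distrib, Finset.sum_const, nsmul_eq_mul, mul_one, hlm, Finset.sum_div]
  have h3 : Real.log m / (v * Real.log Y) < δ + 1 / v := by
    have h6 : Real.log m / (v * Real.log Y) ≤ (Real.log 2 + Real.log Y) / (v * Real.log Y) :=
      div_le_div_of_nonneg_right hlmN (by positivity)
    have h7 : (Real.log 2 + Real.log Y) / (v * Real.log Y) =
        Real.log 2 / (v * Real.log Y) + 1 / v := by
      rw [add_div]
      congr 1
      field_simp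
    rw [h7] at h6
    linarith
  have h4 : (r : ℝ) + 1 ≤ m.primeFactors.card := by exact_mod_cast h5
  rw [h2] at h1
  have h8 : ∑ q ∈ S, (1 - Real.log q / (v * Real.log Y)) < 1 / lam := by
    rw [lt_div_iff₀ hlam]
    linarith
  linarith

end Pool.Agent.Helper60.PT
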