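import Pool.Agent.Helper60.PT.St

/-! Project PT (MP_b454d1_nt), module P7 -/

set_option autoImplicit false

namespace Pool.Agent.Helper60.PT

open Finset ArithmeticFunction
open Pool.Agent.Helper60.GP (PP VV rg IsB JJ II Err an T0 Tq SS)
open Pool.Agent.Helper15.AB (Th ee)
open Pool.Agent.Helper23.GK (cR)

namespace PTP7

theorem mem_PP {N : ℕ} {z : ℝ} {p : ℕ} : p ∈ PP N z ↔ (p : ℝ) < z ∧ p.Prime ∧ ¬ p ∣ N := by
  unfold PP
  rw [mem_filter, mem_range, Nat.lt_ceil]

theorem mem_PY {Y s t : ℝ} {q : ℕ} :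
    q ∈ PY Y s t ↔ (q : ℝ) < Y ^ t ∧ q.Prime ∧ Y ^ s ≤ q := by
  unfold PY
  rw [mem_filter, mem_range, Nat.lt_ceil]

open Classical in
/-- exchange of the sums -/
theorem swap (ω : ℝ → ℝ) (x lam : ℝ) (N : ℕ) (z : ℝ) (P : Finset ℕ) (w : ℕ → ℝ) :
    T0 ω x N z - lam * ∑ q ∈ P, w q * Tq ω x N z q =
      ∑ n ∈ II x, an ω x N n * rg N z (N - n) *
        (1 - lam * ∑ q ∈ P.filter (fun q => q ∣ N - n), w q) := by
  have h1 : ∑ q ∈ P, w q * Tq ω x N z q =
      ∑ n ∈ II x, an ω x N n * rg N z (N - n) * ∑ q ∈ P.filter (fun q => q ∣ N - n), w q := by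
    have h2 : ∀ q ∈ P, w q * Tq ω x N z q =
        ∑ n ∈ II x, if q ∣ N - n then an ω x N n * rg N z (N - n) * w q else 0 := by
      intro q _
      rw [Tq, sum_filter, mul_sum]
      refine sum_congr rfl fun n _ => ?_
      split_ifs
      · ring
      · ring
    rw [sum_congr rfl h2, sum_comm]
    refine sum_congr rfl fun n _ => ?_
    rw [sum_filter, mul_sum]
    refine sum_congr rfl fun q _ => ?_
    split_ifs <;> simp
  rw [h1, T0, mul_sum, ← sum_sub_distrib]
  refine sum_congr rfl fun n _ => ?_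
  ring

end PTP7

open PTP7 in
open Classical in
theorem hRA (h1 : StRich) (h2 : Pool.Agent.Helper60.GP.StSq) : StRA := by
  intro r v lam hv hlam hrv ω hω α β a κ hα hκ hκ1 ha haβ hsupp
  have hk1 : (1 : ℝ) ≤ √(1 + κ) := by
    rw [show (1 : ℝ) = √1 by simp]
    apply Real.sqrt_le_sqrt
    rw [Real.sqrt_one]
    linarith
  have ha0 : 0 < a := by rw [ha]; positivity
  obtain ⟨N₁, hN₁⟩ := h2 a (1 / 10) ha0 (by norm_num) le_rfl
  obtain ⟨Y₁, hY₁⟩ := h1 r v lam (by linarith) hlam hrv
  -- the conditions on `Y`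
  have hev1 : ∀ᶠ Y : ℝ in Filter.atTop, 3 * (a * √Y) < Y := by
    filter_upwards [Real.tendsto_sqrt_atTop.eventually_gt_atTop (3 * a),
      Filter.eventually_gt_atTop 0] with Y hY hY0
    have h4 : (0 : ℝ) < √Y := Real.sqrt_pos.2 hY0
    calc 3 * (a * √Y) = (3 * a) * √Y := by ring
      _ < √Y * √Y := by gcongr
      _ = Y := Real.mul_self_sqrt (by positivity)
  have hev2 : ∀ᶠ Y : ℝ in Filter.atTop, (2 * Y) ^ ((45 : ℝ) / 100) * Real.log (2 * Y) ≤
      Y ^ ((49 : ℝ) / 100) := by
    have h3 := (isLittleO_log_rpow_atTop (r := (1 / 100 : ℝ)) (by norm_num)).bound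
      (c := 1) one_pos
    have h2t : Filter.Tendsto (fun Y : ℝ => 2 * Y) Filter.atTop Filter.atTop :=
      Filter.tendsto_id.const_mul_atTop (by norm_num : (0 : ℝ) < 2)
    have h4 := h2t.eventually h3
    have h5 := (tendsto_rpow_atTop (show (0 : ℝ) < 3 / 100 by norm_num)).eventually_ge_atTop 2
    filter_upwards [h4, h5, Filter.eventually_gt_atTop 0] with Y hY hY2 hY0
    rw [one_mul, Real.norm_eq_abs, Real.norm_eq_abs,
      abs_of_nonneg (Real.rpow_nonneg (by positivity) _)] at hY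
    calc (2 * Y) ^ ((45 : ℝ) / 100) * Real.log (2 * Y) ≤
          (2 * Y) ^ ((45 : ℝ) / 100) * (2 * Y) ^ (1 / 100 : ℝ) :=
          mul_le_mul_of_nonneg_left ((le_abs_self _).trans hY) (Real.rpow_nonneg (by positivity) _)
      _ = (2 * Y) ^ ((46 : ℝ) / 100) := by
          rw [← Real.rpow_add (by positivity)]; congr 1; norm_num
      _ = 2 ^ ((46 : ℝ) / 100) * Y ^ ((46 : ℝ) / 100) := Real.mul_rpow (by norm_num) hY0.le
      _ ≤ 2 ^ (1 : ℝ) * Y ^ ((46 : ℝ) / 100) := by
          apply mul_le_mul_of_nonneg_right _ (Real.rpow_nonneg hY0.le _)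
          exact Real.rpow_le_rpow_of_exponent_le (by norm_num) (by norm_num)
      _ ≤ Y ^ (3 / 100 : ℝ) * Y ^ ((46 : ℝ) / 100) := by
          apply mul_le_mul_of_nonneg_right _ (Real.rpow_nonneg hY0.le _)
          rw [Real.rpow_one]; exact hY2
      _ = Y ^ ((49 : ℝ) / 100) := by
          rw [← Real.rpow_add hY0]; congr 1; norm_num
  have hev3 : ∀ᶠ Y : ℝ in Filter.atTop, (2 * Y) ^ ((1 : ℝ) / 9) < Y ^ ((112 : ℝ) / 1000) := by
    have h5 := (tendsto_rpow_atTop (show (0 : ℝ) < 112 / 1000 - 1 / 9 by norm_num)).eventually_gt_atTop 2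
    filter_upwards [h5, Filter.eventually_gt_atTop 0] with Y hY2 hY0
    calc (2 * Y) ^ ((1 : ℝ) / 9) = 2 ^ ((1 : ℝ) / 9) * Y ^ ((1 : ℝ) / 9) :=
          Real.mul_rpow (by norm_num) hY0.le
      _ ≤ 2 ^ (1 : ℝ) * Y ^ ((1 : ℝ) / 9) := by
          apply mul_le_mul_of_nonneg_right _ (Real.rpow_nonneg hY0.le _)
          exact Real.rpow_le_rpow_of_exponent_le (by norm_num) (by norm_num)
      _ < Y ^ (112 / 1000 - 1 / 9 : ℝ) * Y ^ ((1 : ℝ) / 9) := by
          apply mul_lt_mul_of_pos_right _ (Real.rpow_pos_of_pos hY0 _)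
          rw [Real.rpow_one]; exact hY2
      _ = Y ^ ((112 : ℝ) / 1000) := by
          rw [← Real.rpow_add hY0]; congr 1; norm_num
  obtain ⟨Y₂, hY₂⟩ := Filter.eventually_atTop.1 hev1
  obtain ⟨Y₃, hY₃⟩ := Filter.eventually_atTop.1 hev2
  obtain ⟨Y₄, hY₄⟩ := Filter.eventually_atTop.1 hev3
  refine ⟨max (max Y₁ Y₂) (max (max Y₃ Y₄) (max N₁ 2)), ?_⟩
  intro Y hY N hNe hYN hNY
  have g1 : Y₁ ≤ Y := ((le_max_left _ _).trans (le_max_left _ _)).trans hY
  have g2 : Y₂ ≤ Y := ((le_max_right _ _).trans (le_max_left _ _)).trans hY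
  have g34 : max Y₃ Y₄ ≤ Y := ((le_max_left _ _).trans (le_max_right _ _)).trans hY
  have g3 : Y₃ ≤ Y := (le_max_left _ _).trans g34
  have g4 : Y₄ ≤ Y := (le_max_right _ _).trans g34
  have g56 : max (N₁ : ℝ) 2 ≤ Y := ((le_max_right _ _).trans (le_max_right _ _)).trans hY
  have g5 : (N₁ : ℝ) ≤ Y := (le_max_left _ _).trans g56
  have g6 : (2 : ℝ) ≤ Y := (le_max_right _ _).trans g56
  have hNr : (2 : ℝ) ≤ N := g6.trans hYN
  have g7 : N₁ ≤ N := by exact_mod_cast g5.trans hYN
  have hY0 : (0 : ℝ) < Y := by linarith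
  have hY1 : (1 : ℝ) < Y := by linarith
  have hN1 : (1 : ℝ) < N := by linarith
  have hN0 : (0 : ℝ) < N := by linarith
  have hN2Y : (N : ℝ) ≤ 2 * Y := hNY.trans (by nlinarith)
  have hlogN : 0 < Real.log N := Real.log_pos hN1
  have hlogY : 0 < Real.log Y := Real.log_pos hY1
  have hsqY : 0 < √Y := Real.sqrt_pos.2 hY0
  set x : ℝ := a * √Y with hx
  have hx0 : 0 < x := mul_pos ha0 hsqY
  have hxN : 3 * x < N := (hY₂ Y g2).trans_le hYN
  set z : ℝ := Y ^ ((112 : ℝ) / 1000) with hz
  have hz9 : (N : ℝ) ^ ((1 : ℝ) / 9) < z :=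
    (Real.rpow_le_rpow hN0.le hN2Y (by norm_num)).trans_lt (hY₄ Y g4)
  have hz10 : (N : ℝ) ^ ((1 : ℝ) / 10) ≤ z :=
    (Real.rpow_le_rpow_of_exponent_le hN1.le (by norm_num)).trans hz9.le
  set P : Finset ℕ := PY Y (112 / 1000) v with hP
  set w : ℕ → ℝ := fun q => 1 - Real.log q / (v * Real.log Y) with hw
  have hv0 : 0 < v := by linarith
  have hwn : ∀ q ∈ P, 0 ≤ w q := by
    intro q hq
    obtain ⟨a, b, c⟩ := mem_PY.1 hq
    have hq0 : (0 : ℝ) < q := by exact_mod_cast b.pos
    have h3 : Real.log q ≤ v * Real.log Y := by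
      rw [← Real.log_rpow hY0]
      exact Real.log_le_log hq0 a.le
    have h4 : Real.log q / (v * Real.log Y) ≤ 1 := by
      rw [div_le_one (by positivity)]; exact h3
    simp only [hw]
    linarith
  set Sq : Finset ℕ := (II (a * √N)).filter (fun n : ℕ =>
    ∃ q : ℕ, q.Prime ∧ (N : ℝ) ^ ((1 : ℝ) / 10) ≤ q ∧ q ^ 2 ∣ N - n) with hSq
  have hSqc : (Sq.card : ℝ) ≤ (N : ℝ) ^ (1 / 2 - (1 / 10 : ℝ) / 2) := hN₁ N g7
  change T0 ω x N z - lam * ∑ q ∈ P, w q * Tq ω x N z q ≤ _
  rw [swap]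
  -- termwise bound
  have hterm : ∀ n ∈ II x, an ω x N n * rg N z (N - n) *
      (1 - lam * ∑ q ∈ P.filter (fun q => q ∣ N - n), w q) ≤
      (if n ∈ Good r α β N then Real.log N else 0) + (if n ∈ Sq then Real.log N else 0) := by
    intro n hn
    have hnn : 0 ≤ (if n ∈ Good r α β N then Real.log N else 0) +
        (if n ∈ Sq then Real.log N else 0) := by
      refine add_nonneg ?_ ?_ <;> split_ifs <;> first | exact hlogN.le | exact le_rfl
    by_cases hp : n.Prime ∧ ¬ n ∣ N
    swap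
    · unfold an
      rw [if_neg hp, zero_mul, zero_mul]
      exact hnn
    obtain ⟨hpp, hpN⟩ := hp
    have hn1 : 1 ≤ n := (mem_Icc.1 hn).1
    have hn3 : (n : ℝ) ≤ 3 * x := (Nat.le_floor_iff (by positivity)).1 (mem_Icc.1 hn).2
    have hnN : n < N := by exact_mod_cast hn3.trans_lt hxN
    have hn0 : (0 : ℝ) < n := by exact_mod_cast hpp.pos
    have han : an ω x N n = Real.log n * ω (Real.log (n / x)) := by
      unfold an
      rw [if_pos ⟨hpp, hpN⟩, vonMangoldt_apply_prime hpp]
    have hlogn : 0 ≤ Real.log n := Real.log_nonneg (by exact_mod_cast hn1)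
    have hω0 := hω.nonneg (Real.log (n / x))
    have hanle : an ω x N n ≤ Real.log N := by
      rw [han]
      have h3 := hω.le_half (Real.log (n / x))
      have h4 : Real.log n ≤ Real.log N := Real.log_le_log hn0 (by exact_mod_cast hnN.le)
      calc Real.log n * ω (Real.log (n / x)) ≤ Real.log n * 1 := by
            refine mul_le_mul_of_nonneg_left ?_ hlogn
            linarith
        _ ≤ Real.log N := by rw [mul_one]; exact h4
    have han0 : 0 ≤ an ω x N n := by rw [han]; exact mul_nonneg hlogn hω0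
    by_cases hrg : ∀ p ∈ PP N z, ¬ p ∣ N - n
    swap
    · unfold rg
      rw [if_neg hrg, mul_zero, zero_mul]
      exact hnn
    have hrg1 : rg N z (N - n) = 1 := by unfold rg; rw [if_pos hrg]
    rw [hrg1, mul_one]
    by_cases hom : ω (Real.log (n / x)) = 0
    · rw [han, hom, mul_zero, zero_mul]; exact hnn
    obtain ⟨hs1, hs2⟩ := hsupp _ hom
    -- a prime factor of `N - n` does not divide `N` and is large
    have hfac : ∀ q : ℕ, q.Prime → q ∣ N - n → z ≤ q := by
      intro q hq hqd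
      have h3 : ¬ q ∣ N := by
        intro h
        have h4 : q ∣ n := by
          have := Nat.dvd_sub h hqd
          rwa [Nat.sub_sub_self hnN.le] at this
        have h5 := (Nat.prime_dvd_prime_iff_eq hq hpp).1 h4
        exact hpN (h5 ▸ h)
      by_contra h4
      exact hrg q (mem_PP.2 ⟨not_le.1 h4, hq, h3⟩) hqd
    set b : ℝ := 1 - lam * ∑ q ∈ P.filter (fun q => q ∣ N - n), w q with hb
    have hb1 : b ≤ 1 := by
      have : 0 ≤ ∑ q ∈ P.filter (fun q => q ∣ N - n), w q :=
        sum_nonneg fun q hq => hwn q (mem_filter.1 hq).1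
      have := mul_nonneg hlam.le this
      linarith
    by_cases hb0 : b ≤ 0
    · exact (mul_nonpos_of_nonneg_of_nonpos han0 hb0).trans hnn
    push Not at hb0
    have hle : an ω x N n * b ≤ Real.log N :=
      (mul_le_mul_of_nonneg_left hb1 han0).trans (by rw [mul_one]; exact hanle)
    have hite : ∀ (p : Prop) [Decidable p], 0 ≤ (if p then Real.log (N : ℝ) else 0) := by
      intro p _; split_ifs <;> first | exact hlogN.le | exact le_rfl
    by_cases hsf : Squarefree (N - n)
    · have hG : n ∈ Good r α β N := by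
        unfold Good
        rw [mem_filter, mem_range]
        have hlx : 1 < (n : ℝ) / x := by
          by_contra h
          push Not at h
          exact absurd (Real.log_nonpos (by positivity) h) (not_le.2 hs1)
        refine ⟨hnN, hpp, ?_, ?_, hsf, ?_, ?_⟩
        · have h6 : x < n := by rwa [one_lt_div hx0] at hlx
          refine lt_of_le_of_lt ?_ h6
          rw [hx, ha, mul_assoc]
          apply mul_le_mul_of_nonneg_left _ hα.le
          rw [← Real.sqrt_mul (by linarith)]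
          exact Real.sqrt_le_sqrt hNY
        · have h3 : (n : ℝ) / x < β / a :=
            (Real.log_lt_log_iff (by positivity) (div_pos (ha0.trans haβ) ha0)).1 hs2
          rw [div_lt_div_iff₀ hx0 ha0, hx] at h3
          have h4 : (n : ℝ) * a < (β * √Y) * a := by
            calc (n : ℝ) * a < β * (a * √Y) := h3
              _ = _ := by ring
          refine (lt_of_mul_lt_mul_right h4 ha0.le).trans_le ?_
          exact mul_le_mul_of_nonneg_left (Real.sqrt_le_sqrt hYN) (ha0.trans haβ).le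
        · refine hY₁ Y g1 (N - n) (P.filter (fun q => q ∣ N - n)) (by omega) ?_ hsf
            ?_ ?_ hb0
          · refine le_trans ?_ hN2Y
            exact_mod_cast Nat.sub_le N n
          · intro q hq hqd hqv
            rw [mem_filter]
            exact ⟨mem_PY.2 ⟨hqv, hq, hfac q hq hqd⟩, hqd⟩
          · intro q hq
            rw [mem_filter] at hq
            obtain ⟨a, b, c⟩ := mem_PY.1 hq.1
            exact ⟨b, hq.2, a⟩
        · intro q hq hqd
          exact hz9.trans_le (hfac q hq hqd)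
      rw [if_pos hG]
      have := hite (n ∈ Sq)
      linarith
    · have hS : n ∈ Sq := by
        rw [hSq, mem_filter]
        refine ⟨?_, ?_⟩
        · unfold II at hn ⊢
          rw [mem_Icc] at hn ⊢
          refine ⟨hn.1, hn.2.trans (Nat.floor_le_floor ?_)⟩
          have := Real.sqrt_le_sqrt hYN
          have := mul_le_mul_of_nonneg_left this ha0.le
          linarith
        · have h3 : ∃ q : ℕ, q.Prime ∧ q * q ∣ N - n := by
            by_contra h
            push Not at h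
            exact hsf (Nat.squarefree_iff_prime_squarefree.2 fun q hq => h q hq)
          obtain ⟨q, hq, hqd⟩ := h3
          exact ⟨q, hq, hz10.trans (hfac q hq ((dvd_mul_right q q).trans hqd)), by rwa [pow_two]⟩
      rw [if_pos hS]
      have := hite (n ∈ Good r α β N)
      linarith
  refine (sum_le_sum hterm).trans ?_
  rw [sum_add_distrib, ← sum_filter, ← sum_filter, sum_const, sum_const, nsmul_eq_mul,
    nsmul_eq_mul]
  have c1 : (((II x).filter (fun n => n ∈ Good r α β N)).card : ℝ) ≤ (Good r α β N).card := by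
    exact_mod_cast card_le_card fun n hn => (mem_filter.1 hn).2
  have c2 : (((II x).filter (fun n => n ∈ Sq)).card : ℝ) ≤ Sq.card := by
    exact_mod_cast card_le_card fun n hn => (mem_filter.1 hn).2
  have c3 := hY₃ Y g3
  have c4 := mul_le_mul_of_nonneg_right (c2.trans hSqc) hlogN.le
  have c5 := mul_le_mul_of_nonneg_right c1 hlogN.le
  have c6 : (N : ℝ) ^ (1 / 2 - (1 / 10 : ℝ) / 2) * Real.log N ≤
      (2 * Y) ^ ((45 : ℝ) / 100) * Real.log (2 * Y) := by
    have e : (1 / 2 - (1 / 10 : ℝ) / 2) = 45 / 100 := by norm_num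
    rw [e]
    apply mul_le_mul (Real.rpow_le_rpow hN0.le hN2Y (by norm_num))
      (Real.log_le_log hN0 hN2Y) hlogN.le (by positivity)
  linarith

end Pool.Agent.Helper60.PT
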