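import Pool.Agent.Helper60.PT.St
import Pool.Agent.Helper60.PT.M_P1
import Pool.Agent.Helper60.GP.M_S7

/-! Project PT (MP_b454d1_nt), module P8 -/

set_option autoImplicit false

namespace Pool.Agent.Helper60.PT

open Finset ArithmeticFunction
open Pool.Agent.Helper60.GP (PP VV rg IsB JJ II Err an T0 Tq SS)
open Pool.Agent.Helper15.AB (Th ee)
open Pool.Agent.Helper23.GK (cR)

namespace PTP8

/-- the size of the exceptional sets -/
theorem card_ev (η' η : ℝ) (h : η' < η) : ∃ Y₀ : ℝ, ∀ Y : ℝ, Y₀ ≤ Y →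
    2 * Y ^ η' ≤ Y ^ η := by
  have h1 : Filter.Tendsto (fun Y : ℝ => Y ^ (η - η')) Filter.atTop Filter.atTop :=
    tendsto_rpow_atTop (by linarith)
  obtain ⟨Y₀, hY₀⟩ := Filter.eventually_atTop.1
    ((h1.eventually_ge_atTop 2).and (Filter.eventually_gt_atTop 0))
  refine ⟨Y₀, fun Y hY => ?_⟩
  obtain ⟨h2, h3⟩ := hY₀ Y hY
  have e1 : Y ^ η = Y ^ (η - η') * Y ^ η' := by
    rw [← Real.rpow_add h3]
    congr 1
    ring
  rw [e1]
  exact mul_le_mul_of_nonneg_right h2 (Real.rpow_nonneg h3.le _)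

theorem err_ev (δ : ℝ) (hδ : 0 < δ) : ∃ N₀ : ℕ, ∀ N : ℕ, N₀ ≤ N →
    (N : ℝ) ^ ((49 : ℝ) / 100) * Real.log N ≤ δ * √N := by
  have hev : ∀ᶠ N : ℕ in Filter.atTop, (N : ℝ) ^ ((49 : ℝ) / 100) * Real.log N ≤ δ * √N := by
    have e3 := (isLittleO_log_rpow_atTop (r := (1 / 100 : ℝ)) (by norm_num)).bound (c := δ) hδ
    have e4 := tendsto_natCast_atTop_atTop (R := ℝ) |>.eventually e3
    filter_upwards [e4, Filter.eventually_gt_atTop 0] with N hN hN0
    have hN0' : (0 : ℝ) < N := by exact_mod_cast hN0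
    rw [Real.norm_eq_abs, Real.norm_eq_abs, abs_of_nonneg (Real.rpow_nonneg hN0'.le _)] at hN
    have e5 : √(N : ℝ) = (N : ℝ) ^ ((49 : ℝ) / 100) * (N : ℝ) ^ (1 / 100 : ℝ) := by
      rw [← Real.rpow_add hN0', Real.sqrt_eq_rpow]
      congr 1
      norm_num
    rw [e5]
    calc (N : ℝ) ^ ((49 : ℝ) / 100) * Real.log N ≤
        (N : ℝ) ^ ((49 : ℝ) / 100) * (δ * (N : ℝ) ^ (1 / 100 : ℝ)) :=
          mul_le_mul_of_nonneg_left ((le_abs_self _).trans hN) (Real.rpow_nonneg hN0'.le _)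
      _ = _ := by ring
  exact Filter.eventually_atTop.1 hev

theorem kap {α β : ℝ} (hα : 0 < α) (hαβ : α < β) : ∃ κ : ℝ, 0 < κ ∧ κ ≤ 1 ∧
    α * √(1 + κ) < β := by
  have hq : 1 < β / α := by rw [one_lt_div hα]; exact hαβ
  have hq2 : 1 < (β / α) ^ 2 := by nlinarith
  refine ⟨min 1 (((β / α) ^ 2 - 1) / 2), ?_, min_le_left _ _, ?_⟩
  · exact lt_min one_pos (by linarith)
  · have h1 : 1 + min 1 (((β / α) ^ 2 - 1) / 2) < (β / α) ^ 2 := by
      have := min_le_right 1 (((β / α) ^ 2 - 1) / 2)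
      linarith
    have h2 : √(1 + min 1 (((β / α) ^ 2 - 1) / 2)) < β / α := by
      rw [Real.sqrt_lt' (by linarith)]
      exact h1
    calc α * √(1 + min 1 (((β / α) ^ 2 - 1) / 2)) < α * (β / α) :=
        mul_lt_mul_of_pos_left h2 hα
      _ = β := by field_simp

theorem gen (h2 : StLow) (h3 : StSec) (h5 : StRA) (h6 : Pool.Agent.Helper60.GP.StVlow)
    (h7 : Pool.Agent.Helper60.GP.StBump) (r lv v : ℕ) (cs : List (ℕ × ℕ × ℕ × ℕ))
    (s c η₀ lam Cs g : ℝ) (hVL : VL s c) (hs : 0 < s) (hus : 112 / 1000 * s ≤ (lv : ℝ) / 10 ^ 4)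
    (hη₁ : 1 / 2 ≤ η₀) (hη₂ : 2 * ((lv : ℝ) / 10 ^ 4) - 1 / 2 ≤ η₀)
    (hv : 112 / 1000 < (v : ℝ) / 10 ^ 4) (hlam : 0 < lam)
    (hr : 1 / lam + 1 / ((v : ℝ) / 10 ^ 4) < r + 1) (hCh : Ch lv v 1120 cs)
    (hVU : ∀ e ∈ cs, VU ((e.2.2.1 : ℝ) / 32) ((e.2.2.2 : ℝ) / 10 ^ 8))
    (hsum : (cs.map (cc v)).sum ≤ Cs) (hg : 0 < g) (hgc : g ≤ c - lam * Cs) : Blk r η₀ := by
  intro α β hα hαβ η hη
  obtain ⟨κ, hκ, hκ1, hκβ⟩ := kap hα hαβ
  set a : ℝ := α * √(1 + κ) with ha_def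
  have ha : 0 < a := by
    have : 0 < √(1 + κ) := Real.sqrt_pos.2 (by linarith)
    positivity
  have hβa : 1 < β / a := by rw [one_lt_div ha]; exact hκβ
  obtain ⟨ω, hω, hJ, hsupp⟩ := h7 (Real.log (β / a)) (Real.log_pos hβa)
  set J : ℝ := JJ ω with hJd
  set η' : ℝ := (η + η₀) / 2 with hη'
  have g1 : 1 / 2 < η' := by rw [hη']; linarith
  have g2 : 2 * ((lv : ℝ) / 10 ^ 4) - 1 / 2 < η' := by rw [hη']; linarith
  have g3 : η' < η := by rw [hη']; linarith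
  set ε : ℝ := g / (4 * (1 + lam)) with hε_def
  have hε : 0 < ε := by positivity
  have hε2 : (1 + lam) * ε = g / 4 := by
    rw [hε_def]
    field_simp
  obtain ⟨Y₁, hY₁⟩ := h2 s c hVL ω hω hJ a (112 / 1000) ((lv : ℝ) / 10 ^ 4) η' ha (by norm_num) hs
    hus g1 g2 ε hε
  obtain ⟨Y₂, hY₂⟩ := h3 lv v cs 1120 le_rfl hCh hVU ω hω hJ a η' ha g1 g2 ε hε
  obtain ⟨Y₃, hY₃⟩ := h5 r ((v : ℝ) / 10 ^ 4) lam hv hlam hr ω hω α β a κ hα hκ hκ1 rfl hκβ hsupp
  obtain ⟨c₁, hc₁, N₄, hN₄⟩ := h6 (112 / 1000) (by norm_num)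
  obtain ⟨Y₅, hY₅⟩ := card_ev η' η g3
  set δ : ℝ := g / 8 * (c₁ * J * a) with hδ
  have hδ0 : 0 < δ := by positivity
  obtain ⟨N₆, hN₆⟩ := err_ev δ hδ0
  refine ⟨κ, g / 4 * (c₁ * J * a), max (max Y₁ Y₂) (max (max Y₃ Y₅) (max (max N₄ N₆) 2)), hκ, hκ1,
    by positivity, fun Y hY => ?_⟩
  have d1 : Y₁ ≤ Y := ((le_max_left _ _).trans (le_max_left _ _)).trans hY
  have d2 : Y₂ ≤ Y := ((le_max_right _ _).trans (le_max_left _ _)).trans hY
  have d3 : Y₃ ≤ Y :=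
    (((le_max_left _ _).trans (le_max_left _ _)).trans (le_max_right _ _)).trans hY
  have d5 : Y₅ ≤ Y :=
    (((le_max_right _ _).trans (le_max_left _ _)).trans (le_max_right _ _)).trans hY
  have d4 : (N₄ : ℝ) ≤ Y := ((((le_max_left _ _).trans (le_max_left _ _)).trans
    (le_max_right _ _)).trans (le_max_right _ _)).trans hY
  have d6 : (N₆ : ℝ) ≤ Y := ((((le_max_right _ _).trans (le_max_left _ _)).trans
    (le_max_right _ _)).trans (le_max_right _ _)).trans hY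
  have d7 : 2 ≤ Y := (((le_max_right _ _).trans (le_max_right _ _)).trans
    (le_max_right _ _)).trans hY
  have hY0 : 0 < Y := by linarith
  obtain ⟨E₁, hE₁, hE₁'⟩ := hY₁ Y d1
  obtain ⟨E₂, hE₂, hE₂'⟩ := hY₂ Y d2
  refine ⟨E₁ ∪ E₂, ?_, ?_⟩
  · have : ((E₁ ∪ E₂).card : ℝ) ≤ E₁.card + E₂.card := by exact_mod_cast card_union_le _ _
    have := hY₅ Y d5
    linarith
  intro N hNe hN1 hN2 hNE
  rw [mem_union, not_or] at hNE
  have hN2' : (N : ℝ) ≤ 2 * Y := hN2.trans (mul_le_mul_of_nonneg_right (by linarith) hY0.le)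
  have hNr : (2 : ℝ) ≤ N := d7.trans hN1
  have hN0 : (0 : ℝ) < N := by linarith
  have k1 := hE₁' N hNe hN1 hN2' hNE.1
  have k2 := hE₂' N hNe hN1 hN2' hNE.2
  have k3 := hY₃ Y d3 N hNe hN1 hN2
  have k4 := hN₄ N (by exact_mod_cast d4.trans hN1) hNe
  have k5 := hN₆ N (by exact_mod_cast d6.trans hN1)
  have hSS := Pool.Agent.Helper60.GP.GPS7.SS_ge N
  have hlog : 0 < Real.log N := Real.log_pos (by linarith)
  have hsN : 0 < √(N : ℝ) := Real.sqrt_pos.2 hN0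
  have hsY : 0 < √Y := Real.sqrt_pos.2 hY0
  have e1 : ((1120 : ℕ) : ℝ) / 10 ^ 4 = 112 / 1000 := by norm_num
  rw [e1] at k2
  have e2 : √(N : ℝ) ≤ 2 * √Y := by
    rw [Real.sqrt_le_left (by positivity), mul_pow, Real.sq_sqrt hY0.le]
    linarith
  have e3 : VV N ((N : ℝ) ^ ((112 : ℝ) / 1000)) ≤ VV N (Y ^ ((112 : ℝ) / 1000)) :=
    PTP1.VV_anti hNe (Real.rpow_le_rpow hY0.le hN1 (by norm_num))
  set V : ℝ := VV N (Y ^ ((112 : ℝ) / 1000)) with hV_def
  set G : ℝ := ((Good r α β N).card : ℝ) with hG_def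
  set T : ℝ := T0 ω (a * √Y) N (Y ^ ((112 : ℝ) / 1000)) with hT_def
  set S : ℝ := ∑ q ∈ PY Y (112 / 1000) ((v : ℝ) / 10 ^ 4),
      (1 - Real.log q / ((v : ℝ) / 10 ^ 4 * Real.log Y)) *
        Tq ω (a * √Y) N (Y ^ ((112 : ℝ) / 1000)) q with hS_def
  have hV0 : c₁ * SS N / Real.log N ≤ V := k4.trans e3
  have k6 : c₁ * J * a * (SS N * √N) / Real.log N ≤ 2 * (V * (J * (a * √Y))) := by
    have f1 := mul_le_mul_of_nonneg_right hV0 (by positivity : 0 ≤ J * (a * √N))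
    have f2 : 0 ≤ V := le_trans (by positivity) hV0
    have f3 : V * (J * (a * √N)) ≤ V * (J * (a * (2 * √Y))) :=
      mul_le_mul_of_nonneg_left (mul_le_mul_of_nonneg_left
        (mul_le_mul_of_nonneg_left e2 ha.le) hJ.le) f2
    calc c₁ * J * a * (SS N * √N) / Real.log N = c₁ * SS N / Real.log N * (J * (a * √N)) := by ring
      _ ≤ V * (J * (a * √N)) := f1
      _ ≤ V * (J * (a * (2 * √Y))) := f3
      _ = _ := by ring
  have hW : 0 ≤ V * (J * (a * √Y)) := by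
    have : 0 ≤ c₁ * J * a * (SS N * √N) / Real.log N := by positivity
    linarith
  have k7 : 3 / 4 * g * (V * (J * (a * √Y))) ≤ G * Real.log N + Y ^ ((49 : ℝ) / 100) := by
    have f1 : lam * S ≤ lam * ((Cs + ε) * (V * (J * (a * √Y)))) := by
      refine mul_le_mul_of_nonneg_left (k2.trans ?_) hlam.le
      exact mul_le_mul_of_nonneg_right (by linarith) hW
    have f2 : (c - ε) * V * (J * (a * √Y)) = (c - ε) * (V * (J * (a * √Y))) := by ring
    rw [f2] at k1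
    have f3 : 3 / 4 * g * (V * (J * (a * √Y))) ≤
        (c - ε - lam * (Cs + ε)) * (V * (J * (a * √Y))) := by
      refine mul_le_mul_of_nonneg_right ?_ hW
      nlinarith
    have f4 : (c - ε - lam * (Cs + ε)) * (V * (J * (a * √Y))) =
        (c - ε) * (V * (J * (a * √Y))) - lam * ((Cs + ε) * (V * (J * (a * √Y)))) := by ring
    linarith
  have k8 : Y ^ ((49 : ℝ) / 100) ≤ g / 8 * (c₁ * J * a * (SS N * √N) / Real.log N) := by
    refine (Real.rpow_le_rpow hY0.le hN1 (by norm_num)).trans ?_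
    rw [← mul_div_assoc, le_div_iff₀ hlog]
    refine k5.trans ?_
    rw [hδ]
    have : √(N : ℝ) ≤ SS N * √N := by
      calc √(N : ℝ) = 1 * √N := by ring
        _ ≤ SS N * √N := mul_le_mul_of_nonneg_right hSS hsN.le
    calc g / 8 * (c₁ * J * a) * √(N : ℝ) ≤ g / 8 * (c₁ * J * a) * (SS N * √N) :=
          mul_le_mul_of_nonneg_left this (by positivity)
      _ = _ := by ring
  have k9 : g / 4 * (c₁ * J * a * (SS N * √N) / Real.log N) ≤ G * Real.log N := by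
    have := mul_le_mul_of_nonneg_left k6 (by positivity : 0 ≤ 3 / 8 * g)
    have f5 : 3 / 8 * g * (2 * (V * (J * (a * √Y)))) = 3 / 4 * g * (V * (J * (a * √Y))) := by ring
    rw [f5] at this
    have f6 : 3 / 8 * g * (c₁ * J * a * (SS N * √N) / Real.log N) =
        g / 4 * (c₁ * J * a * (SS N * √N) / Real.log N) +
          g / 8 * (c₁ * J * a * (SS N * √N) / Real.log N) := by ring
    linarith
  rw [div_le_iff₀ (by positivity)]
  have k10 := mul_le_mul_of_nonneg_right k9 hlog.le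
  have e4 : g / 4 * (c₁ * J * a * (SS N * √N) / Real.log N) * Real.log N =
      g / 4 * (c₁ * J * a) * SS N * √N := by
    field_simp
  rw [e4] at k10
  calc g / 4 * (c₁ * J * a) * SS N * √N ≤ G * Real.log N * Real.log N := k10
    _ = G * Real.log N ^ 2 := by ring

end PTP8

theorem hBlk (h1 : StTab) (h2 : StLow) (h3 : StSec) (h4 : StNum) (h5 : StRA)
    (h6 : Pool.Agent.Helper60.GP.StVlow) (h7 : Pool.Agent.Helper60.GP.StBump) : StBlk := by
  obtain ⟨t1, t2, t3⟩ := h1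
  obtain ⟨n1, n2, n3, n4⟩ := h4
  constructor
  · refine PTP8.gen h2 h3 h5 h6 h7 2 5499 5080 cells2 (157 / 32) (9961 / 10000) _ (97 / 100)
      (1006 / 1000) (2 / 100) t2 (by norm_num) (by norm_num) (by norm_num) (by norm_num)
      (by norm_num) (by norm_num) (by norm_num) n1 (fun e he => t1 e (List.mem_append_left _ he))
      n3 (by norm_num) (by norm_num)
  · refine PTP8.gen h2 h3 h5 h6 h7 3 5000 4000 cells3 (142 / 32) (989 / 1000) _ (67 / 100)
      (81 / 100) (44 / 100) t3 (by norm_num) (by norm_num) (by norm_num) (by norm_num)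
      (by norm_num) (by norm_num) (by norm_num) n2 (fun e he => t1 e (List.mem_append_right _ he))
      n4 (by norm_num) (by norm_num)

end Pool.Agent.Helper60.PT
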