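import Pool.Agent.Helper60.PT.St

/-! Project PT (MP_b454d1_nt), module P9 -/

set_option autoImplicit false

namespace Pool.Agent.Helper60.PT

open Finset ArithmeticFunction
open Pool.Agent.Helper60.GP (PP VV rg IsB JJ II Err an T0 Tq SS)
open Pool.Agent.Helper15.AB (Th ee)
open Pool.Agent.Helper23.GK (cR)

namespace PTP9

/-- a constant plus a multiple of the logarithm is eventually below a power -/
theorem ev_log (a b δ : ℝ) (hδ : 0 < δ) :
    ∃ X₀ : ℕ, ∀ X : ℕ, X₀ ≤ X → a + b * Real.log X ≤ (X : ℝ) ^ δ := by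
  have h1 : (fun x : ℝ => a + b * Real.log x) =o[Filter.atTop] fun x : ℝ => x ^ δ := by
    refine Asymptotics.IsLittleO.add ?_ ?_
    · rw [Asymptotics.isLittleO_const_left]
      right
      exact tendsto_norm_atTop_atTop.comp (tendsto_rpow_atTop hδ)
    · exact (isLittleO_log_rpow_atTop hδ).const_mul_left b
  have h2 := h1.bound (show (0 : ℝ) < 1 by norm_num)
  have h3 := (tendsto_natCast_atTop_atTop (R := ℝ)).eventually h2
  rw [Filter.eventually_atTop] at h3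
  obtain ⟨X₀, hX⟩ := h3
  refine ⟨X₀, fun X hXX => ?_⟩
  have h4 := hX X hXX
  rw [one_mul, Real.norm_of_nonneg (Real.rpow_nonneg (Nat.cast_nonneg X) δ)] at h4
  exact le_trans (Real.le_norm_self _) h4

end PTP9

theorem hCov : StCov := by
  classical
  intro r η₀ hη₀ hB α β hα hαβ η hη
  obtain ⟨κ, c, Y₁, hκ, hκ1, hc, hY⟩ := hB α β hα hαβ ((η + η₀) / 2) (by linarith)
  refine ⟨c, hc, ?_⟩
  choose! E hE using hY
  set η' : ℝ := (η + η₀) / 2 with hη'
  have hη'0 : 0 ≤ η' := by rw [hη']; linarith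
  have hδ : 0 < η - η' := by rw [hη']; linarith
  set Y₀ : ℝ := max Y₁ 1 with hY₀
  have hY₀1 : 1 ≤ Y₀ := le_max_right _ _
  have hY₀Y : Y₁ ≤ Y₀ := le_max_left _ _
  have hb : (1 : ℝ) < 1 + κ := by linarith
  have hℓ : 0 < Real.log (1 + κ) := Real.log_pos hb
  obtain ⟨X₀, hX₀⟩ := PTP9.ev_log ((⌈2 * Y₀⌉₊ : ℝ) + 1) (1 / Real.log (1 + κ)) (η - η') hδ
  refine ⟨max X₀ 1, fun X hX => ?_⟩
  have hX0 : X₀ ≤ X := le_trans (le_max_left _ _) hX
  have hX1 : 1 ≤ X := le_trans (le_max_right _ _) hX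
  have hX1' : (1 : ℝ) ≤ (X : ℝ) := by exact_mod_cast hX1
  set K : ℕ := ⌊Real.log X / Real.log (1 + κ)⌋₊ + 1 with hK
  have hsub : Bad r α β c X ⊆ range ⌈2 * Y₀⌉₊ ∪
      ((range K).filter (fun k => Y₀ ≤ (1 + κ) ^ k ∧ (1 + κ) ^ k ≤ (X : ℝ))).biUnion
        (fun k => E ((1 + κ) ^ k)) := by
    intro N hN
    unfold Bad at hN
    rw [mem_filter, mem_Icc] at hN
    obtain ⟨⟨hN1, hNX⟩, hev, hbad⟩ := hN
    have hN1' : (1 : ℝ) ≤ (N : ℝ) := by exact_mod_cast hN1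
    have hNX' : (N : ℝ) ≤ (X : ℝ) := by exact_mod_cast hNX
    obtain ⟨k, hk1, hk2⟩ := exists_nat_pow_near hN1' hb
    rw [mem_union]
    by_cases hkY : Y₀ ≤ (1 + κ) ^ k
    · right
      rw [mem_biUnion]
      have hkX : (1 + κ) ^ k ≤ (X : ℝ) := le_trans hk1 hNX'
      refine ⟨k, ?_, ?_⟩
      · rw [mem_filter, mem_range]
        refine ⟨?_, hkY, hkX⟩
        rw [hK, Nat.lt_succ_iff]
        apply Nat.le_floor
        rw [le_div_iff₀ hℓ, ← Real.log_pow]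
        exact Real.log_le_log (by positivity) hkX
      · by_contra hNE
        have h1 := (hE ((1 + κ) ^ k) (le_trans hY₀Y hkY)).2 N hev hk1 (by
          have : (1 + κ) ^ (k + 1) = (1 + κ) * (1 + κ) ^ k := by ring
          rw [← this]
          exact hk2.le) hNE
        exact absurd hbad (not_lt.2 h1)
    · left
      rw [mem_range, Nat.lt_ceil]
      have h2 : (1 + κ) ^ (k + 1) = (1 + κ) * (1 + κ) ^ k := by ring
      have h3 : (1 + κ) ^ k < Y₀ := not_le.1 hkY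
      have h4 : (1 + κ) * (1 + κ) ^ k ≤ 2 * Y₀ :=
        mul_le_mul (by linarith) h3.le (by positivity) (by norm_num)
      linarith
  have hcard : ((Bad r α β c X).card : ℝ) ≤ (⌈2 * Y₀⌉₊ : ℝ) + K * (X : ℝ) ^ η' := by
    have h1 := card_le_card hsub
    have h2 := h1.trans (card_union_le _ _)
    rw [card_range] at h2
    have h3 : ((((range K).filter (fun k => Y₀ ≤ (1 + κ) ^ k ∧ (1 + κ) ^ k ≤ (X : ℝ))).biUnion
        (fun k => E ((1 + κ) ^ k))).card : ℝ) ≤ K * (X : ℝ) ^ η' := by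
      have h4 : ((((range K).filter (fun k => Y₀ ≤ (1 + κ) ^ k ∧
          (1 + κ) ^ k ≤ (X : ℝ))).biUnion (fun k => E ((1 + κ) ^ k))).card : ℝ) ≤
          ∑ k ∈ (range K).filter (fun k => Y₀ ≤ (1 + κ) ^ k ∧ (1 + κ) ^ k ≤ (X : ℝ)),
            ((E ((1 + κ) ^ k)).card : ℝ) := by
        exact_mod_cast card_biUnion_le
      refine h4.trans ?_
      calc ∑ k ∈ (range K).filter (fun k => Y₀ ≤ (1 + κ) ^ k ∧ (1 + κ) ^ k ≤ (X : ℝ)),
            ((E ((1 + κ) ^ k)).card : ℝ)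
          ≤ ∑ k ∈ (range K).filter (fun k => Y₀ ≤ (1 + κ) ^ k ∧ (1 + κ) ^ k ≤ (X : ℝ)),
            (X : ℝ) ^ η' := by
            refine sum_le_sum fun k hk => ?_
            rw [mem_filter] at hk
            refine (hE ((1 + κ) ^ k) (le_trans hY₀Y hk.2.1)).1.trans ?_
            exact Real.rpow_le_rpow (by positivity) hk.2.2 hη'0
        _ ≤ ∑ k ∈ range K, (X : ℝ) ^ η' :=
            sum_le_sum_of_subset_of_nonneg (filter_subset _ _) (fun _ _ _ => by positivity)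
        _ = K * (X : ℝ) ^ η' := by rw [sum_const, card_range, nsmul_eq_mul]
    have h5 : ((Bad r α β c X).card : ℝ) ≤ (⌈2 * Y₀⌉₊ : ℝ) +
        ((((range K).filter (fun k => Y₀ ≤ (1 + κ) ^ k ∧ (1 + κ) ^ k ≤ (X : ℝ))).biUnion
        (fun k => E ((1 + κ) ^ k))).card : ℝ) := by
      exact_mod_cast h2
    linarith
  have hKle : (K : ℝ) ≤ 1 + 1 / Real.log (1 + κ) * Real.log X := by
    rw [hK]
    push_cast
    have h6 : (⌊Real.log X / Real.log (1 + κ)⌋₊ : ℝ) ≤ Real.log X / Real.log (1 + κ) :=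
      Nat.floor_le (div_nonneg (Real.log_nonneg hX1') hℓ.le)
    have h7 : Real.log X / Real.log (1 + κ) = 1 / Real.log (1 + κ) * Real.log X := by ring
    linarith
  have hpow1 : 1 ≤ (X : ℝ) ^ η' := Real.one_le_rpow hX1' hη'0
  have hfin := hX₀ X hX0
  calc ((Bad r α β c X).card : ℝ) ≤ (⌈2 * Y₀⌉₊ : ℝ) + K * (X : ℝ) ^ η' := hcard
    _ ≤ (⌈2 * Y₀⌉₊ : ℝ) * (X : ℝ) ^ η' + K * (X : ℝ) ^ η' := by
        have : (⌈2 * Y₀⌉₊ : ℝ) * 1 ≤ (⌈2 * Y₀⌉₊ : ℝ) * (X : ℝ) ^ η' :=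
          mul_le_mul_of_nonneg_left hpow1 (Nat.cast_nonneg _)
        linarith
    _ = ((⌈2 * Y₀⌉₊ : ℝ) + K) * (X : ℝ) ^ η' := by ring
    _ ≤ (X : ℝ) ^ (η - η') * (X : ℝ) ^ η' := by
        refine mul_le_mul_of_nonneg_right ?_ (by positivity)
        linarith
    _ = (X : ℝ) ^ η := by
        rw [← Real.rpow_add (by linarith)]
        congr 1
        ring

end Pool.Agent.Helper60.PT
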