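import Pool.Agent.Helper60.PT.M_L1
import Pool.Agent.Helper60.PT.M_L2
import Pool.Agent.Helper60.PT.M_L3
import Pool.Agent.Helper60.PT.M_L4
import Pool.Agent.Helper60.PT.M_L5
import Pool.Agent.Helper60.PT.M_L6
import Pool.Agent.Helper60.PT.M_L7
import Pool.Agent.Helper60.PT.M_L8
import Pool.Agent.Helper60.PT.M_L9
import Pool.Agent.Helper60.PT.M_O1
import Pool.Agent.Helper60.PT.M_O2
import Pool.Agent.Helper60.PT.M_O3
import Pool.Agent.Helper60.PT.M_O4
import Pool.Agent.Helper60.PT.M_O5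
import Pool.Agent.Helper60.PT.M_P1
import Pool.Agent.Helper60.PT.M_P2
import Pool.Agent.Helper60.PT.M_P3
import Pool.Agent.Helper60.PT.M_P4
import Pool.Agent.Helper60.PT.M_P5
import Pool.Agent.Helper60.PT.M_P6
import Pool.Agent.Helper60.PT.M_P7
import Pool.Agent.Helper60.PT.M_P8
import Pool.Agent.Helper60.PT.M_P9
import Pool.Agent.Helper60.GP.All
import Pool.Agent.Helper15.AB.All
import Pool.Agent.Helper29.GK.M_RAM

/-!
# Project PT (MP_b454d1_nt): assembly
-/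

set_option autoImplicit false

namespace Pool.Agent.Helper60.PT

theorem qL1 : StId := hId 
theorem qL2 : StIh := hIh 
theorem qL3 : StTail := hTail Pool.Agent.Helper15.AB.hPH
theorem qL4 : StMaj := hMaj 
theorem qL5 : StDual := hDual Pool.Agent.Helper15.AB.aAL
theorem qL6 : StMin := hMin qL5 Pool.Agent.Helper15.AB.aAL Pool.Agent.Helper29.GK.hRAM
theorem qL7 : StExc := hExc qL6
theorem qL8 : StNPY := hNPY 
theorem qL9 : StLD := hLD qL1 qL2 qL3 qL4 qL7 qL8 Pool.Agent.Helper60.GP.pB3 Pool.Agent.Helper15.AB.hDB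
theorem qO1 : StBase := hBase Pool.Agent.Helper60.GP.pF1 Pool.Agent.Helper60.GP.pF3
theorem qO2 : StComp := hComp 
theorem qO3 : StRecU := hRecU qO2 Pool.Agent.Helper60.GP.pR1 Pool.Agent.Helper60.GP.pM3
theorem qO4 : StRecL := hRecL qO2 Pool.Agent.Helper60.GP.pR1 Pool.Agent.Helper60.GP.pM3
theorem qO5 : StTab := hTab qO1 qO3 qO4
theorem qP1 : StLow := hLow qL9 qL8 Pool.Agent.Helper60.GP.pB4 Pool.Agent.Helper60.GP.pM5 Pool.Agent.Helper15.AB.hDB
theorem qP2 : StUp := hUp qL9 qL8 Pool.Agent.Helper60.GP.pB4 Pool.Agent.Helper60.GP.pM5 Pool.Agent.Helper15.AB.hDB Pool.Agent.Helper60.GP.pM2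
theorem qP3 : StSumY := hSumY Pool.Agent.Helper60.GP.pM1 Pool.Agent.Helper60.GP.pM2
theorem qP4 : StSec := hSec qP2 qP3
theorem qP5 : StNum := hNum 
theorem qP6 : StRich := hRich 
theorem qP7 : StRA := hRA qP6 Pool.Agent.Helper60.GP.pE6
theorem qP8 : StBlk := hBlk qO5 qP1 qP4 qP5 qP7 Pool.Agent.Helper60.GP.pM5 Pool.Agent.Helper60.GP.pB5
theorem qP9 : StCov := hCov 
theorem qMT : StMT := hMT qP8 qP9

end Pool.Agent.Helper60.PT
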