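import Pool.Agent.Helper60.GP.Defs
import Pool.Agent.Helper23.GK.Defs

/-!
# Project PT (MP_b454d1_nt): `N = p + P_2` with `p` of size `√N`, for all but `O(X^{3/5})` even `N`

Definitions. The sieve weights do not depend on `N`.
-/

set_option autoImplicit false

noncomputable section

namespace Pool.Agent.Helper60.PT

open Finset ArithmeticFunction
open Pool.Agent.Helper60.GP (PP VV rg IsB JJ II Err an T0 Tq SS)
open Pool.Agent.Helper15.AB (Th ee)
open Pool.Agent.Helper23.GK (cR)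

/-- the odd primes `p < z` -/
def PO (z : ℝ) : Finset ℕ := (range ⌈z⌉₊).filter (fun p => p.Prime ∧ p ≠ 2)

open Classical in
/-- indicator function of the integers without prime factor in `PO z` -/
def ro (z : ℝ) (n : ℕ) : ℝ := if ∀ p ∈ PO z, ¬ p ∣ n then 1 else 0

/-- sieve weights of level `D` for the odd primes `p < z` -/
structure IsWo (z D : ℝ) (lam : ℕ → ℝ) : Prop where
  bound : ∀ m, |lam m| ≤ 1
  supp : ∀ m, lam m ≠ 0 → Squarefree m ∧ (m : ℝ) ≤ D ∧ ∀ p : ℕ, p.Prime → p ∣ m → p ∈ PO z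

/-- main sum of weights, over the `m` coprime to `N` -/
def MN (N : ℕ) (D : ℝ) (lam : ℕ → ℝ) : ℝ :=
  ∑ m ∈ (Icc 1 ⌊D⌋₊).filter (fun m => Nat.Coprime m N), lam m / (Nat.totient m : ℝ)

/-- there are upper bound sieve weights with constant `c` for all even `N ≤ z ^ M` -/
def UpO (M z D c : ℝ) : Prop := ∃ lam : ℕ → ℝ, IsWo z D lam ∧
  (∀ n : ℕ, 1 ≤ n → ro z n ≤ ∑ m ∈ n.divisors, lam m) ∧
  ∀ N : ℕ, Even N → 1 ≤ N → (N : ℝ) ≤ z ^ M → MN N D lam ≤ c * VV N z

/-- there are lower bound sieve weights with constant `c` for all even `N ≤ z ^ M` -/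
def LoO (M z D c : ℝ) : Prop := ∃ lam : ℕ → ℝ, IsWo z D lam ∧
  (∀ n : ℕ, 1 ≤ n → ∑ m ∈ n.divisors, lam m ≤ ro z n) ∧
  ∀ N : ℕ, Even N → 1 ≤ N → (N : ℝ) ≤ z ^ M → c * VV N z ≤ MN N D lam

/-- the constant `c` is asymptotically valid for the upper bound sieve of level `z ^ s` -/
def VU (s c : ℝ) : Prop := ∀ ε : ℝ, 0 < ε → ∀ M : ℝ, ∃ z₀ : ℝ, ∀ z : ℝ, z₀ ≤ z → ∀ D : ℝ,
  z ^ s ≤ D → UpO M z D (c + ε)

/-- the constant `c` is asymptotically valid for the lower bound sieve of level `z ^ s` -/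
def VL (s c : ℝ) : Prop := ∀ ε : ℝ, 0 < ε → ∀ M : ℝ, ∃ z₀ : ℝ, ∀ z : ℝ, z₀ ≤ z → ∀ D : ℝ,
  z ^ s ≤ D → LoO M z D (c - ε)

/-- arbitrary bounded weights of level `D`, supported on squarefree integers -/
structure IsXi (D : ℝ) (ξ : ℕ → ℝ) : Prop where
  bound : ∀ d, |ξ d| ≤ 1
  supp : ∀ d, ξ d ≠ 0 → Squarefree d ∧ (d : ℝ) ≤ D

/-- the weight of `n` -/
def wn (ω : ℝ → ℝ) (x : ℝ) (n : ℕ) : ℝ := Λ n * ω (Real.log (n / x))

/-- the coefficients of the Ramanujan expansion of `∑_{d ∣ m} ξ_d` -/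
def gg (D : ℝ) (ξ : ℕ → ℝ) (r : ℕ) : ℝ := ∑ d ∈ (Icc 1 ⌊D⌋₊).filter (fun d => r ∣ d), ξ d / d

/-- `∑_{e ∣ r, (e, N) = 1} e μ(r/e) / φ(e)` -/
def hh (N r : ℕ) : ℝ := ∑ e ∈ r.divisors.filter (fun e => Nat.Coprime e N),
  (e : ℝ) * ((moebius (r / e) : ℤ) : ℝ) / (Nat.totient e : ℝ)

/-- `∑_n w_n c_r(N - n)` -/
def Sr (ω : ℝ → ℝ) (x : ℝ) (N r : ℕ) : ℝ :=
  ∑ n ∈ II x, wn ω x n * ((cR r ((N : ℤ) - n) : ℤ) : ℝ)

/-- the primes `q` with `Y ^ s ≤ q < Y ^ t` -/
def PY (Y s t : ℝ) : Finset ℕ :=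
  (range ⌈Y ^ t⌉₊).filter (fun q : ℕ => q.Prime ∧ Y ^ s ≤ q)

open Classical in
/-- the primes `p` of size `√N` for which `N - p` is squarefree with at most `r` prime factors, all of
them larger than `N ^ (1/9)` -/
def Good (r : ℕ) (α β : ℝ) (N : ℕ) : Finset ℕ := (range N).filter (fun p => p.Prime ∧
  α * √N < p ∧ (p : ℝ) < β * √N ∧ Squarefree (N - p) ∧ (N - p).primeFactors.card ≤ r ∧
  ∀ q : ℕ, q.Prime → q ∣ N - p → (N : ℝ) ^ ((1 : ℝ) / 9) < q)

open Classical in
/-- the exceptional even integers `N ≤ X` -/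
def Bad (r : ℕ) (α β c : ℝ) (X : ℕ) : Finset ℕ := (Icc 1 X).filter (fun N => Even N ∧
  ((Good r α β N).card : ℝ) < c * SS N * √N / Real.log N ^ 2)

/-- cells `(s, t, j, U)`: `s`, `t` in units of `10^(-4)`, the sieve has the level
`Y ^ (0.112 j / 32)` and the constant `U / 10^8`; the cells cover the range from `s` to `v`, and the
total level is at most `lv` -/
def Ch (lv v : ℕ) : ℕ → List (ℕ × ℕ × ℕ × ℕ) → Prop
  | s, [] => s = v
  | s, e :: es => e.1 = s ∧ s < e.2.1 ∧ e.2.1 ≤ v ∧ e.2.1 + 35 * e.2.2.1 ≤ lv ∧ 0 < e.2.2.1 ∧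
      Ch lv v e.2.1 es

/-- the contribution of a cell -/
def cc (v : ℕ) (e : ℕ × ℕ × ℕ × ℕ) : ℝ :=
  (e.2.2.2 : ℝ) / 10 ^ 8 * (Real.log ((e.2.1 : ℝ) / e.1) - ((e.2.1 : ℝ) - e.1) / v)

/-- the cells for `P_2` -/
def cells2 : List (ℕ × ℕ × ℕ × ℕ) :=
  [(1120, 1124, 125, 103374886), (1124, 1159, 124, 103603063), (1159, 1194, 123, 103845942),
   (1194, 1229, 122, 104104443), (1229, 1264, 121, 104379544), (1264, 1299, 120, 104672291),
   (1299, 1334, 119, 104983797), (1334, 1369, 118, 105315251), (1369, 1404, 117, 105667924),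
   (1404, 1439, 116, 106043174), (1439, 1474, 115, 106442452), (1474, 1509, 114, 106867311),
   (1509, 1544, 113, 107319415), (1544, 1579, 112, 107800545), (1579, 1614, 111, 108312613),
   (1614, 1649, 110, 108857668), (1649, 1684, 109, 109437911), (1684, 1719, 108, 110055708),
   (1719, 1754, 107, 110713604), (1754, 1789, 106, 111414337), (1789, 1824, 105, 112160859),
   (1824, 1859, 104, 112956352), (1859, 1894, 103, 113804251), (1894, 1929, 102, 114708269),
   (1929, 1964, 101, 115672422), (1964, 1999, 100, 116701059), (1999, 2034, 99, 117798895),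
   (2034, 2069, 98, 118971050), (2069, 2104, 97, 120197556), (2104, 2139, 96, 121449614),
   (2139, 2174, 95, 122728031), (2174, 2209, 94, 124033649), (2209, 2244, 93, 125367345),
   (2244, 2279, 92, 126730034), (2279, 2314, 91, 128122672), (2314, 2349, 90, 129546258),
   (2349, 2384, 89, 131001834), (2384, 2419, 88, 132490492), (2419, 2454, 87, 134013372),
   (2454, 2489, 86, 135571668), (2489, 2524, 85, 137166629), (2524, 2559, 84, 138799566),
   (2559, 2594, 83, 140471850), (2594, 2629, 82, 142184922), (2629, 2664, 81, 143940292),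
   (2664, 2699, 80, 145739546), (2699, 2734, 79, 147584351), (2734, 2769, 78, 149476459),
   (2769, 2804, 77, 151417712), (2804, 2839, 76, 153410051), (2839, 2874, 75, 155455519),
   (2874, 2909, 74, 157556270), (2909, 2944, 73, 159714576), (2944, 2979, 72, 161932834),
   (2979, 3014, 71, 164213579), (3014, 3049, 70, 166559488), (3049, 3084, 69, 168973394),
   (3084, 3119, 68, 171458297), (3119, 3154, 67, 174017377), (3154, 3189, 66, 176654004),
   (3189, 3224, 65, 179371758), (3224, 3259, 64, 182174442), (3259, 3294, 63, 185066100),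
   (3294, 3329, 62, 188051038), (3329, 3364, 61, 191133842), (3364, 3399, 60, 194319407),
   (3399, 3434, 59, 197612957), (3434, 3469, 58, 201020077), (3469, 3504, 57, 204546746),
   (3504, 3539, 56, 208199367), (3539, 3574, 55, 211984811), (3574, 3609, 54, 215910456),
   (3609, 3644, 53, 219984239), (3644, 3679, 52, 224214706), (3679, 3714, 51, 228611073),
   (3714, 3749, 50, 233183295), (3749, 3784, 49, 237942138), (3784, 3819, 48, 242899266),
   (3819, 3854, 47, 248067336), (3854, 3889, 46, 253460105), (3889, 3924, 45, 259092552),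
   (3924, 3959, 44, 264981020), (3959, 3994, 43, 271143370), (3994, 4029, 42, 277599165),
   (4029, 4064, 41, 284369877), (4064, 4099, 40, 291479124), (4099, 4134, 39, 298952948),
   (4134, 4169, 38, 306820131), (4169, 4204, 37, 315112567), (4204, 4239, 36, 323865694),
   (4239, 4274, 35, 333119000), (4274, 4309, 34, 342916618), (4309, 4344, 33, 353308031),
   (4344, 4379, 32, 364348907), (4379, 4414, 31, 376102098), (4414, 4449, 30, 388638835),
   (4449, 4484, 29, 402040175), (4484, 4519, 28, 416398753), (4519, 4554, 27, 431820930),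
   (4554, 4589, 26, 448429428), (4589, 4624, 25, 466366606), (4624, 4659, 24, 485798548),
   (4659, 4694, 23, 506920224), (4694, 4729, 22, 529962053), (4729, 4764, 21, 555198342),
   (4764, 4799, 20, 582958260), (4799, 4834, 19, 613640274), (4834, 4869, 18, 647731401),
   (4869, 4904, 17, 685833249), (4904, 4939, 16, 728697828), (4939, 4974, 15, 777277684),
   (4974, 5009, 14, 832797519), (5009, 5044, 13, 896858867), (5044, 5079, 12, 971597106),
   (5079, 5080, 11, 1059924116)]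

/-- the cells for `P_3` -/
def cells3 : List (ℕ × ℕ × ℕ × ℕ) :=
  [(1120, 1360, 104, 112956352), (1360, 1640, 96, 121449614), (1640, 1920, 88, 132490492),
   (1920, 2200, 80, 145739546), (2200, 2480, 72, 161932834), (2480, 2760, 64, 182174442),
   (2760, 3040, 56, 208199367), (3040, 3320, 48, 242899266), (3320, 3600, 40, 291479124),
   (3600, 3880, 32, 364348907), (3880, 4000, 24, 485798548)]

end Pool.Agent.Helper60.PT
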