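import Pool.Agent.Helper60.PT.St

/-! Project PT (MP_b454d1_nt), module L1 -/

set_option autoImplicit false

namespace Pool.Agent.Helper60.PT

open Finset ArithmeticFunction
open Pool.Agent.Helper60.GP (PP VV rg IsB JJ II Err an T0 Tq SS)
open Pool.Agent.Helper15.AB (Th ee)
open Pool.Agent.Helper23.GK (cR)

private def FN_L1 (m : ℤ) : ArithmeticFunction ℤ :=
  ⟨fun e => if (e : ℤ) ∣ m then (e : ℤ) else 0, by simp⟩

private theorem cR_eq_L1 (q : ℕ) (m : ℤ) : cR q m = (FN_L1 m * moebius) q := by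
  rw [ArithmeticFunction.mul_apply, Nat.sum_divisorsAntidiagonal
    (fun x y => FN_L1 m x * moebius y), cR, sum_filter]
  refine sum_congr rfl fun e _ => ?_
  change _ = (if (e : ℤ) ∣ m then (e : ℤ) else 0) * moebius (q / e)
  split_ifs <;> simp

private theorem sum_cR_L1 (d : ℕ) (m : ℤ) :
    ∑ r ∈ d.divisors, cR r m = if (d : ℤ) ∣ m then (d : ℤ) else 0 := by
  have h1 : ∑ r ∈ d.divisors, cR r m = ((FN_L1 m * moebius) * (zeta : ArithmeticFunction ℤ)) d := by
    rw [ArithmeticFunction.coe_mul_zeta_apply]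
    exact sum_congr rfl fun r _ => cR_eq_L1 r m
  rw [h1, mul_assoc, moebius_mul_coe_zeta, mul_one]
  rfl

theorem hId : StId := by
  intro ω x D N ξ hξ hx hN
  have hm : ∀ n ∈ II x, ∑ d ∈ (N - n).divisors, ξ d =
      ∑ r ∈ Icc 1 ⌊D⌋₊, gg D ξ r * ((cR r ((N : ℤ) - n) : ℤ) : ℝ) := by
    intro n hn
    have hn2 : (n : ℝ) ≤ 3 * x := by
      have h1 := (mem_Icc.1 hn).2
      exact (Nat.le_floor_iff (by positivity)).1 h1
    have hnN : n < N := by exact_mod_cast hn2.trans_lt hN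
    have hne : N - n ≠ 0 := by omega
    have hcast : (N : ℤ) - n = ((N - n : ℕ) : ℤ) := by
      rw [Nat.cast_sub hnN.le]
    have h2 : ∑ d ∈ (N - n).divisors, ξ d =
        ∑ d ∈ (Icc 1 ⌊D⌋₊).filter (fun d => d ∣ N - n), ξ d := by
      refine (sum_subset ?_ ?_).symm
      · intro d hd
        exact Nat.mem_divisors.2 ⟨(mem_filter.1 hd).2, hne⟩
      · intro d hd hd'
        by_contra h0
        apply hd'
        have h3 := (hξ.supp d h0).2
        rw [mem_filter, mem_Icc]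
        exact ⟨⟨Nat.pos_of_mem_divisors hd, Nat.le_floor h3⟩, Nat.dvd_of_mem_divisors hd⟩
    have h4 : ∀ d ∈ Icc 1 ⌊D⌋₊, (if d ∣ N - n then ξ d else 0) =
        ∑ r ∈ Icc 1 ⌊D⌋₊, (if r ∣ d then ξ d / d * ((cR r ((N : ℤ) - n) : ℤ) : ℝ) else 0) := by
      intro d hd
      obtain ⟨hd1, hd2⟩ := mem_Icc.1 hd
      have hd0 : (d : ℝ) ≠ 0 := by
        have : 0 < d := hd1
        positivity
      have h5 : ∑ r ∈ Icc 1 ⌊D⌋₊, (if r ∣ d then ξ d / d * ((cR r ((N : ℤ) - n) : ℤ) : ℝ) else 0) =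
          ∑ r ∈ d.divisors, ξ d / d * ((cR r ((N : ℤ) - n) : ℤ) : ℝ) := by
        rw [← sum_filter]
        refine sum_congr ?_ fun _ _ => rfl
        ext r
        rw [mem_filter, mem_Icc, Nat.mem_divisors]
        constructor
        · rintro ⟨-, h⟩
          exact ⟨h, by omega⟩
        · rintro ⟨h, -⟩
          exact ⟨⟨Nat.pos_of_dvd_of_pos h hd1, (Nat.le_of_dvd hd1 h).trans hd2⟩, h⟩
      rw [h5, ← mul_sum, ← Int.cast_sum, sum_cR_L1, hcast]
      by_cases hdv : d ∣ N - n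
      · rw [if_pos hdv, if_pos (Int.natCast_dvd_natCast.2 hdv)]
        push_cast
        field_simp
      · rw [if_neg hdv, if_neg fun h => hdv (Int.natCast_dvd_natCast.1 h)]
        simp
    rw [h2, sum_filter, sum_congr rfl h4, sum_comm]
    refine sum_congr rfl fun r _ => ?_
    rw [gg, sum_mul, sum_filter]
  rw [sum_congr rfl fun n hn => by rw [hm n hn, mul_sum], sum_comm]
  refine sum_congr rfl fun r _ => ?_
  rw [Sr, mul_sum]
  refine sum_congr rfl fun n _ => ?_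
  ring

end Pool.Agent.Helper60.PT
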