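import Pool.Agent.Helper60.PT.Defs
import Pool.Agent.Helper60.GP.St
import Pool.Agent.Helper15.AB.StMid
import Pool.Agent.Helper23.GK.StG

/-!
# Project PT (MP_b454d1_nt): statements of the modules, with their proofs in words

Notation: `x = a √Y`, `N ∈ [Y, 2Y]`, `w_n = wn ω x n`, `L = 1 + log D`.

Mechanism: for weights `ξ_d`, `d ≤ D = Y^lev`, which do not depend on `N`, the sum
`∑_n w_n ∑_{d ∣ N-n} ξ_d` is `∑_{r ≤ D} g_r ∑_n w_n c_r(N-n)` (Ramanujan sums). The part `r ≤ x^θ`,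
`θ < 1/2`, is evaluated for every `N` by the Bombieri-Vinogradov theorem; the part `r > x^θ` is
small in mean square over `N ∈ [Y, 2Y]`, by the additive large sieve used twice (over `N` in the
dual form, and over `n`).

A module with key `XYZ` is the file `Pool/Agent/Helper60/PT/M_XYZ.lean`.
-/

set_option autoImplicit false

noncomputable section

namespace Pool.Agent.Helper60.PT

open Finset ArithmeticFunction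
open Pool.Agent.Helper60.GP (PP VV rg IsB JJ II Err an T0 Tq SS)
open Pool.Agent.Helper15.AB (Th ee)
open Pool.Agent.Helper23.GK (cR)

/-! ### L: level of distribution on average -/

/-- L1 (100 lines). For `n ∈ II x`, `m = N - n ≥ 1`. The sum over `d ∣ m` is the sum over
`d ∈ Icc 1 ⌊D⌋₊`, `d ∣ m` (`IsXi.supp`, `ξ 0 = 0`), and for `d ≥ 1`
`∑_{r ∣ d} c_r(m) = ∑_{e ∣ d, e ∣ m} e ∑_{k ∣ d/e} μ(k) = d` if `d ∣ m`, and `0` otherwise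
(definition of `cR`; `ArithmeticFunction.moebius_mul_coe_zeta`, write `r = e k`). Exchange the
sums; if `r ∣ d ≤ D` then `r ∈ Icc 1 ⌊D⌋₊`. -/
def StId : Prop := ∀ (ω : ℝ → ℝ) (x D : ℝ) (N : ℕ) (ξ : ℕ → ℝ), IsXi D ξ → 0 ≤ x → 3 * x < N →
  ∑ n ∈ II x, wn ω x n * ∑ d ∈ (N - n).divisors, ξ d =
    ∑ r ∈ Icc 1 ⌊D⌋₊, gg D ξ r * Sr ω x N r

/-- L2 (60 lines). `∑_{r ∣ d} hh N r = ∑_{e ∣ d, (e,N)=1} (e/φ(e)) ∑_{k ∣ d/e} μ(k) = d/φ(d)` if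
`(d,N)=1`, and `0` otherwise. Exchange the sums. -/
def StIh : Prop := ∀ (D : ℝ) (N : ℕ) (ξ : ℕ → ℝ),
  ∑ r ∈ Icc 1 ⌊D⌋₊, gg D ξ r * hh N r = MN N D ξ

/-- L3 (180 lines, from `AB.StPH`). `gg D ξ r = 0` unless `r` is squarefree (`r ∣ d`, `d`
squarefree), and `|gg D ξ r| ≤ ∑_{k ≤ D/r} 1/(r k) ≤ L / r` (`d = r k`; harmonic sums:
`harmonic_le_one_add_log`). `hh N` is multiplicative in `r` on coprime factors, `hh N p = -1` if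
`p ∣ N` and `1/(p-1)` otherwise; so for squarefree `r` `|hh N r| = 1/φ(r / (r,N))`. For `r > R`,
`r = g k`, `g = (r,N) ∣ N`, `k ≤ D`, the term is at most `L/r · 1/φ(k) ≤ (L/R) (1/φ(k))`, and the map
`r ↦ (g, k)` is injective: the sum is at most `(L/R) τ(N) ∑_{k ≤ D} 1/φ(k) ≤ C L² τ(N)/R` by
`StPH` with `r = 1`. -/
def StTail : Prop := ∃ C : ℝ, 0 < C ∧ ∀ (D R : ℝ) (N : ℕ) (ξ : ℕ → ℝ), IsXi D ξ → 1 ≤ N → 1 ≤ D →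
  0 < R → |∑ r ∈ (Icc 1 ⌊D⌋₊).filter (fun r : ℕ => R < r), gg D ξ r * hh N r| ≤
    C * (1 + Real.log D) ^ 2 * (N.divisors.card : ℝ) / R

/-- L4 (180 lines). Put `ψ_e = ∑_{n ∈ II x, e ∣ n - N} w_n` (divisibility in `ℤ`). By the definition of `cR`
`Sr ω x N r = ∑_{e ∣ r} e μ(r/e) ψ_e`, so `∑_{r ≤ R} gg r Sr r = ∑_{e ≤ R} Γ_e ψ_e` with
`Γ_e = e ∑_{r ≤ min(D,R), e ∣ r} gg r μ(r/e)`, `|Γ_e| ≤ e ∑_{k ≤ D/e} L/(e k) ≤ L²` (`|gg r| ≤ L/r`, see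
L3), and `∑_{r ≤ R} gg r hh r = ∑_{e ≤ R, (e,N)=1} Γ_e / φ(e)`. The difference is
`∑_{(e,N)=1} Γ_e (ψ_e - Th/φ(e)) + ∑_{(e,N)>1} Γ_e ψ_e`, `|ψ_e - Th/φ(e)| = Err ω x e N`. If `e ∣ N - n`
and `(e,N) > 1`, then `(e,N) ∣ n`, so `(n,N) > 1`: `∑_{e ≤ R, (e,N)>1} ψ_e ≤ ∑_{(n,N)>1} w_n τ(N-n)`. -/
def StMaj : Prop := ∀ ω : ℝ → ℝ, IsB ω → ∀ (x D R : ℝ) (N : ℕ) (ξ : ℕ → ℝ), IsXi D ξ → 0 ≤ x →
  3 * x < N → 1 ≤ D →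
  |∑ r ∈ (Icc 1 ⌊D⌋₊).filter (fun r : ℕ => (r : ℝ) ≤ R), gg D ξ r * Sr ω x N r -
    Th ω x * ∑ r ∈ (Icc 1 ⌊D⌋₊).filter (fun r : ℕ => (r : ℝ) ≤ R), gg D ξ r * hh N r| ≤
    (1 + Real.log D) ^ 2 * (∑ e ∈ (Icc 1 ⌊R⌋₊).filter (fun e => Nat.Coprime e N), Err ω x e N +
      ∑ n ∈ (II x).filter (fun n => ¬ Nat.Coprime n N), wn ω x n * ((N - n).divisors.card : ℝ))

/-- L5 (80 lines, from `AB.StAL`). Duality. Let `A` be the matrix with entries `ee (n b / r)`, rows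
`(r, b)`, columns `n`; `StAL` says `‖A v‖² ≤ K ‖v‖²` for all `v`, `K = C (H + Q²)`. Put `y = A^T c`, i.e.
`y_n = ∑ c r b ee (n b/r)`. Then `‖y‖² = ∑_n y_n conj(y_n) = ∑_{r,b} c r b (A (conj y))_{r,b} ≤
‖c‖ √K ‖y‖` (Cauchy-Schwarz), so `‖y‖² ≤ K ‖c‖²`. -/
def StDual : Prop := ∃ C : ℝ, 0 < C ∧ ∀ (Q H M : ℕ) (c : ℕ → ℕ → ℂ),
  ∑ n ∈ Ioc M (M + H), ‖∑ r ∈ Icc 1 Q, ∑ b ∈ (range r).filter (fun b => Nat.Coprime b r),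
      c r b * ee (n * (b / r))‖ ^ 2 ≤
    C * (H + Q ^ 2) * ∑ r ∈ Icc 1 Q, ∑ b ∈ (range r).filter (fun b => Nat.Coprime b r),
      ‖c r b‖ ^ 2

/-- L6 (180 lines, from `StDual`, `AB.StAL`, `GK.StRam`). By `StRam` (first part)
`c_r(N - n) = ∑_b ee(b N/r) ee(-b n/r)`, so the inner sum is `∑_{r,b} c r b ee(N b/r)`,
`c r b = gg r ∑_n w_n ee(-n b/r)` for `r > R` (and `0` for `r ≤ R`), and `‖c r b‖ =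
|gg r| ‖∑_n w_n ee(n b/r)‖` (conjugate). `StDual` with `Q = ⌊D⌋₊`: the left-hand side is at most
`C (H + D²) ∑_{R < r ≤ D} |gg r|² ∑_b ‖∑ w_n ee(n b/r)‖²`, `|gg r| ≤ L/r`. Split `(R, D]` into the
ranges `(2^j R, 2^(j+1) R]`, `j ≤ log D / log 2`: there `1/r² ≤ 4^(-j) R^(-2)`, and by `StAL` with
`Q = ⌊2^(j+1) R⌋₊` the contribution is at most `C L² 4^(-j) R^(-2) (3x + 4^(j+1) R²) ∑ w_n²`. The
sum over `j` is at most `C' L³ (x/R² + 1) ∑ w_n²`, and `∑ w_n² ≤ 3x (log (3x))²` (`Λ n ≤ log n`,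
`ω ≤ 1/2`). -/
def StMin : Prop := ∃ C : ℝ, 0 < C ∧ ∀ ω : ℝ → ℝ, IsB ω → ∀ (x D R : ℝ) (ξ : ℕ → ℝ) (M H : ℕ),
  IsXi D ξ → 1 ≤ x → 1 ≤ R → 1 ≤ D →
  ∑ N ∈ Ioc M (M + H), (∑ r ∈ (Icc 1 ⌊D⌋₊).filter (fun r : ℕ => R < r), gg D ξ r * Sr ω x N r) ^ 2 ≤
    C * (H + D ^ 2) * (1 + Real.log D) ^ 3 * (x / R ^ 2 + 1) * (x * (1 + Real.log x) ^ 2)

/-- L7 (200 lines, from `StMin`). Let `δ = η - max (1/2) (2 lev - 1/2) > 0`, `δ' = min (δ/2) (1/4)`,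
`θ = 1/2 - δ'`. Let `E` be the set of the integers `N ∈ [Y, 2Y]` for which the inequality fails. `StMin` with
`x = a √Y`, `D = Y^lev`, `R = x^θ`, `M + 1 = ⌈Y⌉₊`, `M + H = ⌊2Y⌋₊` (`H ≤ Y + 1`) gives
`|E| · Y / (log Y)^(2A) ≤ C (Y + 1 + Y^(2 lev)) (1 + lev log Y)³ (x^(2δ') + 1) x (1 + log x)²`, so
`|E| ≤ C' Y^(max (1/2) (2 lev - 1/2) + δ') (log Y)^(2A+5) ≤ Y^η`. -/
def StExc : Prop := ∀ ω : ℝ → ℝ, IsB ω → ∀ (a lev η : ℝ), 0 < a → 0 < lev → 1 / 2 < η →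
  2 * lev - 1 / 2 < η → ∃ θ : ℝ, 0 < θ ∧ θ < 1 / 2 ∧ ∀ A : ℕ, ∃ Y₀ : ℝ, ∀ Y : ℝ, Y₀ ≤ Y →
  ∀ ξ : ℕ → ℝ, IsXi (Y ^ lev) ξ → ∃ E : Finset ℕ, (E.card : ℝ) ≤ Y ^ η ∧
  ∀ N : ℕ, Y ≤ N → (N : ℝ) ≤ 2 * Y → N ∉ E →
  |∑ r ∈ (Icc 1 ⌊Y ^ lev⌋₊).filter (fun r : ℕ => (a * √Y) ^ θ < r),
      gg (Y ^ lev) ξ r * Sr ω (a * √Y) N r| ≤ √Y / Real.log Y ^ A

/-- L8 (130 lines; compare `GP.M_E03`). Prime powers and prime factors of `N`. -/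
def StNPY : Prop := ∀ ω : ℝ → ℝ, IsB ω → ∀ a : ℝ, 0 < a → ∃ Y₀ : ℝ, ∀ Y : ℝ, Y₀ ≤ Y → ∀ N : ℕ,
  Y ≤ N → (N : ℝ) ≤ 2 * Y →
  ∑ n ∈ II (a * √Y), (wn ω (a * √Y) n - an ω (a * √Y) N n) ≤ Y ^ ((9 : ℝ) / 20)

/-- L9 (200 lines, from L1, L2, L3, L4, L7, L8, `GP.StBVc`, `AB.StDB`). Level of distribution on
average. Take `θ` from `StExc`, `R = x^θ`. By L1, L2 the difference is
`[∑_{r ≤ R} gg Sr - Th ∑_{r ≤ R} gg hh] + ∑_{r > R} gg Sr - Th ∑_{r > R} gg hh`. The first term: L4, and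
`∑_{e ≤ x^θ, (e,N)=1} Err ω x e N ≤ x/(log x)^A'` by `StBVc` (`b q = N` if `q` is coprime to `N`, else
`1`), and for `(n,N) > 1` `an ω x N n = 0` (`n` is not prime or `n ∣ N`), so the last sum is at most
`max τ(N-n) · Y^(9/20) ≤ Y^(19/40)`. The second: L7 with `A + 1`. The third: `Th ω x ≤ 3x log (3x)`,
L3, `τ(N) ≤ C N^(1/100)`, `R = x^θ`; since `θ > 0` may be small use `τ(N) ≤ C N^(θ/100)`. -/
def StLD : Prop := ∀ ω : ℝ → ℝ, IsB ω → ∀ (a lev η : ℝ), 0 < a → 0 < lev → 1 / 2 < η →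
  2 * lev - 1 / 2 < η → ∀ A : ℕ, ∃ Y₀ : ℝ, ∀ Y : ℝ, Y₀ ≤ Y →
  ∀ ξ : ℕ → ℝ, IsXi (Y ^ lev) ξ → ∃ E : Finset ℕ, (E.card : ℝ) ≤ Y ^ η ∧
  ∀ N : ℕ, Y ≤ N → (N : ℝ) ≤ 2 * Y → N ∉ E →
  |∑ n ∈ II (a * √Y), wn ω (a * √Y) n * ∑ d ∈ (N - n).divisors, ξ d -
    Th ω (a * √Y) * MN N (Y ^ lev) ξ| ≤ √Y / Real.log Y ^ A

/-! ### O: the sieve with weights independent of `N` (compare the modules F4, R2, R3, R4, R5 of GP) -/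

/-- O1 (150 lines; adapt `GP.M_F4`). The weights of the families `fam0 w 6 (PO z)`,
`fam0 w 6 (PO z) ∪ fam1 w 6 (PO z)`. For even `N` `PP N z = (PO z).filter (¬ · ∣ N)`, and
`fam0 w 6 Q' = (fam0 w 6 Q).filter (· ⊆ Q')` for `Q' ⊆ Q` (definition), so `MN N D lam` is the sum over
`T ∈ fam0 w 6 (PP N z)`, to which `GP.StFLm` applies. -/
def StBase : Prop := VU 17 (1 + 1 / 20000) ∧ VL 17 (1 - 1 / 20000)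

/-- O2 (200 lines; adapt `GP.M_R2`). Composition of sieve weights; for even `N` the primes
`l ∈ PO z \ PO z₁` with `l ∣ N` do not contribute to `MN N D lam`, the others are
`PP N z \ PP N z₁`. -/
def StComp : Prop := ∀ (z₁ z D : ℝ) (lam₀ : ℕ → ℝ) (laml : ℕ → ℕ → ℝ), z₁ ≤ z →
  IsWo z₁ D lam₀ → (∀ l ∈ PO z \ PO z₁, IsWo l (D / l) (laml l)) →
  ∃ lam : ℕ → ℝ, IsWo z D lam ∧
    (∀ n : ℕ, 1 ≤ n → ∑ m ∈ n.divisors, lam m = ∑ m ∈ n.divisors, lam₀ m -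
      ∑ l ∈ (PO z \ PO z₁).filter (fun l => l ∣ n), ∑ m ∈ n.divisors, laml l m) ∧
    ∀ N : ℕ, Even N → MN N D lam = MN N D lam₀ -
      ∑ l ∈ PP N z \ PP N z₁, 1 / ((l : ℝ) - 1) * MN N (D / l) (laml l)

/-- O3 (200 lines; adapt `GP.M_R3`; from `StComp`, `GP.StBu`, `GP.StRatio`). Put `z₁ = z^(s/s')`, so
`z₁^s' = z^s ≤ D`, and `D / l ≥ l^(s-1)` for `l < z`; `N ≤ z^M ≤ l^(M s'/s)` for `l ≥ z₁` (`M ≥ 0`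
without loss of generality). Buchstab's identities `ro z n = ro z₁ n - ∑_{l ∣ n} ro l n` and
`V(z) = V(z₁) - ∑_l V(l)/(l-1)` (`l ∈ PP N z \ PP N z₁`), and `V(z₁)/V(z) → s'/s`:
`MN ≤ (c + ε') V(z₁) - (l - ε') (V(z₁) - V(z))`. -/
def StRecU : Prop := ∀ s s' c l : ℝ, 0 < s → s ≤ s' → VU s' c → VL (s - 1) l →
  VU s ((s' * c - (s' - s) * l) / s)

/-- O4 (100 lines; adapt `GP.M_R4`; as O3) -/
def StRecL : Prop := ∀ s s' c u : ℝ, 0 < s → s ≤ s' → VL s' c → VU (s - 1) u →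
  VL s ((s' * c - (s' - s) * u) / s)

/-- O5 (adapt `GP.M_R5` and its generator; from `StBase`, `StRecU`, `StRecL`). The table with steps
`1/32`: `K = 32`, from `i = 544` (`s = 17`) downwards, 12 rounds, `U_i = ⌈((i+1) U_{i+1} - L_{i-32})/i⌉`
(`i ≥ 11`), `L_i = ⌊((i+1) L_{i+1} - U_{i-32})/i⌋` (`i ≥ 64`, `0` below), unit `10^(-8)`, starting with
`L = 0`, `U_544 = 100005000`, `L_544 = 99995000` in each round. The entries `U_j` of the cells are those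
of round 12; `L_157 = 99612364`, `L_142 = 98950174`. -/
def StTab : Prop := (∀ e ∈ cells2 ++ cells3, VU ((e.2.2.1 : ℝ) / 32) ((e.2.2.2 : ℝ) / 10 ^ 8)) ∧
  VL (157 / 32) (9961 / 10000) ∧ VL (142 / 32) (989 / 1000)

/-! ### P: endgame -/

/-- P1 (200 lines; compare `GP.M_E1`; from `StLD`, `StNPY`, `GP.StPNT`, `GP.StVlow`, `AB.StDB`). For `n`
prime, `n ∤ N`, `N` even: `rg N z (N - n) = ro z (N - n)` (a prime `p ∣ N` with `p ∣ N - n` divides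
`n`, so `p = n`). With the lower bound weights `lam` of level `D = Y^lev ≥ z^s`, `z = Y^u`, and
`M = 2/u`: `T0 ≥ ∑ an ∑_{d ∣ N-n} lam d ≥ ∑ w_n ∑_{d ∣ N-n} lam d - max τ · Y^(9/20)`
`≥ Th MN N D lam - √Y/(log Y)^2 - Y^(19/40)`, `MN N D lam ≥ (c - ε') V`, `Th = (JJ + o(1)) x`,
`V ≥ VV N (N^u) ≥ c'/log N` (`SS N ≥ 1`: `GPS7.SS_ge`). -/
def StLow : Prop := ∀ s c : ℝ, VL s c → ∀ ω : ℝ → ℝ, IsB ω → 0 < JJ ω → ∀ (a u lev η : ℝ), 0 < a →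
  0 < u → 0 < s → u * s ≤ lev → 1 / 2 < η → 2 * lev - 1 / 2 < η → ∀ ε : ℝ, 0 < ε →
  ∃ Y₀ : ℝ, ∀ Y : ℝ, Y₀ ≤ Y → ∃ E : Finset ℕ, (E.card : ℝ) ≤ Y ^ η ∧
  ∀ N : ℕ, Even N → Y ≤ N → (N : ℝ) ≤ 2 * Y → N ∉ E →
  (c - ε) * VV N (Y ^ u) * (JJ ω * (a * √Y)) ≤ T0 ω (a * √Y) N (Y ^ u)

/-- P2 (250 lines; compare `GP.M_E2`; from `StLD`, `StNPY`, `GP.StPNT`, `GP.StVlow`, `AB.StDB`,
`GP.StM2`). With the upper bound weights `lam` of level `z^σ = Y^(uσ)`, `z = Y^u`, put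
`ξ d = ∑_{q ∈ PY Y s t, q ∣ d} w q lam (d/q)`. Since `lam m ≠ 0` only if all prime factors of `m` are
`< z ≤ q`, at most one `q` contributes, so `IsXi (Y^lev) ξ` (`q m ≤ Y^t Y^(uσ)`), and for `m' ≥ 1`
`∑_{d ∣ m'} ξ d = ∑_{q ∣ m'} w q ∑_{m ∣ m'} lam m ≥ ∑_{q ∣ m'} w q ro z m'` (`q` and `m` are coprime), and
`MN N (Y^lev) ξ = ∑_{q ∤ N} w q/(q-1) MN N (z^σ) lam ≤ ∑_q w q/(q-1) (c + ε') V`. For `q ∣ N` `Tq = 0`. So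
`∑ w q Tq ≤ ∑ an ∑_{d ∣ N-n} ξ d ≤ ∑ w_n ∑_{d ∣ N-n} ξ d` (the sums over `d` are nonnegative)
`≤ Th MN N (Y^lev) ξ + √Y/(log Y)^2`; `∑_{q ∈ PY Y s t} 1/(q-1)` is bounded (`StM2`). -/
def StUp : Prop := ∀ σ c : ℝ, VU σ c → 0 ≤ c → ∀ ω : ℝ → ℝ, IsB ω → 0 < JJ ω →
  ∀ (a u s t lev η : ℝ), 0 < a → 0 < u → u ≤ s → s < t → 0 < σ → t + u * σ ≤ lev → 1 / 2 < η →
  2 * lev - 1 / 2 < η → ∀ ε : ℝ, 0 < ε → ∃ Y₀ : ℝ, ∀ Y : ℝ, Y₀ ≤ Y → ∀ w : ℕ → ℝ,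
  (∀ q ∈ PY Y s t, 0 ≤ w q ∧ w q ≤ 1) → ∃ E : Finset ℕ, (E.card : ℝ) ≤ Y ^ η ∧
  ∀ N : ℕ, Even N → Y ≤ N → (N : ℝ) ≤ 2 * Y → N ∉ E →
  ∑ q ∈ PY Y s t, w q * Tq ω (a * √Y) N (Y ^ u) q ≤
    (c * ∑ q ∈ PY Y s t, w q / ((q : ℝ) - 1) + ε) * (VV N (Y ^ u) * (JJ ω * (a * √Y)))

/-- P3 (120 lines; compare `GP.M_M6`; from `GP.StM1`, `GP.StM2`) -/
def StSumY : Prop := ∀ s t v : ℝ, 0 < s → s < t → t ≤ v → ∀ ε : ℝ, 0 < ε → ∃ Y₀ : ℝ, ∀ Y : ℝ,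
  Y₀ ≤ Y → ∑ q ∈ PY Y s t, (1 - Real.log q / (v * Real.log Y)) / ((q : ℝ) - 1) ≤
    Real.log (t / s) - (t - s) / v + ε

/-- P4 (200 lines, from `StUp`, `StSumY`). Induction on `cs` (for all `s`). `cs = []`: the range of
summation is empty, `E = ∅`. `cs = e :: es`: split the range at `e.2.1`; `StUp` with
`σ = e.2.2.1 / 32`, `u = 112/1000` (`u σ = 35 e.2.2.1 / 10^4`), `w q = 1 - log q/(v log Y) ∈ [0, 1]`, and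
`StSumY` for the first part, the induction hypothesis for the second, both with an exponent `η' < η`;
`E` is the union, `2 Y^η' ≤ Y^η`. -/
def StSec : Prop := ∀ (lv v : ℕ) (cs : List (ℕ × ℕ × ℕ × ℕ)) (s : ℕ), 1120 ≤ s → Ch lv v s cs →
  (∀ e ∈ cs, VU ((e.2.2.1 : ℝ) / 32) ((e.2.2.2 : ℝ) / 10 ^ 8)) → ∀ ω : ℝ → ℝ, IsB ω → 0 < JJ ω →
  ∀ a η : ℝ, 0 < a → 1 / 2 < η → 2 * ((lv : ℝ) / 10 ^ 4) - 1 / 2 < η → ∀ ε : ℝ, 0 < ε →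
  ∃ Y₀ : ℝ, ∀ Y : ℝ, Y₀ ≤ Y → ∃ E : Finset ℕ, (E.card : ℝ) ≤ Y ^ η ∧
  ∀ N : ℕ, Even N → Y ≤ N → (N : ℝ) ≤ 2 * Y → N ∉ E →
  ∑ q ∈ PY Y ((s : ℝ) / 10 ^ 4) ((v : ℝ) / 10 ^ 4),
      (1 - Real.log q / ((v : ℝ) / 10 ^ 4 * Real.log Y)) *
        Tq ω (a * √Y) N (Y ^ ((112 : ℝ) / 1000)) q ≤
    ((cs.map (cc v)).sum + ε) * (VV N (Y ^ ((112 : ℝ) / 1000)) * (JJ ω * (a * √Y)))

/-- P5 (100 lines; compare `GP.M_E4`). The true values are `1.00495` and `0.80585`. Use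
`log (1 + y) ≤ y - y²/2 + y³/3` for `y ≥ 0` and exact rational arithmetic (`decide +kernel`). -/
def StNum : Prop := Ch 5499 5080 1120 cells2 ∧ Ch 5000 4000 1120 cells3 ∧
  (cells2.map (cc 5080)).sum ≤ 1006 / 1000 ∧ (cells3.map (cc 4000)).sum ≤ 81 / 100

/-- P6 (80 lines; compare `GP.M_E7`). Richert's weights:
`∑_{q ∈ S} (1 - log q/(v log Y)) ≥ ∑_{q ∣ m} (1 - log q/(v log Y)) = k - log m/(v log Y)`, `k` the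
number of prime factors, so `k < 1/lam + log (2Y)/(v log Y)`, which is `< r + 1` for large `Y`. -/
def StRich : Prop := ∀ (r : ℕ) (v lam : ℝ), 0 < v → 0 < lam → 1 / lam + 1 / v < r + 1 →
  ∃ Y₀ : ℝ, ∀ Y : ℝ, Y₀ ≤ Y → ∀ (m : ℕ) (S : Finset ℕ), 1 ≤ m → (m : ℝ) ≤ 2 * Y → Squarefree m →
  (∀ q, q.Prime → q ∣ m → (q : ℝ) < Y ^ v → q ∈ S) →
  (∀ q ∈ S, q.Prime ∧ q ∣ m ∧ (q : ℝ) < Y ^ v) →
  0 < 1 - lam * ∑ q ∈ S, (1 - Real.log q / (v * Real.log Y)) → m.primeFactors.card ≤ r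

/-- P7 (250 lines; adapt `GP.M_E8`; from `StRich`, `GP.StSq`). The left-hand side is
`∑_n an · rg · (1 - lam ∑_{q ∈ PY, q ∣ N-n} (1 - log q/(v log Y)))`. If `an ≠ 0` then `n` is prime, `n ∤ N`,
`a √Y < n < β √Y`, so `α √N < n < β √N`; if `rg = 1` all prime factors of `m = N - n` are
`≥ Y^0.112 > N^(1/9)` (a prime `p ∣ m` does not divide `N`, else `p = n`). If `m` is not squarefree,
`q² ∣ m` with `q ≥ Y^0.112 ≥ N^(1/10)`: `StSq` with `α = a`, `u = 1/10` (`II (a √Y) ⊆ II (a √N)`), and the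
factor in brackets is `≤ 1`. If `m` is squarefree and the factor is positive, `n ∈ Good r α β N` by
`StRich`; `an ≤ log N`. -/
def StRA : Prop := ∀ (r : ℕ) (v lam : ℝ), 112 / 1000 < v → 0 < lam → 1 / lam + 1 / v < r + 1 →
  ∀ ω : ℝ → ℝ, IsB ω → ∀ α β a κ : ℝ, 0 < α → 0 < κ → κ ≤ 1 → a = α * √(1 + κ) → a < β →
  (∀ t, ω t ≠ 0 → 0 < t ∧ t < Real.log (β / a)) → ∃ Y₀ : ℝ, ∀ Y : ℝ, Y₀ ≤ Y → ∀ N : ℕ, Even N →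
  Y ≤ N → (N : ℝ) ≤ (1 + κ) * Y →
  T0 ω (a * √Y) N (Y ^ ((112 : ℝ) / 1000)) -
    lam * ∑ q ∈ PY Y (112 / 1000) v, (1 - Real.log q / (v * Real.log Y)) *
      Tq ω (a * √Y) N (Y ^ ((112 : ℝ) / 1000)) q ≤
    (Good r α β N).card * Real.log N + Y ^ ((49 : ℝ) / 100)

/-- the theorem on one block -/
def Blk (r : ℕ) (η₀ : ℝ) : Prop := ∀ α β : ℝ, 0 < α → α < β → ∀ η : ℝ, η₀ < η →
  ∃ κ c Y₀ : ℝ, 0 < κ ∧ κ ≤ 1 ∧ 0 < c ∧ ∀ Y : ℝ, Y₀ ≤ Y → ∃ E : Finset ℕ, (E.card : ℝ) ≤ Y ^ η ∧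
  ∀ N : ℕ, Even N → Y ≤ N → (N : ℝ) ≤ (1 + κ) * Y → N ∉ E →
  c * SS N * √N / Real.log N ^ 2 ≤ (Good r α β N).card

/-- P8 (200 lines; compare `GP.M_E9`; from `StTab`, `StLow`, `StSec`, `StNum`, `StRA`, `GP.StVlow`,
`GP.StBump`). Choose `κ ∈ (0, 1]` with `a = α √(1+κ) < β`, and `ω` from `StBump` with `L = log (β/a)`. `r = 2`:
`lev = 5499/10^4`, `VL (157/32) (9961/10000)` (`0.112 · 157/32 = 0.5495 ≤ 0.5499`), `v = 5080/10^4`,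
`lam = 97/100`: `0.9961 - 0.97 · 1.006 > 0.02`. `r = 3`: `lev = 1/2`, `VL (142/32) (989/1000)`
(`0.112 · 142/32 = 0.497 ≤ 0.5`), `v = 4000/10^4`, `lam = 67/100`: `0.989 - 0.67 · 0.81 > 0.44`. Both exceptional sets
with an exponent `η' < η`. `V ≥ VV N (N^0.112) ≥ c' SS N / log N` for `z = Y^0.112 ≤ N^0.112`. -/
def StBlk : Prop := Blk 2 (5998 / 10000) ∧ Blk 3 (1 / 2)

/-- P9 (150 lines). Take `η' = (η + η₀)/2` in `Blk`, and the blocks `[Y_j, (1+κ) Y_j]`,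
`Y_j = X (1+κ)^(-j)`, `1 ≤ j ≤ J`, `J` minimal with `Y_J < √X` (`J ≤ C log X`, `Y_J ≥ √X/2 ≥ Y₀`). The
integers `N < √X` are at most `√X`, the exceptional ones in the blocks at most `J X^η'`. -/
def StCov : Prop := ∀ (r : ℕ) (η₀ : ℝ), 1 / 2 ≤ η₀ → Blk r η₀ → ∀ α β : ℝ, 0 < α → α < β →
  ∀ η : ℝ, η₀ < η → ∃ c : ℝ, 0 < c ∧ ∃ X₀ : ℕ, ∀ X : ℕ, X₀ ≤ X →
  ((Bad r α β c X).card : ℝ) ≤ (X : ℝ) ^ η

/-- the theorem -/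
def StMT : Prop := ∀ α β : ℝ, 0 < α → α < β →
  (∃ c : ℝ, 0 < c ∧ ∃ X₀ : ℕ, ∀ X : ℕ, X₀ ≤ X →
    ((Bad 2 α β c X).card : ℝ) ≤ (X : ℝ) ^ ((3 : ℝ) / 5)) ∧
  ∀ ε : ℝ, 0 < ε → ∃ c : ℝ, 0 < c ∧ ∃ X₀ : ℕ, ∀ X : ℕ, X₀ ≤ X →
    ((Bad 3 α β c X).card : ℝ) ≤ (X : ℝ) ^ ((1 : ℝ) / 2 + ε)

theorem hMT (h1 : StBlk) (h2 : StCov) : StMT := fun α β h3 h4 =>
  ⟨h2 2 _ (by norm_num) h1.1 α β h3 h4 _ (by norm_num), fun ε hε =>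
    h2 3 _ (by norm_num) h1.2 α β h3 h4 _ (by linarith)⟩

end Pool.Agent.Helper60.PT
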